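import Pool.Agent.Lib.MP_5e7226_co.Basic

/-!
# Illumination of the polar body implies separation of the faces
-/

set_option autoImplicit false

open Set Filter Topology

namespace Pool.Agent.Lib.MP_5e7226_co

/-- `Illum L N`: the set `L` is illuminated by `N` directions. -/
def Illum {W : Type*} [AddCommGroup W] [Module ℝ W] [TopologicalSpace W] (L : Set W) (N : ℕ) :
    Prop :=
  ∃ d : Fin N → W, ∀ y ∈ L, ∃ i, ∃ t : ℝ, 0 < t ∧ y + t • d i ∈ interior L

section

variable {V : Type*} [NormedAddCommGroup V] [NormedSpace ℝ V]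

/-- the polar body -/
def polarBody (K : Set V) : Set (V →L[ℝ] ℝ) := {f | ∀ x ∈ K, f x ≤ 1}

lemma polarBody_convex (K : Set V) : Convex ℝ (polarBody K) := by
  intro f hf g hg a b ha hb hab x hx
  have h1 := hf x hx
  have h2 := hg x hx
  simp only [FunLike.coe_add, FunLike.coe_smul, Pi.add_apply, Pi.smul_apply, smul_eq_mul]
  nlinarith

lemma polarBody_closed (K : Set V) : IsClosed (polarBody K) := by
  have : polarBody K = ⋂ x ∈ K, {f : V →L[ℝ] ℝ | f x ≤ 1} := by
    ext f; simp [polarBody]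
  rw [this]
  refine isClosed_biInter fun x _ => ?_
  exact isClosed_le (ContinuousLinearMap.apply ℝ ℝ x).continuous continuous_const

lemma polarBody_bounded {K : Set V} (h0 : (0 : V) ∈ interior K) :
    Bornology.IsBounded (polarBody K) := by
  obtain ⟨ε, hε, hball⟩ := Metric.isOpen_iff.mp isOpen_interior _ h0
  rw [isBounded_iff_forall_norm_le]
  refine ⟨2 / ε, fun f hf => ?_⟩
  apply ContinuousLinearMap.opNorm_le_bound _ (by positivity)
  intro x
  by_cases hx : x = 0
  · rw [hx]; simp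
  have hxn : 0 < ‖x‖ := norm_pos_iff.mpr hx
  have key : ∀ s : ℝ, |s| = 1 → f ((s * (ε / (2 * ‖x‖))) • x) ≤ 1 := by
    intro s hs
    apply hf
    apply interior_subset
    apply hball
    rw [Metric.mem_ball, dist_zero_right, norm_smul, Real.norm_eq_abs, abs_mul, hs, one_mul,
      abs_of_pos (by positivity)]
    have : ε / (2 * ‖x‖) * ‖x‖ = ε / 2 := by field_simp
    rw [this]; linarith
  have h1 := key 1 (by simp)
  have h2 := key (-1) (by simp)
  rw [map_smul, smul_eq_mul] at h1 h2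
  rw [Real.norm_eq_abs, abs_le]
  have hc : 0 < ε / (2 * ‖x‖) := by positivity
  have e1 : 2 / ε * ‖x‖ = 1 / (ε / (2 * ‖x‖)) := by field_simp
  rw [e1]
  constructor
  · rw [neg_le, le_div_iff₀ hc]; linarith
  · rw [le_div_iff₀ hc]; linarith

lemma polarBody_zero_mem_interior {K : Set V} (hK : IsCompact K) :
    (0 : V →L[ℝ] ℝ) ∈ interior (polarBody K) := by
  obtain ⟨R, hR⟩ := hK.isBounded.exists_norm_le
  rw [mem_interior_iff_mem_nhds]
  have hpos : (0 : ℝ) < 1 / (|R| + 1) := by positivity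
  filter_upwards [Metric.ball_mem_nhds (0 : V →L[ℝ] ℝ) hpos] with f hf x hx
  rw [mem_ball_zero_iff, lt_div_iff₀ (by positivity)] at hf
  calc f x ≤ ‖f x‖ := le_abs_self _
    _ ≤ ‖f‖ * ‖x‖ := f.le_opNorm x
    _ ≤ ‖f‖ * (|R| + 1) := by
        apply mul_le_mul_of_nonneg_left _ (norm_nonneg _)
        have := hR x hx
        have := le_abs_self R
        linarith
    _ ≤ 1 := hf.le

/-- Illumination of the polar body gives the separation of the faces. -/
theorem Sep.of_illum_polar {K : Set V} (hK : IsCompact K) (h0 : (0 : V) ∈ interior K) {N : ℕ}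
    (h : Illum (polarBody K) N) : Sep K N := by
  obtain ⟨d, hd⟩ := h
  refine ⟨fun i => -(d i), ?_⟩
  intro f hf
  obtain ⟨x₁, hx₁, hmax⟩ := hK.exists_isMaxOn ⟨0, interior_subset h0⟩ f.continuous.continuousOn
  have hs : 0 < f x₁ := by
    obtain ⟨v, hv⟩ : ∃ v, f v ≠ 0 := by
      by_contra hcon
      push Not at hcon
      exact hf (ContinuousLinearMap.ext hcon)
    obtain ⟨v, hv⟩ : ∃ v, 0 < f v := by
      rcases lt_or_gt_of_ne hv with h | h
      · exact ⟨-v, by rw [map_neg]; linarith⟩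
      · exact ⟨v, h⟩
    have hc : Continuous (fun t : ℝ => t • v) := by fun_prop
    have hev : ∀ᶠ t : ℝ in 𝓝 0, t • v ∈ interior K := by
      apply hc.continuousAt.eventually_mem
      rw [zero_smul]
      exact isOpen_interior.mem_nhds h0
    have hev2 : ∀ᶠ t : ℝ in 𝓝[>] 0, t • v ∈ interior K := hev.filter_mono nhdsWithin_le_nhds
    obtain ⟨t, ht, htpos⟩ := (hev2.and self_mem_nhdsWithin).exists
    have h1 : f (t • v) ≤ f x₁ := hmax (interior_subset ht)
    rw [map_smul, smul_eq_mul] at h1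
    have : 0 < t * f v := mul_pos htpos hv
    linarith
  have hg : (f x₁)⁻¹ • f ∈ polarBody K := by
    intro x hx
    have h1 : f x ≤ f x₁ := hmax hx
    simp only [FunLike.coe_smul, Pi.smul_apply, smul_eq_mul]
    rw [inv_mul_le_iff₀ hs]; linarith
  obtain ⟨i, t, ht, hi⟩ := hd _ hg
  refine ⟨i, fun x hx => ?_⟩
  have hfx : f x = f x₁ := le_antisymm (hmax hx.1) (hx.2 x₁ hx₁)
  have hc : Continuous (fun r : ℝ => (1 + r) • ((f x₁)⁻¹ • f + t • d i)) := by fun_prop
  have hev : ∀ᶠ r : ℝ in 𝓝 0, (1 + r) • ((f x₁)⁻¹ • f + t • d i) ∈ interior (polarBody K) := by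
    apply hc.continuousAt.eventually_mem
    rw [add_zero, one_smul]
    exact isOpen_interior.mem_nhds hi
  obtain ⟨r, hr, hrpos⟩ :=
    ((hev.filter_mono nhdsWithin_le_nhds : ∀ᶠ r : ℝ in 𝓝[>] 0, _).and self_mem_nhdsWithin).exists
  have h1 := interior_subset hr x hx.1
  have hrpos' : 0 < r := hrpos
  simp only [FunLike.coe_smul, FunLike.coe_add, Pi.smul_apply, Pi.add_apply, smul_eq_mul, hfx,
    inv_mul_cancel₀ hs.ne'] at h1
  simp only [FunLike.coe_neg, Pi.neg_apply]
  by_contra hcon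
  push Not at hcon
  have h2 : 0 ≤ t * (d i) x := mul_nonneg ht.le (by linarith)
  nlinarith

end

lemma Illum.image {W W' : Type*} [AddCommGroup W] [Module ℝ W] [TopologicalSpace W]
    [AddCommGroup W'] [Module ℝ W'] [TopologicalSpace W'] {L : Set W} {N : ℕ}
    (h : Illum L N) (T : W ≃L[ℝ] W') : Illum (T '' L) N := by
  obtain ⟨d, hd⟩ := h
  refine ⟨fun i => T (d i), ?_⟩
  rintro _ ⟨y, hy, rfl⟩
  obtain ⟨i, t, ht, hi⟩ := hd y hy
  refine ⟨i, t, ht, ?_⟩
  rw [← map_smul, ← map_add]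
  have h := T.toHomeomorph.isOpenMap.image_interior_subset L
  exact h ⟨_, hi, rfl⟩

lemma Illum.of_image {W W' : Type*} [AddCommGroup W] [Module ℝ W] [TopologicalSpace W]
    [AddCommGroup W'] [Module ℝ W'] [TopologicalSpace W'] {L : Set W} {N : ℕ}
    (T : W ≃L[ℝ] W') (h : Illum (T '' L) N) : Illum L N := by
  have h2 := h.image T.symm
  have h3 : T.symm '' (T '' L) = L := by
    rw [← image_comp]
    simp
  rwa [h3] at h2

/-- from a finite set of at most `N` directions -/
lemma Illum.of_finset {W : Type*} [AddCommGroup W] [Module ℝ W] [TopologicalSpace W]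
    {L : Set W} {N : ℕ} (D : Finset W) (hD : D.card ≤ N)
    (h : ∀ y ∈ L, ∃ d ∈ D, ∃ t : ℝ, 0 < t ∧ y + t • d ∈ interior L) : Illum L N := by
  classical
  let e := D.equivFin
  refine ⟨fun j => if hj : (j : ℕ) < D.card then (e.symm ⟨j, hj⟩ : W) else 0, ?_⟩
  intro y hy
  obtain ⟨d, hd, t, ht, hi⟩ := h y hy
  refine ⟨⟨(e ⟨d, hd⟩ : ℕ), lt_of_lt_of_le (e ⟨d, hd⟩).2 hD⟩, t, ht, ?_⟩
  simpa using hi

end Pool.Agent.Lib.MP_5e7226_co
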