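import Pool.Agent.Lib.MP_5e7226_co.HT.Coords
import Pool.Agent.Lib.MP_5e7226_co.R3Final

/-!
# Affine symmetries in three-dimensional space: reduction to half-turns
-/

set_option autoImplicit false

open Set Filter Topology

namespace Pool.Agent.Lib.MP_5e7226_co

/-- Bodies in three-dimensional space with an affine symmetry which is neither a point reflection
nor a reflection in a plane, given the illumination theorem for half-turn symmetric bodies. -/
theorem affine_sep_full (H : HalfTurnIllum 8) {K : Set (EuclideanSpace ℝ (Fin 3))}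
    (hconv : Convex ℝ K) (hK : IsCompact K)
    (o : EuclideanSpace ℝ (Fin 3)) (ho : o ∈ interior K)
    (A : EuclideanSpace ℝ (Fin 3) →ₗ[ℝ] EuclideanSpace ℝ (Fin 3))
    (hA : (fun x => o + A (x - o)) '' K = K)
    (h : (0 < LinearMap.det A ∧ ∃ x, A x ≠ x) ∨ ∃ x, A (A x) ≠ x) :
    Sep ((fun x => x - o) '' K) 8 := by
  by_cases h4 : ∃ x, A (A (A (A x))) ≠ x
  · exact affine_sep' hconv hK o ho A hA (Or.inr h4)
  push Not at h4
  set K₁ : Set (EuclideanSpace ℝ (Fin 3)) := (fun x => x - o) '' K with hK₁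
  have hK₁c : IsCompact K₁ := hK.image (continuous_id.sub continuous_const)
  have hK₁i : (0 : EuclideanSpace ℝ (Fin 3)) ∈ interior K₁ := by
    have h := (Homeomorph.subRight o).isOpenMap.image_interior_subset K
    apply h
    exact ⟨o, ho, by simp⟩
  have hdim : Module.finrank ℝ (EuclideanSpace ℝ (Fin 3)) = 3 := by simp
  have hA₁ : A '' K₁ = K₁ := by
    rw [hK₁]
    conv_rhs => rw [← hA]
    rw [← image_comp, ← image_comp]
    apply image_congr
    intro x _
    simp
  by_cases h2 : ∃ x, A (A x) ≠ x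
  · have hinj := injective_of_image hK₁i hA₁
    have hdet : LinearMap.det A ≠ 0 := by
      intro h0
      have := LinearMap.bot_lt_ker_of_det_eq_zero h0
      rw [LinearMap.ker_eq_bot.mpr hinj] at this
      exact lt_irrefl _ this
    have hp : ∀ x, (A ^ 2) x = A (A x) := fun x => by simp [pow_two]
    refine sep_of_involution H hdim hK₁c hK₁i (A := A ^ 2) (image_pow hA₁ 2) ?_ ?_ ?_
    · rw [map_pow]; positivity
    · intro x
      rw [hp, hp, h4]
    · obtain ⟨x, hx⟩ := h2
      exact ⟨x, by rw [hp]; exact hx⟩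
  · push Not at h2
    rcases h with ⟨h1, h3⟩ | ⟨x, hx⟩
    · exact sep_of_involution H hdim hK₁c hK₁i hA₁ h1 h2 h3
    · exact absurd (h2 x) hx

/-- The final theorem, given the illumination theorem for half-turn symmetric bodies. -/
theorem final_of_halfturn (H : HalfTurnIllum 8) (K : Set (EuclideanSpace ℝ (Fin 3)))
    (hconv : Convex ℝ K) (hK : IsCompact K)
    (o : EuclideanSpace ℝ (Fin 3)) (ho : o ∈ interior K)
    (A : EuclideanSpace ℝ (Fin 3) → EuclideanSpace ℝ (Fin 3)) (hlin : IsLinearMap ℝ A)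
    (hA : (fun x => o + A (x - o)) '' K = K)
    (h : (0 < LinearMap.det (hlin.mk' A) ∧ A ≠ id) ∨ A ∘ A ≠ id) :
    ∃ w : Fin 8 → EuclideanSpace ℝ (Fin 3), ∃ b : Fin 8 → ℝ,
      ∀ u x₀ : EuclideanSpace ℝ (Fin 3), u ≠ 0 → x₀ ∈ K →
        (∀ y ∈ K, inner ℝ u y ≤ inner ℝ u x₀) →
          ∃ i, inner ℝ (w i) o < b i ∧
            ∀ x ∈ K, inner ℝ u x = inner ℝ u x₀ → b i < inner ℝ (w i) x := by
  refine sep_to_hyperplanes hK o (affine_sep_full H hconv hK o ho (hlin.mk' A) hA ?_)
  rcases h with ⟨h1, h2⟩ | h2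
  · left
    obtain ⟨x, hx⟩ := Function.ne_iff.mp h2
    exact ⟨h1, x, hx⟩
  · right
    obtain ⟨x, hx⟩ := Function.ne_iff.mp h2
    exact ⟨x, hx⟩

end Pool.Agent.Lib.MP_5e7226_co
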