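import Pool.Agent.Lib.MP_5e7226_co.HT.PT1b
/-! T11a: the bridge from the body to the functions `f` and `h`. -/

set_option autoImplicit false

open Set Filter Topology

namespace Pool.Agent.Lib.MP_5e7226_co.HT

open Pool.Agent.Lib.MP_5e7226_co.HT

/-- the top -/
noncomputable def top (L : Set (E × ℝ)) (x : E) : ℝ := sSup {z | (x, z) ∈ L}

/-- minus the bottom -/
noncomputable def bot (L : Set (E × ℝ)) (x : E) : ℝ := sSup {z | (x, -z) ∈ L}

lemma fibre_closed {L : Set (E × ℝ)} (hk : IsCompact L) (x : E) :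
    IsCompact {z : ℝ | (x, z) ∈ L} := by
  have : {z : ℝ | (x, z) ∈ L} = Prod.snd '' (L ∩ (Prod.fst ⁻¹' {x})) := by
    ext z
    constructor
    · intro hz
      exact ⟨(x, z), ⟨hz, rfl⟩, rfl⟩
    · rintro ⟨⟨a, b⟩, ⟨h1, h2⟩, rfl⟩
      have : a = x := h2
      subst this
      exact h1
  rw [this]
  apply IsCompact.image _ continuous_snd
  exact hk.inter_right (isClosed_singleton.preimage continuous_fst)

lemma fibre_closed' {L : Set (E × ℝ)} (hk : IsCompact L) (x : E) :
    IsCompact {z : ℝ | (x, -z) ∈ L} := by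
  have : {z : ℝ | (x, -z) ∈ L} = (fun z => -z) '' {z : ℝ | (x, z) ∈ L} := by
    ext z
    constructor
    · intro hz
      exact ⟨-z, hz, by simp⟩
    · rintro ⟨w, hw, rfl⟩
      simpa using hw
  rw [this]
  exact (fibre_closed hk x).image continuous_neg

lemma top_mem {L : Set (E × ℝ)} (hk : IsCompact L) {x : E} (hx : x ∈ Prod.fst '' L) :
    (x, top L x) ∈ L := by
  obtain ⟨⟨a, b⟩, h1, rfl⟩ := hx
  exact (fibre_closed hk a).sSup_mem ⟨b, h1⟩

lemma le_top {L : Set (E × ℝ)} (hk : IsCompact L) {x : E} {z : ℝ} (hz : (x, z) ∈ L) :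
    z ≤ top L x := le_csSup (fibre_closed hk x).bddAbove hz

lemma bot_mem {L : Set (E × ℝ)} (hk : IsCompact L) {x : E} (hx : x ∈ Prod.fst '' L) :
    (x, -bot L x) ∈ L := by
  obtain ⟨⟨a, b⟩, h1, rfl⟩ := hx
  exact (fibre_closed' hk a).sSup_mem ⟨-b, by simpa using h1⟩

lemma bot_le {L : Set (E × ℝ)} (hk : IsCompact L) {x : E} {z : ℝ} (hz : (x, z) ∈ L) :
    -bot L x ≤ z := by
  have : -z ≤ bot L x := le_csSup (fibre_closed' hk x).bddAbove (by simpa using hz)
  linarith

/-- the reflected body -/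
lemma flip_props {L : Set (E × ℝ)} (hc : Convex ℝ L) (hk : IsCompact L)
    (hs : ∀ (x : E) (z : ℝ), (x, z) ∈ L → (-x, z) ∈ L) :
    Convex ℝ {P : E × ℝ | (P.1, -P.2) ∈ L} ∧ IsCompact {P : E × ℝ | (P.1, -P.2) ∈ L} ∧
    (∀ (x : E) (z : ℝ), (x, z) ∈ {P : E × ℝ | (P.1, -P.2) ∈ L} →
      (-x, z) ∈ {P : E × ℝ | (P.1, -P.2) ∈ L}) ∧
    (Prod.fst '' {P : E × ℝ | (P.1, -P.2) ∈ L} = Prod.fst '' L) := by
  refine ⟨?_, ?_, ?_, ?_⟩
  · intro P hP Q hQ a b ha hb hab
    have := hc hP hQ ha hb hab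
    simp only [Prod.smul_mk, Prod.mk_add_mk, smul_neg] at this
    simp only [mem_ofPred_eq, Prod.fst_add, Prod.smul_fst, Prod.snd_add, Prod.smul_snd, neg_add]
    exact this
  · have : {P : E × ℝ | (P.1, -P.2) ∈ L} = (fun P : E × ℝ => (P.1, -P.2)) '' L := by
      ext P
      constructor
      · intro hP
        exact ⟨(P.1, -P.2), hP, by simp⟩
      · rintro ⟨Q, hQ, rfl⟩
        simpa using hQ
    rw [this]
    exact hk.image (continuous_fst.prodMk continuous_snd.neg)
  · intro x z h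
    exact hs _ _ h
  · ext x
    constructor
    · rintro ⟨P, hP, rfl⟩
      exact ⟨_, hP, rfl⟩
    · rintro ⟨P, hP, rfl⟩
      exact ⟨(P.1, -P.2), by simpa using hP, rfl⟩

lemma top_concave {L : Set (E × ℝ)} (hc : Convex ℝ L) (hk : IsCompact L) :
    ConcaveOn ℝ (Prod.fst '' L) (top L) := by
  have hB : Convex ℝ (Prod.fst '' L) := by
    intro x hx y hy a b ha hb hab
    have h := hc (top_mem hk hx) (top_mem hk hy) ha hb hab
    exact ⟨_, h, by simp⟩
  refine ⟨hB, ?_⟩
  intro x hx y hy a b ha hb hab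
  have h := hc (top_mem hk hx) (top_mem hk hy) ha hb hab
  exact le_top hk h

lemma top_usc {L : Set (E × ℝ)} (hk : IsCompact L) :
    UpperSemicontinuousOn (top L) (Prod.fst '' L) := by
  intro x hx c hcx
  have hcl : IsClosed (Prod.fst '' (L ∩ {P : E × ℝ | c ≤ P.2})) := by
    apply IsCompact.isClosed
    apply IsCompact.image _ continuous_fst
    exact hk.inter_right (isClosed_le continuous_const continuous_snd)
  have hnot : x ∉ Prod.fst '' (L ∩ {P : E × ℝ | c ≤ P.2}) := by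
    rintro ⟨P, ⟨h1, h2⟩, rfl⟩
    have : P.2 ≤ top L P.1 := le_top hk h1
    have h3 : c ≤ P.2 := h2
    linarith
  have hev : ∀ᶠ y in 𝓝 x, y ∉ Prod.fst '' (L ∩ {P : E × ℝ | c ≤ P.2}) :=
    hcl.isOpen_compl.mem_nhds hnot
  filter_upwards [mem_nhdsWithin_of_mem_nhds hev, self_mem_nhdsWithin] with y hy hyB
  by_contra hcon
  push Not at hcon
  exact hy ⟨(y, top L y), ⟨top_mem hk hyB, hcon⟩, rfl⟩

lemma top_flip (L : Set (E × ℝ)) : top {P : E × ℝ | (P.1, -P.2) ∈ L} = bot L := rfl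

theorem hf_of_body {L : Set (E × ℝ)} (hc : Convex ℝ L) (hk : IsCompact L)
    (hi : (interior L).Nonempty) (hs : ∀ (x : E) (z : ℝ), (x, z) ∈ L → (-x, z) ∈ L) :
    HF (Prod.fst '' L) (top L) (bot L) := by
  obtain ⟨f1, f2, f3, f4⟩ := flip_props hc hk hs
  have hcB := (top_concave hc hk).1
  -- an interior point on the axis
  obtain ⟨z₀, hz₀⟩ : ∃ z₀ : ℝ, ((0 : E), z₀) ∈ interior L := by
    obtain ⟨⟨x, z⟩, hx⟩ := hi
    let φ : (E × ℝ) ≃ₜ (E × ℝ) := (Homeomorph.neg E).prodCongr (Homeomorph.refl ℝ)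
    have hφ : φ '' L = L := by
      ext P
      constructor
      · rintro ⟨Q, hQ, rfl⟩
        exact hs _ _ hQ
      · intro hP
        refine ⟨(-P.1, P.2), hs _ _ hP, ?_⟩
        change (-(-P.1), P.2) = P
        simp
    have h2 : ((-x, z) : E × ℝ) ∈ interior L := by
      have h := φ.image_interior L
      rw [hφ] at h
      rw [← h]
      exact ⟨(x, z), hx, rfl⟩
    have h3 := hc.interior hx h2 (a := 1 / 2) (b := 1 / 2) (by norm_num) (by norm_num) (by norm_num)
    refine ⟨z, ?_⟩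
    convert h3 using 1
    ext
    · simp
    · simp
    · simp
      ring
  have hopen : IsOpen (Prod.fst '' interior L) := isOpenMap_fst _ isOpen_interior
  have hint0 : (0 : E) ∈ interior (Prod.fst '' L) := by
    apply interior_mono (image_mono interior_subset)
    rw [hopen.interior_eq]
    exact ⟨_, hz₀, rfl⟩
  constructor
  · exact hcB
  · exact hk.image continuous_fst
  · exact hint0
  · rintro x ⟨P, hP, rfl⟩
    exact ⟨(-P.1, P.2), hs _ _ hP, rfl⟩
  · exact top_concave hc hk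
  · have := top_concave f1 f2
    rw [f4] at this
    exact this
  · intro x _
    unfold top
    congr 1
    ext z
    exact ⟨fun h => by simpa using hs _ _ h, fun h => hs _ _ h⟩
  · intro x _
    unfold bot
    congr 1
    ext z
    exact ⟨fun h => by simpa using hs _ _ h, fun h => hs _ _ h⟩
  · exact top_usc hk
  · have := top_usc f2
    rw [f4] at this
    exact this
  · intro x hx
    have := bot_le hk (top_mem hk hx)
    linarith
  · -- strictly positive width at the axis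
    obtain ⟨ε, hε, hball⟩ := Metric.isOpen_iff.mp isOpen_interior _ hz₀
    have h1 : ((0 : E), z₀ + ε / 2) ∈ L := by
      apply interior_subset
      apply hball
      rw [Metric.mem_ball, Prod.dist_eq]
      simp only [dist_self, Real.dist_eq]
      rw [show z₀ + ε / 2 - z₀ = ε / 2 by ring, abs_of_pos (by positivity)]
      exact max_lt hε (by linarith)
    have h2 : ((0 : E), z₀ - ε / 2) ∈ L := by
      apply interior_subset
      apply hball
      rw [Metric.mem_ball, Prod.dist_eq]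
      simp only [dist_self, Real.dist_eq]
      rw [show z₀ - ε / 2 - z₀ = -(ε / 2) by ring, abs_neg, abs_of_pos (by positivity)]
      exact max_lt hε (by linarith)
    have h3 := le_top hk h1
    have h4 := bot_le hk h2
    linarith

lemma mem_interior_body {L : Set (E × ℝ)} (hc : Convex ℝ L) (hk : IsCompact L)
    (hs : ∀ (x : E) (z : ℝ), (x, z) ∈ L → (-x, z) ∈ L) {x : E} {z : ℝ}
    (hx : x ∈ interior (Prod.fst '' L)) (h1 : -bot L x < z) (h2 : z < top L x) :
    (x, z) ∈ interior L := by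
  obtain ⟨f1, f2, f3, f4⟩ := flip_props hc hk hs
  have ct := (top_concave hc hk).continuousOn_interior
  have cb := (top_concave f1 f2).continuousOn_interior
  rw [f4] at cb
  have ct' : ContinuousAt (top L) x := ct.continuousAt (isOpen_interior.mem_nhds hx)
  have cb' : ContinuousAt (bot L) x := cb.continuousAt (isOpen_interior.mem_nhds hx)
  rw [mem_interior_iff_mem_nhds]
  have e0 : ∀ᶠ P : E × ℝ in 𝓝 (x, z), P.1 ∈ interior (Prod.fst '' L) :=
    continuous_fst.continuousAt.eventually_mem (isOpen_interior.mem_nhds hx)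
  have e1 : ∀ᶠ P : E × ℝ in 𝓝 (x, z), P.2 < top L P.1 := by
    have c1 : ContinuousAt (fun P : E × ℝ => top L P.1) (x, z) :=
      ContinuousAt.comp (x := (x, z)) (f := fun P : E × ℝ => P.1) ct' continuous_fst.continuousAt
    exact continuous_snd.continuousAt.eventually_lt c1 h2
  have e2 : ∀ᶠ P : E × ℝ in 𝓝 (x, z), -bot L P.1 < P.2 := by
    have c1 : ContinuousAt (fun P : E × ℝ => -bot L P.1) (x, z) :=
      ContinuousAt.comp (x := (x, z)) (f := fun P : E × ℝ => P.1)
        (g := fun y => -bot L y) cb'.neg continuous_fst.continuousAt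
    exact c1.eventually_lt continuous_snd.continuousAt h1
  filter_upwards [e0, e1, e2] with P p0 p1 p2
  have hP := interior_subset p0
  have t1 := top_mem hk hP
  have t2 := bot_mem hk hP
  have hpos : 0 < top L P.1 + bot L P.1 := by linarith
  have h := hc t1 t2 (a := (P.2 + bot L P.1) / (top L P.1 + bot L P.1))
    (b := (top L P.1 - P.2) / (top L P.1 + bot L P.1)) (by apply div_nonneg <;> linarith)
    (by apply div_nonneg <;> linarith) (by field_simp; ring)
  convert h using 1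
  ext
  · simp only [Prod.smul_mk, Prod.mk_add_mk, Prod.fst_add, Prod.smul_fst, smul_eq_mul]
    field_simp
    ring
  · simp only [Prod.smul_mk, Prod.mk_add_mk, Prod.snd_add, Prod.smul_snd, smul_eq_mul]
    field_simp
    ring
  · simp only [Prod.smul_mk, Prod.mk_add_mk, smul_eq_mul]
    field_simp
    ring

/-- `IN` and `UP f` illuminate the part of the fibre above the bottom -/
lemma lit_of_up {L : Set (E × ℝ)} (hc : Convex ℝ L) (hk : IsCompact L)
    (hi : (interior L).Nonempty) (hs : ∀ (x : E) (z : ℝ), (x, z) ∈ L → (-x, z) ∈ L)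
    {x v : E} {w z : ℝ} (hin : IN (Prod.fst '' L) x v) (hup : UP (Prod.fst '' L) (top L) x v w)
    (hP : (x, z) ∈ L) (hz : -bot L x < z) :
    ∃ t : ℝ, 0 < t ∧ (x, z) + t • ((v, w) : E × ℝ) ∈ interior L := by
  have H := hf_of_body hc hk hi hs
  have hx : x ∈ Prod.fst '' L := ⟨_, hP, rfl⟩
  obtain ⟨r1, hr1, h1⟩ := IN.small H hx hin
  obtain ⟨r2, hr2, h2⟩ := UP.small H hx hup
  have hT := (h2 r2 hr2 le_rfl).1
  set C : ℝ := (bot L x - bot L (x + r2 • v)) / r2 - w with hC
  have hd : 0 < z + bot L x := by linarith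
  set t := min (min r1 r2) ((z + bot L x) / (|C| + 1)) with ht
  have ht0 : 0 < t := by
    rw [ht]
    apply lt_min (lt_min hr1 hr2)
    positivity
  have ht1 : t ≤ r1 := (min_le_left _ _).trans (min_le_left _ _)
  have ht2 : t ≤ r2 := (min_le_left _ _).trans (min_le_right _ _)
  have ht3 : t ≤ (z + bot L x) / (|C| + 1) := min_le_right _ _
  refine ⟨t, ht0, ?_⟩
  have hxt := h1 t ht0 ht1
  have hft := (h2 t ht0 ht2).2
  have hzt := le_top hk hP
  simp only [Prod.smul_mk, Prod.mk_add_mk, smul_eq_mul]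
  apply mem_interior_body hc hk hs hxt
  · have hconc := H.hconc.2 hx hT (show (0 : ℝ) ≤ 1 - t / r2 by
      rw [sub_nonneg, div_le_one hr2]; exact ht2) (show (0 : ℝ) ≤ t / r2 by positivity) (by ring)
    have e : (1 - t / r2) • x + (t / r2) • (x + r2 • v) = x + t • v := by
      rw [smul_add, smul_smul, div_mul_cancel₀ _ hr2.ne', sub_smul, one_smul]
      abel
    rw [e, smul_eq_mul, smul_eq_mul] at hconc
    have h3 : t * (|C| + 1) ≤ z + bot L x := by
      rwa [le_div_iff₀ (by positivity)] at ht3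
    have h4 : t * C ≤ t * |C| := mul_le_mul_of_nonneg_left (le_abs_self _) ht0.le
    have h5 : t * C = t / r2 * (bot L x - bot L (x + r2 • v)) - t * w := by
      rw [hC]; field_simp
    nlinarith
  · linarith

lemma lit_of_up' {L : Set (E × ℝ)} (hc : Convex ℝ L) (hk : IsCompact L)
    (hi : (interior L).Nonempty) (hs : ∀ (x : E) (z : ℝ), (x, z) ∈ L → (-x, z) ∈ L)
    {x v : E} {w z : ℝ} (hin : IN (Prod.fst '' L) x v) (hup : UP (Prod.fst '' L) (bot L) x v (-w))
    (hP : (x, z) ∈ L) (hz : z < top L x) :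
    ∃ t : ℝ, 0 < t ∧ (x, z) + t • ((v, w) : E × ℝ) ∈ interior L := by
  have H := hf_of_body hc hk hi hs
  have hx : x ∈ Prod.fst '' L := ⟨_, hP, rfl⟩
  obtain ⟨r1, hr1, h1⟩ := IN.small H hx hin
  obtain ⟨r2, hr2, h2⟩ := UP.small H.flip hx hup
  have hT := (h2 r2 hr2 le_rfl).1
  set C : ℝ := (top L x - top L (x + r2 • v)) / r2 + w with hC
  have hd : 0 < top L x - z := by linarith
  set t := min (min r1 r2) ((top L x - z) / (|C| + 1)) with ht
  have ht0 : 0 < t := by
    rw [ht]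
    apply lt_min (lt_min hr1 hr2)
    positivity
  have ht1 : t ≤ r1 := (min_le_left _ _).trans (min_le_left _ _)
  have ht2 : t ≤ r2 := (min_le_left _ _).trans (min_le_right _ _)
  have ht3 : t ≤ (top L x - z) / (|C| + 1) := min_le_right _ _
  refine ⟨t, ht0, ?_⟩
  have hxt := h1 t ht0 ht1
  have hft := (h2 t ht0 ht2).2
  have hzt := bot_le hk hP
  simp only [Prod.smul_mk, Prod.mk_add_mk, smul_eq_mul]
  apply mem_interior_body hc hk hs hxt
  · linarith
  · have hconc := H.fconc.2 hx hT (show (0 : ℝ) ≤ 1 - t / r2 by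
      rw [sub_nonneg, div_le_one hr2]; exact ht2) (show (0 : ℝ) ≤ t / r2 by positivity) (by ring)
    have e : (1 - t / r2) • x + (t / r2) • (x + r2 • v) = x + t • v := by
      rw [smul_add, smul_smul, div_mul_cancel₀ _ hr2.ne', sub_smul, one_smul]
      abel
    rw [e, smul_eq_mul, smul_eq_mul] at hconc
    have h3 : t * (|C| + 1) ≤ top L x - z := by
      rwa [le_div_iff₀ (by positivity)] at ht3
    have h4 : t * C ≤ t * |C| := mul_le_mul_of_nonneg_left (le_abs_self _) ht0.le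
    have h5 : t * C = t / r2 * (top L x - top L (x + r2 • v)) + t * w := by
      rw [hC]; field_simp
    nlinarith

lemma lit_of_full {L : Set (E × ℝ)} (hc : Convex ℝ L) (hk : IsCompact L)
    (hi : (interior L).Nonempty) (hs : ∀ (x : E) (z : ℝ), (x, z) ∈ L → (-x, z) ∈ L)
    {x v : E} {w z : ℝ} (hfull : Full (Prod.fst '' L) (top L) (bot L) x v w)
    (hP : (x, z) ∈ L) :
    ∃ t : ℝ, 0 < t ∧ (x, z) + t • ((v, w) : E × ℝ) ∈ interior L := by
  have H := hf_of_body hc hk hi hs
  have hx : x ∈ Prod.fst '' L := ⟨_, hP, rfl⟩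
  obtain ⟨hin, hup, hup'⟩ := hfull
  obtain ⟨r1, hr1, h1⟩ := IN.small H hx hin
  obtain ⟨r2, hr2, h2⟩ := UP.small H hx hup
  obtain ⟨r3, hr3, h3⟩ := UP.small H.flip hx hup'
  set t := min r1 (min r2 r3) with ht
  have ht0 : 0 < t := lt_min hr1 (lt_min hr2 hr3)
  have ht1 : t ≤ r1 := min_le_left _ _
  have ht2 : t ≤ r2 := (min_le_right _ _).trans (min_le_left _ _)
  have ht3 : t ≤ r3 := (min_le_right _ _).trans (min_le_right _ _)
  refine ⟨t, ht0, ?_⟩
  have hft := (h2 t ht0 ht2).2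
  have hht := (h3 t ht0 ht3).2
  have hz1 := bot_le hk hP
  have hz2 := le_top hk hP
  simp only [Prod.smul_mk, Prod.mk_add_mk, smul_eq_mul]
  apply mem_interior_body hc hk hs (h1 t ht0 ht1)
  · linarith
  · linarith

/-- T11a -/
theorem ill_of_good (hg : ∀ (B : Set E) (f h : E → ℝ), HF B f h → Good B f h) (L : Set (E × ℝ))
    (hc : Convex ℝ L) (hk : IsCompact L) (hi : (interior L).Nonempty)
    (hs : ∀ (x : E) (z : ℝ), (x, z) ∈ L → (-x, z) ∈ L) :
    ∃ D : List (E × ℝ), D.length ≤ 8 ∧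
      ∀ P ∈ L, ∃ d ∈ D, ∃ t : ℝ, 0 < t ∧ P + t • d ∈ interior L := by
  have H := hf_of_body hc hk hi hs
  obtain ⟨D, hD8, hD⟩ := hg _ _ _ H
  refine ⟨D, hD8, ?_⟩
  rintro ⟨x, z⟩ hP
  have hx : x ∈ Prod.fst '' L := ⟨_, hP, rfl⟩
  rcases hD x hx with ⟨d, hd, hfull⟩ | ⟨hpos, ⟨d, hd, hin, hup⟩, ⟨d', hd', hin', hup'⟩⟩
  · exact ⟨d, hd, lit_of_full hc hk hi hs hfull hP⟩
  · by_cases hz : -bot L x < z
    · exact ⟨d, hd, lit_of_up hc hk hi hs hin hup hP hz⟩
    · refine ⟨d', hd', lit_of_up' hc hk hi hs hin' hup' hP ?_⟩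
      push Not at hz
      linarith

end Pool.Agent.Lib.MP_5e7226_co.HT
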