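import Pool.Agent.Lib.MP_5e7226_co.HT.PT10
import Pool.Agent.Lib.MP_5e7226_co.HT.PT11a
import Pool.Agent.Lib.MP_5e7226_co.HT.Bridge

set_option autoImplicit false

open Set Filter Topology

namespace Pool.Agent.Lib.MP_5e7226_co

/-- Every convex body in `R³` which is invariant under a half-turn is illuminated by eight
directions. -/
theorem halfTurn : HalfTurnIllum 8 := by
  classical
  intro L hc hk hi hs
  obtain ⟨D, hD, hl⟩ := HT.ill_of_good (fun B f h H => HT.main H) L hc hk hi hs
  refine Illum.of_finset D.toFinset (le_trans (List.toFinset_card_le D) hD) ?_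
  intro P hP
  obtain ⟨d, hd, ht⟩ := hl P hP
  exact ⟨d, by simpa using hd, ht⟩

end Pool.Agent.Lib.MP_5e7226_co
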