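import Pool.Agent.Lib.MP_5e7226_co.HT.Defs

/-! Half-turn case: basic facts. -/

set_option autoImplicit false

open Set Filter Topology

namespace Pool.Agent.Lib.MP_5e7226_co.HT

variable {B : Set E} {f h : E → ℝ}

theorem HF.flip (H : HF B f h) : HF B h f where
  conv := H.conv
  cpt := H.cpt
  int0 := H.int0
  sym := H.sym
  fconc := H.hconc
  hconc := H.fconc
  feven := H.heven
  heven := H.feven
  fusc := H.husc
  husc := H.fusc
  nonneg := fun x hx => by rw [add_comm]; exact H.nonneg x hx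
  pos0 := by rw [add_comm]; exact H.pos0

theorem HF.closed (H : HF B f h) : IsClosed B := H.cpt.isClosed

theorem HF.zero_mem (H : HF B f h) : (0 : E) ∈ B := interior_subset H.int0

theorem HF.neg_image (H : HF B f h) : -B = B := by
  ext x
  rw [Set.mem_neg]
  constructor
  · intro hx
    simpa using H.sym _ hx
  · intro hx
    exact H.sym _ hx

theorem HF.neg_int (H : HF B f h) {x : E} (hx : x ∈ interior B) : -x ∈ interior B := by
  have h1 : interior (-B) = -interior B := by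
    have := (Homeomorph.neg E).preimage_interior B
    simpa using this.symm
  rw [← H.neg_image, h1, Set.mem_neg, neg_neg]
  exact hx

theorem HF.neg_bd (H : HF B f h) {x : E} (hx : x ∈ bd B) : -x ∈ bd B := by
  refine ⟨H.sym _ hx.1, fun hn => hx.2 ?_⟩
  simpa using H.neg_int hn

theorem HF.smul_mem (H : HF B f h) {x : E} (hx : x ∈ B) {c : ℝ} (hc : |c| ≤ 1) : c • x ∈ B := by
  obtain ⟨h1, h2⟩ := abs_le.mp hc
  have := H.conv hx (H.sym x hx) (a := (1 + c) / 2) (b := (1 - c) / 2) (by linarith) (by linarith)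
    (by ring)
  have he : ((1 + c) / 2) • x + ((1 - c) / 2) • (-x) = c • x := by
    rw [smul_neg, ← sub_eq_add_neg, ← sub_smul]
    congr 1
    ring
  rwa [he] at this

/-- moving from any point of `B` towards an interior point (but not to the start) gives an interior
point -/
theorem HF.seg_int (H : HF B f h) {x y : E} (hx : x ∈ interior B) (hy : y ∈ B) {t : ℝ}
    (ht0 : 0 < t) (ht1 : t ≤ 1) : (1 - t) • y + t • x ∈ interior B := by
  have := H.conv.combo_interior_self_mem_interior hx hy ht0 (b := 1 - t) (by linarith) (by ring)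
  rwa [add_comm]

theorem HF.smul_int (H : HF B f h) {x : E} (hx : x ∈ B) {c : ℝ} (hc : |c| < 1) :
    c • x ∈ interior B := by
  rcases le_or_gt 0 c with h0 | h0
  · rw [abs_of_nonneg h0] at hc
    have := H.seg_int H.int0 hx (t := 1 - c) (by linarith) (by linarith)
    simpa using this
  · rw [abs_of_neg h0] at hc
    have := H.seg_int H.int0 (H.sym x hx) (t := 1 + c) (by linarith) (by linarith)
    simpa using this

/-- beyond a boundary point there is nothing -/
theorem HF.abs_le_of_mem (H : HF B f h) {x : E} (hx : x ∈ bd B) {c : ℝ} (hc : c • x ∈ B) :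
    |c| ≤ 1 := by
  by_contra hcon
  push Not at hcon
  have hc0 : c ≠ 0 := by
    rintro rfl
    simp at hcon
    linarith
  have h1 : |c⁻¹| < 1 := by
    rw [abs_inv]
    exact inv_lt_one_of_one_lt₀ hcon
  have := H.smul_int hc h1
  rw [smul_smul, inv_mul_cancel₀ hc0, one_smul] at this
  exact hx.2 this

theorem HF.le_zero (H : HF B f h) {x : E} (hx : x ∈ B) : f x ≤ f 0 := by
  have := H.fconc.2 hx (H.sym x hx) (show (0 : ℝ) ≤ 1 / 2 by norm_num)
    (show (0 : ℝ) ≤ 1 / 2 by norm_num) (by norm_num)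
  rw [H.feven x hx] at this
  have he : (1 / 2 : ℝ) • x + (1 / 2 : ℝ) • (-x) = 0 := by simp
  rw [he] at this
  simp only [smul_eq_mul] at this
  linarith

theorem HF.ray (H : HF B f h) {x : E} (hx : x ∈ B) {c : ℝ} (hc : |c| ≤ 1) :
    |c| * f x + (1 - |c|) * f 0 ≤ f (c • x) := by
  have key : ∀ y ∈ B, |c| * f y + (1 - |c|) * f 0 ≤ f (|c| • y) := by
    intro y hy
    have := H.fconc.2 hy H.zero_mem (abs_nonneg c) (show 0 ≤ 1 - |c| by linarith)
      (by ring)
    simpa using this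
  rcases le_or_gt 0 c with h0 | h0
  · have := key x hx
    rwa [abs_of_nonneg h0] at this ⊢
  · have := key (-x) (H.sym x hx)
    rw [H.feven x hx, abs_of_neg h0] at this
    rw [abs_of_neg h0]
    simpa using this

theorem HF.pos_int (H : HF B f h) {x : E} (hx : x ∈ interior B) : 0 < f x + h x := by
  -- go a bit beyond x
  have hc : ContinuousAt (fun s : ℝ => (1 + s) • x) 0 := by fun_prop
  have hmem : ∀ᶠ s : ℝ in 𝓝 0, (1 + s) • x ∈ interior B := by
    apply hc
    simpa using isOpen_interior.mem_nhds hx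
  obtain ⟨r, hr, hball⟩ := Metric.eventually_nhds_iff.mp hmem
  have hs := hball (y := r / 2) (by rw [Real.dist_eq, sub_zero, abs_of_pos (by linarith)]; linarith)
  set y := (1 + r / 2) • x with hy
  have hyB : y ∈ B := interior_subset hs
  have hx' : x = (1 + r / 2)⁻¹ • y := by
    rw [hy, smul_smul, inv_mul_cancel₀ (by positivity), one_smul]
  have hc1 : |(1 + r / 2)⁻¹| < 1 := by
    rw [abs_of_pos (by positivity)]
    exact inv_lt_one_of_one_lt₀ (by linarith)
  have h1 := H.ray hyB hc1.le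
  have h2 := H.flip.ray hyB hc1.le
  rw [← hx'] at h1 h2
  have h3 := H.nonneg y hyB
  have h4 := H.pos0
  have h5 : 0 ≤ |(1 + r / 2)⁻¹| := abs_nonneg _
  nlinarith [mul_nonneg h5 h3, mul_pos (sub_pos.mpr hc1) h4]

/-- a rim point is a boundary point -/
theorem HF.rim_bd (H : HF B f h) {x : E} (hx : x ∈ B) (hr : f x + h x = 0) : x ∈ bd B :=
  ⟨hx, fun hi => by have := H.pos_int hi; linarith⟩

theorem HF.in_of_int (_H : HF B f h) {x : E} (hx : x ∈ interior B) (v : E) : IN B x v := by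
  have hc : ContinuousAt (fun s : ℝ => x + s • v) 0 := by fun_prop
  have hmem : ∀ᶠ s : ℝ in 𝓝 0, x + s • v ∈ interior B := by
    apply hc
    simpa using isOpen_interior.mem_nhds hx
  obtain ⟨r, hr, hball⟩ := Metric.eventually_nhds_iff.mp hmem
  exact ⟨r / 2, by positivity,
    hball (by rw [Real.dist_eq, sub_zero, abs_of_pos (by linarith)]; linarith)⟩

theorem HF.bd_closed (H : HF B f h) : IsClosed (bd B) := H.closed.sdiff isOpen_interior

theorem HF.bd_compact (H : HF B f h) : IsCompact (bd B) :=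
  H.cpt.of_isClosed_subset H.bd_closed sdiff_subset

theorem HF.ne_zero_of_bd (H : HF B f h) {x : E} (hx : x ∈ bd B) : x ≠ 0 := by
  rintro rfl
  exact hx.2 H.int0

/-- `B` is the union of the segments from `0` to boundary points -/
theorem HF.exists_bd_ne (H : HF B f h) {x : E} (hx : x ∈ B) (hx0 : x ≠ 0) :
    ∃ y ∈ bd B, ∃ c : ℝ, 0 ≤ c ∧ c ≤ 1 ∧ x = c • y := by
  -- the set of s ≥ 0 with s • x ∈ B is compact
  have hcl : IsClosed {s : ℝ | s • x ∈ B} :=
    H.closed.preimage (f := fun s : ℝ => s • x) (by fun_prop)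
  obtain ⟨R, hR⟩ := H.cpt.isBounded.exists_norm_le
  have hxn : 0 < ‖x‖ := norm_pos_iff.mpr hx0
  have hbdd : BddAbove {s : ℝ | s • x ∈ B} := by
    refine ⟨R / ‖x‖, ?_⟩
    intro s hs
    have := hR _ hs
    rw [norm_smul, Real.norm_eq_abs] at this
    rw [le_div_iff₀ hxn]
    exact le_trans (mul_le_mul_of_nonneg_right (le_abs_self s) hxn.le) this
  have hne : ({s : ℝ | s • x ∈ B}).Nonempty := ⟨1, by simpa using hx⟩
  set S := sSup {s : ℝ | s • x ∈ B} with hS
  have hSmem : S • x ∈ B := hcl.csSup_mem hne hbdd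
  have hS1 : 1 ≤ S := le_csSup hbdd (by simpa using hx)
  refine ⟨S • x, ⟨hSmem, ?_⟩, S⁻¹, by positivity, inv_le_one_of_one_le₀ hS1, ?_⟩
  · intro hint
    have hc : ContinuousAt (fun s : ℝ => s • x) S := by fun_prop
    have hmem : ∀ᶠ s : ℝ in 𝓝 S, s • x ∈ interior B := by
      apply hc
      exact isOpen_interior.mem_nhds hint
    obtain ⟨r, hr, hball⟩ := Metric.eventually_nhds_iff.mp hmem
    have := hball (y := S + r / 2) (by
      rw [Real.dist_eq, add_sub_cancel_left, abs_of_pos (by linarith)]; linarith)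
    have h3 : (S + r / 2) • x ∈ B := interior_subset this
    have h2 : S + r / 2 ≤ S := le_csSup hbdd h3
    linarith
  · rw [smul_smul, inv_mul_cancel₀ (by linarith), one_smul]

theorem HF.bd_nonempty (H : HF B f h) : ∃ y : E, y ∈ bd B := by
  obtain ⟨x, hx, hx0⟩ : ∃ x ∈ B, x ≠ (0 : E) := by
    have hc : ContinuousAt (fun s : ℝ => s • ((1, 0) : E)) 0 := by fun_prop
    have hmem : ∀ᶠ s : ℝ in 𝓝 0, s • ((1, 0) : E) ∈ interior B := by
      apply hc
      simpa using isOpen_interior.mem_nhds H.int0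
    obtain ⟨r, hr, hball⟩ := Metric.eventually_nhds_iff.mp hmem
    refine ⟨(r / 2) • ((1, 0) : E), interior_subset (hball
      (by rw [Real.dist_eq, sub_zero, abs_of_pos (by linarith)]; linarith)), ?_⟩
    intro h0
    have := congrArg Prod.fst h0
    simp at this
    linarith
  obtain ⟨y, hy, -⟩ := H.exists_bd_ne hx hx0
  exact ⟨y, hy⟩

theorem HF.exists_bd (H : HF B f h) {x : E} (hx : x ∈ B) :
    ∃ y ∈ bd B, ∃ c : ℝ, 0 ≤ c ∧ c ≤ 1 ∧ x = c • y := by
  by_cases hx0 : x = 0
  · obtain ⟨y, hy⟩ := H.bd_nonempty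
    exact ⟨y, hy, 0, le_rfl, zero_le_one, by simp [hx0]⟩
  · exact H.exists_bd_ne hx hx0

/-- a lower bound on the boundary is a lower bound -/
theorem HF.ge_of_bd (H : HF B f h) {M : ℝ} (hM : ∀ x ∈ bd B, M ≤ f x) : ∀ x ∈ B, M ≤ f x := by
  intro x hx
  obtain ⟨y, hy, c, h0, h1, rfl⟩ := H.exists_bd hx
  have h2 := H.ray hy.1 (c := c) (by rwa [abs_of_nonneg h0])
  rw [abs_of_nonneg h0] at h2
  have h3 := hM y hy
  have h4 := H.le_zero hy.1
  nlinarith

theorem HF.exists_max (H : HF B f h) : ∃ p ∈ bd B, ∀ x ∈ bd B, f x ≤ f p := by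
  have := (H.fusc.mono (show bd B ⊆ B from sdiff_subset)).exists_isMaxOn H.bd_nonempty H.bd_compact
  obtain ⟨p, hp, hmax⟩ := this
  exact ⟨p, hp, fun x hx => hmax hx⟩

/-- attained strict bound: on a closed part of `B` where `f < M`, `f ≤ M - δ` -/
theorem HF.exists_gap (H : HF B f h) {R : Set E} (hR : IsClosed R) {M : ℝ}
    (hlt : ∀ x ∈ B, x ∈ R → f x < M) : ∃ δ : ℝ, 0 < δ ∧ ∀ x ∈ B, x ∈ R → f x ≤ M - δ := by
  by_cases hne : (B ∩ R).Nonempty
  · obtain ⟨p, hp, hmax⟩ := (H.fusc.mono (show B ∩ R ⊆ B from inter_subset_left)).exists_isMaxOn hne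
      (H.cpt.inter_right hR)
    refine ⟨M - f p, by linarith [hlt p hp.1 hp.2], ?_⟩
    intro x hx hxR
    have := hmax ⟨hx, hxR⟩
    simp only [Set.mem_ofPred_eq] at this
    linarith
  · refine ⟨1, one_pos, ?_⟩
    intro x hx hxR
    exact absurd ⟨x, hx, hxR⟩ hne

/-- supporting functional at a boundary point -/
theorem HF.exists_support (H : HF B f h) {y : E} (hy : y ∈ bd B) :
    ∃ l : E →ₗ[ℝ] ℝ, l y = 1 ∧ ∀ x ∈ B, l x ≤ 1 := by
  obtain ⟨g, hg⟩ := geometric_hahn_banach_open_point H.conv.interior isOpen_interior hy.2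
  have h0 : 0 < g y := by simpa using hg 0 H.int0
  have hle : ∀ x ∈ B, g x ≤ g y := by
    intro x hx
    -- x is a limit of interior points t • x
    have hlim : Tendsto (fun t : ℝ => g (t • x)) (𝓝[<] 1) (𝓝 (g ((1 : ℝ) • x))) := by
      apply Tendsto.mono_left _ nhdsWithin_le_nhds
      have : ContinuousAt (fun t : ℝ => g (t • x)) 1 := by fun_prop
      exact this
    rw [one_smul] at hlim
    refine le_of_tendsto hlim ?_
    have hev : ∀ᶠ t : ℝ in 𝓝[<] 1, 0 < t :=
      (eventually_gt_nhds (show (0 : ℝ) < 1 by norm_num)).filter_mono nhdsWithin_le_nhds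
    filter_upwards [self_mem_nhdsWithin, hev] with t ht ht0
    exact (hg _ (H.smul_int hx (by rw [abs_of_pos ht0]; exact ht))).le
  refine ⟨(g y)⁻¹ • (g : E →ₗ[ℝ] ℝ), ?_, ?_⟩
  · simp [h0.ne']
  · intro x hx
    have := hle x hx
    simp only [LinearMap.smul_apply, ContinuousLinearMap.coe_coe, smul_eq_mul]
    rw [inv_mul_le_iff₀ h0]
    simpa using this

/-- absolute bound -/
theorem HF.exists_bound (H : HF B f h) : ∃ R : ℝ, 0 < R ∧ ∀ x ∈ B, |x.1| ≤ R ∧ |x.2| ≤ R := by
  obtain ⟨R, hR⟩ := H.cpt.isBounded.exists_norm_le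
  refine ⟨max R 1, lt_max_of_lt_right one_pos, ?_⟩
  intro x hx
  have h1 := hR x hx
  have h2 : ‖x.1‖ ≤ ‖x‖ := norm_fst_le x
  have h3 : ‖x.2‖ ≤ ‖x‖ := norm_snd_le x
  rw [Real.norm_eq_abs] at h2 h3
  exact ⟨le_trans h2 (le_trans h1 (le_max_left _ _)), le_trans h3 (le_trans h1 (le_max_left _ _))⟩

theorem IN.neg (H : HF B f h) {x v : E} (hh : IN B x v) : IN B (-x) (-v) := by
  obtain ⟨t, ht, hi⟩ := hh
  refine ⟨t, ht, ?_⟩
  have := H.neg_int hi
  convert this using 1
  simp only [smul_neg, neg_add]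

theorem UP.neg (H : HF B f h) {x v : E} {w : ℝ} (hx : x ∈ B) (hh : UP B f x v w) :
    UP B f (-x) (-v) w := by
  obtain ⟨t, ht, hi, hlt⟩ := hh
  have he : -x + t • -v = -(x + t • v) := by simp only [smul_neg, neg_add]
  refine ⟨t, ht, ?_, ?_⟩
  · rw [he]; exact H.sym _ hi
  · rw [he, H.feven _ hi, H.feven _ hx]
    exact hlt

theorem Full.neg (H : HF B f h) {x v : E} {w : ℝ} (hx : x ∈ B) (hh : Full B f h x v w) :
    Full B f h (-x) (-v) w :=
  ⟨hh.1.neg H, hh.2.1.neg H hx, hh.2.2.neg H.flip hx⟩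

theorem Full.flip {x v : E} {w : ℝ} (hh : Full B f h x v w) : Full B h f x v (-w) :=
  ⟨hh.1, hh.2.2, by rw [neg_neg]; exact hh.2.1⟩

/-- being `UP` with a larger slope is stronger -/
theorem UP.mono {x v : E} {w w' : ℝ} (hh : UP B f x v w) (hw : w' ≤ w) : UP B f x v w' := by
  obtain ⟨t, ht, hi, hlt⟩ := hh
  refine ⟨t, ht, hi, lt_of_le_of_lt ?_ hlt⟩
  have := mul_le_mul_of_nonneg_left hw ht.le
  linarith

end Pool.Agent.Lib.MP_5e7226_co.HT
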