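import Pool.Agent.Lib.MP_5e7226_co.HT.Polar

/-!
# Coordinates for a half-turn, and the passage from illumination to separation
-/

set_option autoImplicit false

open Set Filter Topology

namespace Pool.Agent.Lib.MP_5e7226_co

section

variable {V : Type*} [NormedAddCommGroup V] [NormedSpace ℝ V]

/-- A linear involution of a three-dimensional space with positive determinant, different from the
identity, is a half-turn in suitable coordinates. -/
theorem exists_coords_halfturn [FiniteDimensional ℝ V] (hdim : Module.finrank ℝ V = 3)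
    {A : V →ₗ[ℝ] V} (hA2 : ∀ x, A (A x) = x) (hdet : 0 < LinearMap.det A) (hA1 : ∃ x, A x ≠ x) :
    ∃ Φ : ((ℝ × ℝ) × ℝ) ≃ₗ[ℝ] V, ∀ y : (ℝ × ℝ) × ℝ, Φ (-y.1, y.2) = A (Φ y) := by
  set U : Submodule ℝ V := LinearMap.ker (A + LinearMap.id) with hU
  set W : Submodule ℝ V := LinearMap.ker (A - LinearMap.id) with hW
  have hUm : ∀ x : V, x ∈ U ↔ A x = -x := by
    intro x
    rw [hU, LinearMap.mem_ker, LinearMap.add_apply, LinearMap.id_apply, add_eq_zero_iff_eq_neg]
  have hWm : ∀ x : V, x ∈ W ↔ A x = x := by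
    intro x
    rw [hW, LinearMap.mem_ker, LinearMap.sub_apply, LinearMap.id_apply, sub_eq_zero]
  have hcompl : IsCompl U W := by
    constructor
    · rw [Submodule.disjoint_def]
      intro x h1 h2
      rw [hUm] at h1
      rw [hWm] at h2
      rw [h1] at h2
      have h3 : (2 : ℝ) • x = 0 := by
        rw [two_smul]
        nth_rewrite 1 [← h2]
        abel
      rcases smul_eq_zero.mp h3 with h | h
      · norm_num at h
      · exact h
    · rw [codisjoint_iff, Submodule.eq_top_iff']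
      intro x
      rw [Submodule.mem_sup]
      refine ⟨(1 / 2 : ℝ) • (x - A x), ?_, (1 / 2 : ℝ) • (x + A x), ?_, ?_⟩
      · rw [hUm, map_smul, map_sub, hA2, ← smul_neg, neg_sub]
      · rw [hWm, map_smul, map_add, hA2, add_comm]
      · rw [← smul_add]
        have : x - A x + (x + A x) = (2 : ℝ) • x := by rw [two_smul]; abel
        rw [this, smul_smul]; norm_num
  let e := Submodule.prodEquivOfIsCompl U W hcompl
  have he : ∀ y : U × W, e y = (y.1 : V) + (y.2 : V) := fun y => by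
    simp [e]
  have hconj : A = (e : (U × W) →ₗ[ℝ] V) ∘ₗ
      (LinearMap.prodMap (-LinearMap.id : U →ₗ[ℝ] U) (LinearMap.id : W →ₗ[ℝ] W)) ∘ₗ
        (e.symm : V →ₗ[ℝ] U × W) := by
    ext x
    obtain ⟨y, rfl⟩ := e.surjective x
    simp only [LinearMap.comp_apply, LinearEquiv.coe_coe, e.symm_apply_apply]
    rw [he, he, map_add]
    simp only [LinearMap.prodMap_apply, LinearMap.neg_apply, LinearMap.id_apply]
    rw [(hUm _).mp y.1.2, (hWm _).mp y.2.2]
    simp
  have hd : LinearMap.det A = (-1) ^ Module.finrank ℝ U := by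
    rw [hconj]
    have h1 := LinearMap.det_conj
      (LinearMap.prodMap (-LinearMap.id : U →ₗ[ℝ] U) (LinearMap.id : W →ₗ[ℝ] W)) e
    rw [h1, LinearMap.det_prodMap, LinearMap.det_id, mul_one]
    have h2 : (-LinearMap.id : U →ₗ[ℝ] U) = (-1 : ℝ) • LinearMap.id := by
      ext x; simp
    rw [h2, LinearMap.det_smul, LinearMap.det_id, mul_one]
  have hsum : Module.finrank ℝ U + Module.finrank ℝ W = 3 := by
    rw [← hdim]; exact Submodule.finrank_add_eq_of_isCompl hcompl
  have hU0 : Module.finrank ℝ U ≠ 0 := by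
    intro h0
    obtain ⟨x, hx⟩ := hA1
    apply hx
    have hbot : U = ⊥ := Submodule.finrank_eq_zero.mp h0
    have : x - A x ∈ U := by rw [hUm, map_sub, hA2, neg_sub]
    rw [hbot, Submodule.mem_bot, sub_eq_zero] at this
    exact this.symm
  have hU2 : Module.finrank ℝ U = 2 := by
    rw [hd] at hdet
    have hle : Module.finrank ℝ U ≤ 3 := by omega
    interval_cases h : Module.finrank ℝ U
    · exact absurd rfl hU0
    · norm_num at hdet
    · rfl
    · norm_num at hdet
  have hW1 : Module.finrank ℝ W = 1 := by omega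
  let e1 : (ℝ × ℝ) ≃ₗ[ℝ] U := LinearEquiv.ofFinrankEq _ _ (by rw [hU2]; simp)
  let e2 : ℝ ≃ₗ[ℝ] W := LinearEquiv.ofFinrankEq _ _ (by rw [hW1]; simp)
  refine ⟨(e1.prodCongr e2).trans e, ?_⟩
  intro y
  simp only [LinearEquiv.trans_apply, LinearEquiv.prodCongr_apply]
  rw [he, he, map_add]
  simp only [map_neg]
  rw [(hUm _).mp (e1 y.1).2, (hWm _).mp (e2 y.2).2]
  simp

end

/-- the dual space of `(ℝ × ℝ) × ℝ` in coordinates -/
noncomputable def dualCoords : (((ℝ × ℝ) × ℝ) →L[ℝ] ℝ) ≃L[ℝ] ((ℝ × ℝ) × ℝ) :=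
  LinearEquiv.toContinuousLinearEquiv
    { toFun := fun f => ((f ((1, 0), 0), f ((0, 1), 0)), f ((0, 0), 1))
      map_add' := fun f g => by simp
      map_smul' := fun c f => by simp
      invFun := fun a =>
        a.1.1 • ((ContinuousLinearMap.fst ℝ ℝ ℝ).comp (ContinuousLinearMap.fst ℝ (ℝ × ℝ) ℝ)) +
        a.1.2 • ((ContinuousLinearMap.snd ℝ ℝ ℝ).comp (ContinuousLinearMap.fst ℝ (ℝ × ℝ) ℝ)) +
        a.2 • (ContinuousLinearMap.snd ℝ (ℝ × ℝ) ℝ)
      left_inv := fun f => by
        ext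
        · simp
        · simp
        · simp only [ContinuousLinearMap.add_comp, ContinuousLinearMap.smul_comp]
          simp
          rfl
      right_inv := fun a => by
        simp }

lemma dualCoords_apply (f : ((ℝ × ℝ) × ℝ) →L[ℝ] ℝ) :
    dualCoords f = ((f ((1, 0), 0), f ((0, 1), 0)), f ((0, 0), 1)) := rfl

/-- the statement on half-turn symmetric bodies, in illumination form -/
def HalfTurnIllum (N : ℕ) : Prop :=
  ∀ L : Set ((ℝ × ℝ) × ℝ), Convex ℝ L → IsCompact L → (interior L).Nonempty →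
    (∀ (x : ℝ × ℝ) (z : ℝ), (x, z) ∈ L → (-x, z) ∈ L) → Illum L N

theorem sep_halfturn_coords {N : ℕ} (H : HalfTurnIllum N) {K : Set ((ℝ × ℝ) × ℝ)}
    (hK : IsCompact K) (h0 : (0 : (ℝ × ℝ) × ℝ) ∈ interior K)
    (hsymm : ∀ (x : ℝ × ℝ) (z : ℝ), (x, z) ∈ K → (-x, z) ∈ K) : Sep K N := by
  apply Sep.of_illum_polar hK h0
  apply Illum.of_image dualCoords
  apply H
  · exact (polarBody_convex K).linear_image dualCoords.toLinearMap
  · apply IsCompact.image _ dualCoords.continuous
    exact Metric.isCompact_of_isClosed_isBounded (polarBody_closed K) (polarBody_bounded h0)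
  · have h := dualCoords.toHomeomorph.isOpenMap.image_interior_subset (polarBody K)
    exact ⟨_, h ⟨0, polarBody_zero_mem_interior hK, rfl⟩⟩
  · rintro x z ⟨f, hf, hfx⟩
    rw [dualCoords_apply] at hfx
    obtain ⟨h1, h2⟩ := Prod.mk.inj hfx
    refine ⟨f.comp ((-(ContinuousLinearMap.fst ℝ (ℝ × ℝ) ℝ)).prod
      (ContinuousLinearMap.snd ℝ (ℝ × ℝ) ℝ)), ?_, ?_⟩
    · intro y hy
      have := hf (-y.1, y.2) (hsymm y.1 y.2 hy)
      simpa using this
    · rw [dualCoords_apply]
      have e1 : f ((-1, 0), 0) = -f ((1, 0), 0) := by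
        rw [← map_neg]; congr 1; simp
      have e2 : f ((0, -1), 0) = -f ((0, 1), 0) := by
        rw [← map_neg]; congr 1; simp
      rw [← h1, ← h2]
      simp [e1, e2]

theorem sep_of_involution {V : Type*} [NormedAddCommGroup V] [NormedSpace ℝ V]
    [FiniteDimensional ℝ V] {N : ℕ} (H : HalfTurnIllum N) (hdim : Module.finrank ℝ V = 3)
    {K : Set V} (hK : IsCompact K) (h0 : (0 : V) ∈ interior K) {A : V →ₗ[ℝ] V}
    (hA : A '' K = K) (hdet : 0 < LinearMap.det A) (hA2 : ∀ x, A (A x) = x)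
    (hA1 : ∃ x, A x ≠ x) : Sep K N := by
  obtain ⟨Φ, hΦ⟩ := exists_coords_halfturn hdim hA2 hdet hA1
  let Ψ := Φ.symm.toContinuousLinearEquiv
  have hΨ : ∀ x, Ψ x = Φ.symm x := fun x => rfl
  have h1 : Sep (Ψ '' K) N := by
    apply sep_halfturn_coords H (hK.image Ψ.continuous)
    · have h := Ψ.toHomeomorph.isOpenMap.image_interior_subset K
      apply h
      exact ⟨0, h0, by simp⟩
    · rintro x z ⟨y, hy, hyx⟩
      have hAy : A y ∈ K := by rw [← hA]; exact ⟨y, hy, rfl⟩
      refine ⟨A y, hAy, ?_⟩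
      rw [hΨ] at hyx ⊢
      have h2 := hΦ (x, z)
      rw [← hyx, Φ.apply_symm_apply] at h2
      rw [← h2, Φ.symm_apply_apply, hyx]
  have h2 := h1.image Ψ.symm
  have h3 : Ψ.symm '' (Ψ '' K) = K := by
    rw [← image_comp]
    simp
  rwa [h3] at h2

end Pool.Agent.Lib.MP_5e7226_co
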