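import Mathlib

/-! Half-turn case in dimension three: definitions.

A convex body `L ⊆ E × ℝ` (`E = ℝ × ℝ`) which is invariant under `(x, z) ↦ (-x, z)` is described by
its shadow `B ⊆ E`, its top `f` and the negative `h` of its bottom (so the fibre of `L` over `x ∈ B`
is `[-h x, f x]`; both `f` and `h` are concave and even). -/

set_option autoImplicit false

namespace Pool.Agent.Lib.MP_5e7226_co.HT

abbrev E := ℝ × ℝ

/-- The boundary of a compact set. -/
def bd (B : Set E) : Set E := B \ interior B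

/-- The shadow `B`, the top `f` and minus the bottom `h` of a symmetric convex body. -/
structure HF (B : Set E) (f h : E → ℝ) : Prop where
  conv : Convex ℝ B
  cpt : IsCompact B
  int0 : (0 : E) ∈ interior B
  sym : ∀ x ∈ B, -x ∈ B
  fconc : ConcaveOn ℝ B f
  hconc : ConcaveOn ℝ B h
  feven : ∀ x ∈ B, f (-x) = f x
  heven : ∀ x ∈ B, h (-x) = h x
  fusc : UpperSemicontinuousOn f B
  husc : UpperSemicontinuousOn h B
  nonneg : ∀ x ∈ B, 0 ≤ f x + h x
  pos0 : 0 < f 0 + h 0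

/-- From `x` one gets into the interior of `B` in direction `v`. -/
def IN (B : Set E) (x v : E) : Prop := ∃ t : ℝ, 0 < t ∧ x + t • v ∈ interior B

/-- The direction `(v, w)` points below the top `f` at `x`. -/
def UP (B : Set E) (f : E → ℝ) (x v : E) (w : ℝ) : Prop :=
  ∃ t : ℝ, 0 < t ∧ x + t • v ∈ B ∧ f x + t * w < f (x + t • v)

/-- The direction `(v, w)` illuminates the whole fibre over `x`. -/
def Full (B : Set E) (f h : E → ℝ) (x v : E) (w : ℝ) : Prop :=
  IN B x v ∧ UP B f x v w ∧ UP B h x v (-w)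

/-- The directions in `D` illuminate the whole fibre over `x`. -/
def Cov (B : Set E) (f h : E → ℝ) (D : List (E × ℝ)) (x : E) : Prop :=
  (∃ d ∈ D, Full B f h x d.1 d.2) ∨
    (0 < f x + h x ∧ (∃ d ∈ D, IN B x d.1 ∧ UP B f x d.1 d.2) ∧
      (∃ d ∈ D, IN B x d.1 ∧ UP B h x d.1 (-d.2)))

/-- Eight directions suffice. -/
def Good (B : Set E) (f h : E → ℝ) : Prop :=
  ∃ D : List (E × ℝ), D.length ≤ 8 ∧ ∀ x ∈ B, Cov B f h D x

/-- `y` is a corner: `ℓ ≤ 1` on `B`, and `y` is the only point of `B` at which first `ℓ` and then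
`k` is maximal; `u, v` is the basis dual to `ℓ, k`. -/
structure Corner (B : Set E) (y : E) (l k : E →ₗ[ℝ] ℝ) (u v : E) : Prop where
  mem : y ∈ B
  le : ∀ x ∈ B, l x ≤ 1
  ly : l y = 1
  lt : ∀ x ∈ B, l x = 1 → x ≠ y → k x < k y
  lu : l u = 1
  lv : l v = 0
  ku : k u = 0
  kv : k v = 1
  dec : ∀ x : E, l x • u + k x • v = x

/-- Normalised position: `p = (1, 0)` maximises `f` on the boundary, `q = (0, 1)` maximises `h`. -/
structure Set1 (B : Set E) (f h : E → ℝ) : Prop extends HF B f h where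
  pbd : ((1, 0) : E) ∈ bd B
  qbd : ((0, 1) : E) ∈ bd B
  fmax : ∀ x ∈ bd B, f x ≤ f (1, 0)
  hmax : ∀ x ∈ bd B, h x ≤ h (0, 1)
  MN : 0 < f (1, 0) + h (0, 1)
  nd : ∀ x ∈ B, x.1 ≠ 0 → x.2 ≠ 0 → |x.1| < 1 + |x.2| ∧ |x.2| < 1 + |x.1|

/-- The four horizontal diagonal directions. -/
def MIDS : List (E × ℝ) := [((1, 1), 0), ((-1, -1), 0), ((1, -1), 0), ((-1, 1), 0)]

/-- The pair of directions `(±u, -W)` illuminates everything relevant on the level set
`f ≥ f p`. -/
def UG (B : Set E) (f h : E → ℝ) (p : E) : Prop :=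
  ∃ u : E, ∃ W : ℝ, 0 < W ∧ ∀ x ∈ B, f p ≤ f x →
    (x ∈ interior B ∨ f 0 = f p ∨ x = p ∨ x = -p) →
      ∃ v : E, (v = u ∨ v = -u) ∧ IN B x v ∧ UP B f x v (-W) ∧ (f x + h x = 0 → UP B h x v W)

end Pool.Agent.Lib.MP_5e7226_co.HT
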