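import Pool.Agent.Lib.MP_5e7226_co.HT.Base
set_option autoImplicit false

open Set Filter Topology

namespace Pool.Agent.Lib.MP_5e7226_co.HT

variable {B : Set E} {f h : E → ℝ}

theorem T_cont (T : E ≃ₗ[ℝ] E) : Continuous T := T.toLinearMap.continuous_of_finiteDimensional

theorem T_interior (T : E ≃ₗ[ℝ] E) (B : Set E) : interior (T '' B) = T '' interior B := by
  have := (T.toContinuousLinearEquiv).toHomeomorph.image_interior B
  exact this.symm

theorem bd_image (T : E ≃ₗ[ℝ] E) (B : Set E) : bd (T '' B) = T '' bd B := by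
  rw [bd, bd, T_interior, Set.image_sdiff T.injective]

theorem mem_image_T (T : E ≃ₗ[ℝ] E) {B : Set E} {x : E} : T x ∈ T '' B ↔ x ∈ B :=
  T.injective.mem_set_image

theorem conc_trans {g : E → ℝ} (T : E ≃ₗ[ℝ] E) (hg : ConcaveOn ℝ B g) :
    ConcaveOn ℝ (T '' B) (g ∘ T.symm) := by
  have h1 := hg.comp_linearMap (T.symm : E →ₗ[ℝ] E)
  have h2 : ((T.symm : E →ₗ[ℝ] E) : E → E) ⁻¹' B = T '' B := by
    ext x
    constructor
    · intro hx
      exact ⟨T.symm x, hx, T.apply_symm_apply x⟩
    · rintro ⟨y, hy, rfl⟩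
      simpa using hy
  rw [h2] at h1
  exact h1

theorem usc_trans {g : E → ℝ} (T : E ≃ₗ[ℝ] E) (hg : UpperSemicontinuousOn g B) :
    UpperSemicontinuousOn (g ∘ T.symm) (T '' B) := by
  intro x hx y hy
  obtain ⟨x', hx', rfl⟩ := hx
  simp only [Function.comp, LinearEquiv.symm_apply_apply] at hy
  have h1 := hg x' hx' y hy
  have h2 : Tendsto T.symm (𝓝[T '' B] (T x')) (𝓝[B] x') := by
    apply tendsto_nhdsWithin_of_tendsto_nhds_of_eventually_within
    · have h3 : Tendsto T.symm (𝓝 (T x')) (𝓝 (T.symm (T x'))) := (T_cont T.symm).tendsto _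
      rw [LinearEquiv.symm_apply_apply] at h3
      exact h3.mono_left nhdsWithin_le_nhds
    · filter_upwards [self_mem_nhdsWithin] with z hz
      obtain ⟨w, hw, rfl⟩ := hz
      simpa using hw
  exact h2.eventually h1

theorem HF.trans (H : HF B f h) (T : E ≃ₗ[ℝ] E) : HF (T '' B) (f ∘ T.symm) (h ∘ T.symm) where
  conv := by
    have := H.conv.linear_image (T : E →ₗ[ℝ] E)
    exact this
  cpt := H.cpt.image (T_cont T)
  int0 := by
    rw [T_interior]
    exact ⟨0, H.int0, map_zero T⟩
  sym := by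
    rintro x ⟨y, hy, rfl⟩
    exact ⟨-y, H.sym y hy, map_neg T y⟩
  fconc := conc_trans T H.fconc
  hconc := conc_trans T H.hconc
  feven := by
    rintro x ⟨y, hy, rfl⟩
    simp only [Function.comp, ← map_neg, LinearEquiv.symm_apply_apply]
    exact H.feven y hy
  heven := by
    rintro x ⟨y, hy, rfl⟩
    simp only [Function.comp, ← map_neg, LinearEquiv.symm_apply_apply]
    exact H.heven y hy
  fusc := usc_trans T H.fusc
  husc := usc_trans T H.husc
  nonneg := by
    rintro x ⟨y, hy, rfl⟩
    simp only [Function.comp, LinearEquiv.symm_apply_apply]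
    exact H.nonneg y hy
  pos0 := by
    simp only [Function.comp, map_zero]
    exact H.pos0

theorem IN.trans (T : E ≃ₗ[ℝ] E) {x v : E} : IN (T '' B) (T x) (T v) ↔ IN B x v := by
  unfold IN
  have : ∀ t : ℝ, T x + t • T v ∈ interior (T '' B) ↔ x + t • v ∈ interior B := by
    intro t
    rw [← map_smul, ← map_add, T_interior, mem_image_T]
  simp only [this]

theorem UP.trans (T : E ≃ₗ[ℝ] E) {x v : E} {w : ℝ} :
    UP (T '' B) (f ∘ T.symm) (T x) (T v) w ↔ UP B f x v w := by
  unfold UP
  have : ∀ t : ℝ, (T x + t • T v ∈ T '' B ∧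
      (f ∘ T.symm) (T x) + t * w < (f ∘ T.symm) (T x + t • T v)) ↔
      (x + t • v ∈ B ∧ f x + t * w < f (x + t • v)) := by
    intro t
    rw [← map_smul, ← map_add, mem_image_T]
    simp only [Function.comp, LinearEquiv.symm_apply_apply]
  simp only [this]

theorem UG.trans (T : E ≃ₗ[ℝ] E) {p : E} :
    UG (T '' B) (f ∘ T.symm) (h ∘ T.symm) (T p) ↔ UG B f h p := by
  constructor
  · rintro ⟨u, W, hW, hu⟩
    refine ⟨T.symm u, W, hW, ?_⟩
    intro x hx hfx hor
    obtain ⟨v, hv, h1, h2, h3⟩ := hu (T x) ((mem_image_T T).2 hx)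
      (by simpa only [Function.comp, LinearEquiv.symm_apply_apply] using hfx)
      (by
        rcases hor with h | h | h | h
        · left; rw [T_interior, mem_image_T]; exact h
        · right; left
          simpa only [Function.comp, LinearEquiv.symm_apply_apply, map_zero] using h
        · right; right; left; rw [h]
        · right; right; right; rw [h, map_neg])
    have e : v = T (T.symm v) := (T.apply_symm_apply v).symm
    rw [e] at h1 h2
    refine ⟨T.symm v, ?_, (IN.trans T).1 h1, (UP.trans T).1 h2, ?_⟩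
    · rcases hv with hv | hv
      · left; rw [hv]
      · right; rw [hv, map_neg]
    · intro h0
      have := h3 (by simpa only [Function.comp, LinearEquiv.symm_apply_apply] using h0)
      rw [e] at this
      exact (UP.trans T).1 this
  · rintro ⟨u, W, hW, hu⟩
    refine ⟨T u, W, hW, ?_⟩
    intro x' hx' hfx hor
    obtain ⟨x, hx, rfl⟩ := hx'
    simp only [Function.comp, LinearEquiv.symm_apply_apply, map_zero] at hfx hor
    obtain ⟨v, hv, h1, h2, h3⟩ := hu x hx hfx
      (by
        rcases hor with h | h | h | h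
        · left; rwa [T_interior, mem_image_T] at h
        · right; left; exact h
        · right; right; left; exact T.injective h
        · right; right; right
          rw [← map_neg] at h
          exact T.injective h)
    refine ⟨T v, ?_, (IN.trans T).2 h1, (UP.trans T).2 h2, ?_⟩
    · rcases hv with hv | hv
      · left; rw [hv]
      · right; rw [hv, map_neg]
    · intro h0
      simp only [Function.comp, LinearEquiv.symm_apply_apply] at h0
      exact (UP.trans T).2 (h3 h0)

theorem Good.trans (T : E ≃ₗ[ℝ] E) (hh : Good (T '' B) (f ∘ T.symm) (h ∘ T.symm)) :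
    Good B f h := by
  obtain ⟨D, hD, hcov⟩ := hh
  refine ⟨D.map (fun d => (T.symm d.1, d.2)), by rw [List.length_map]; exact hD, ?_⟩
  intro x hx
  have key : ∀ d : E × ℝ, (IN (T '' B) (T x) d.1 ↔ IN B x (T.symm d.1)) := by
    intro d
    have e : d.1 = T (T.symm d.1) := (T.apply_symm_apply d.1).symm
    conv_lhs => rw [e]
    exact IN.trans T
  have keyf : ∀ (g : E → ℝ) (d : E) (w : ℝ),
      (UP (T '' B) (g ∘ T.symm) (T x) d w ↔ UP B g x (T.symm d) w) := by
    intro g d w
    have e : d = T (T.symm d) := (T.apply_symm_apply d).symm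
    conv_lhs => rw [e]
    exact UP.trans T
  rcases hcov (T x) ((mem_image_T T).2 hx) with ⟨d, hd, h1, h2, h3⟩ | ⟨h0, ⟨d, hd, h1, h2⟩,
    ⟨d', hd', h1', h2'⟩⟩
  · left
    refine ⟨(T.symm d.1, d.2), List.mem_map.2 ⟨d, hd, rfl⟩, (key d).1 h1, (keyf f _ _).1 h2,
      (keyf h _ _).1 h3⟩
  · right
    simp only [Function.comp, LinearEquiv.symm_apply_apply] at h0
    exact ⟨h0, ⟨(T.symm d.1, d.2), List.mem_map.2 ⟨d, hd, rfl⟩, (key d).1 h1, (keyf f _ _).1 h2⟩,
      ⟨(T.symm d'.1, d'.2), List.mem_map.2 ⟨d', hd', rfl⟩, (key d').1 h1', (keyf h _ _).1 h2'⟩⟩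

theorem Corner.trans (T : E ≃ₗ[ℝ] E) {y u v : E} {l k : E →ₗ[ℝ] ℝ} (hc : Corner B y l k u v) :
    Corner (T '' B) (T y) (l ∘ₗ (T.symm : E →ₗ[ℝ] E)) (k ∘ₗ (T.symm : E →ₗ[ℝ] E)) (T u) (T v) where
  mem := ⟨y, hc.mem, rfl⟩
  le := by
    rintro x ⟨z, hz, rfl⟩
    simpa using hc.le z hz
  ly := by simpa using hc.ly
  lt := by
    rintro x ⟨z, hz, rfl⟩ hl hne
    have h1 : l z = 1 := by simpa using hl
    have h2 : z ≠ y := fun h => hne (by rw [h])
    simpa using hc.lt z hz h1 h2
  lu := by simpa using hc.lu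
  lv := by simpa using hc.lv
  ku := by simpa using hc.ku
  kv := by simpa using hc.kv
  dec := by
    intro x
    have h1 := congrArg T (hc.dec (T.symm x))
    simp only [map_add, map_smul, LinearEquiv.apply_symm_apply] at h1
    simpa using h1

end Pool.Agent.Lib.MP_5e7226_co.HT
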