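import Pool.Agent.Lib.MP_5e7226_co.HT.PT1b
import Pool.Agent.Lib.MP_5e7226_co.HT.PT1c
set_option autoImplicit false

open Set Filter Topology

namespace Pool.Agent.Lib.MP_5e7226_co.HT

variable {B : Set E} {f h : E → ℝ}

/-- an interior point at which `f` is below the maximum -/
theorem exists_int_lt (H : HF B f h) (hne : ∃ x ∈ B, f x < f 0) :
    ∃ x ∈ interior B, f x < f 0 := by
  obtain ⟨x, hx, hlt⟩ := hne
  have hu := H.fusc x hx (f 0) hlt
  have hmaps : Tendsto (fun c : ℝ => c • x) (𝓝[Iio 1] 1) (𝓝[B] x) := by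
    refine tendsto_nhdsWithin_of_tendsto_nhds_of_eventually_within _ ?_ ?_
    · have : Tendsto (fun c : ℝ => c • x) (𝓝 1) (𝓝 ((1 : ℝ) • x)) :=
        (continuous_id.smul continuous_const).tendsto 1
      rw [one_smul] at this
      exact this.mono_left nhdsWithin_le_nhds
    · have h1 : ∀ᶠ c : ℝ in 𝓝[Iio 1] 1, c < 1 := eventually_mem_nhdsWithin
      have h2 : ∀ᶠ c : ℝ in 𝓝[Iio 1] 1, (-1 : ℝ) < c :=
        nhdsWithin_le_nhds (lt_mem_nhds (by norm_num))
      filter_upwards [h1, h2] with c hc1 hc2
      exact H.smul_mem hx (abs_le.2 ⟨hc2.le, hc1.le⟩)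
  have h3 := hmaps.eventually hu
  have h1 : ∀ᶠ c : ℝ in 𝓝[Iio 1] 1, c < 1 := eventually_mem_nhdsWithin
  have h2 : ∀ᶠ c : ℝ in 𝓝[Iio 1] 1, (-1 : ℝ) < c :=
    nhdsWithin_le_nhds (lt_mem_nhds (by norm_num))
  obtain ⟨c, hc3, hc1, hc2⟩ := (h3.and (h1.and h2)).exists
  exact ⟨c • x, H.smul_int hx (abs_lt.2 ⟨hc2, hc1⟩), hc3⟩

/-- the normalised tangent lemma: `p = (1, 0)`, and `f < f 0` at the interior point `(0, 1)` -/
theorem tangent_aux (H : HF B f h) (hp : ((1, 0) : E) ∈ bd B) (ha : f (1, 0) = f 0)
    (hq : ((0, 1) : E) ∈ interior B) (hqf : f (0, 1) < f 0) : UG B f h (1, 0) := by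
  have hpB : ((1, 0) : E) ∈ B := hp.1
  have hqB : ((0, 1) : E) ∈ B := interior_subset hq
  have hmpB : ((-1, 0) : E) ∈ B := by simpa using H.sym _ hpB
  have hmpf : f (-1, 0) = f 0 := by
    have := H.feven _ hpB
    simpa [ha] using this
  have axis : ∀ e : ℝ, |e| ≤ 1 → ((0, e) : E) ∈ B := by
    intro e he
    have := H.smul_mem hqB he
    simpa using this
  -- the set of heights of axis points in `U`
  set K : Set ℝ := {t | t ∈ Icc (0 : ℝ) 1 ∧ f 0 ≤ f (0, t)} with hK
  have hKc : IsCompact K := by
    have hcl : IsClosed K := by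
      rw [← isSeqClosed_iff_isClosed]
      intro ts t hts htt
      have hIcc : t ∈ Icc (0 : ℝ) 1 :=
        isClosed_Icc.mem_of_tendsto htt (Eventually.of_forall fun n => (hts n).1)
      refine ⟨hIcc, ?_⟩
      by_contra hlt
      push Not at hlt
      have htB : ((0, t) : E) ∈ B := axis t (abs_le.2 ⟨by linarith [hIcc.1], hIcc.2⟩)
      have hu := H.fusc _ htB (f 0) hlt
      have htend : Tendsto (fun n => ((0, ts n) : E)) atTop (𝓝[B] (0, t)) := by
        refine tendsto_nhdsWithin_of_tendsto_nhds_of_eventually_within _ ?_ ?_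
        · exact (tendsto_const_nhds (x := (0 : ℝ))).prodMk_nhds htt
        · refine Eventually.of_forall fun n => axis _ ?_
          have := (hts n).1
          exact abs_le.2 ⟨by linarith [this.1], this.2⟩
      obtain ⟨n, hn⟩ := (htend.eventually hu).exists
      exact absurd (hts n).2 (not_le.2 hn)
    exact (isCompact_Icc (a := (0 : ℝ)) (b := 1)).of_isClosed_subset hcl (fun t ht => ht.1)
  have hK0 : (0 : ℝ) ∈ K := ⟨⟨le_refl 0, zero_le_one⟩, le_of_eq rfl⟩
  obtain ⟨c, hcK, hcmax⟩ := hKc.exists_isGreatest ⟨0, hK0⟩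
  have hc0 : 0 ≤ c := hcK.1.1
  have hc1 : c < 1 := by
    rcases lt_or_eq_of_le hcK.1.2 with hlt | heq
    · exact hlt
    · exfalso
      have := hcK.2
      rw [heq] at this
      linarith
  have axis_int : ∀ e : ℝ, |e| < 1 → ((0, e) : E) ∈ interior B := by
    intro e he
    have := H.smul_int hqB he
    simpa using this
  -- every axis point of `U` has height at most `c`
  have hmax : ∀ e : ℝ, ((0, e) : E) ∈ B → f 0 ≤ f (0, e) → e ≤ c := by
    intro e heB hef
    by_contra hlt
    push Not at hlt
    rcases le_or_gt e 1 with h1 | h1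
    · exact absurd (hcmax (a := e) ⟨⟨by linarith, h1⟩, hef⟩) (not_le.2 hlt)
    · have hinv : |(1 / e)| ≤ 1 := by
        rw [abs_of_pos (by positivity), div_le_one (by linarith)]
        exact h1.le
      have hr := H.ray heB hinv
      have he0 : (0 : ℝ) < 1 / e := by positivity
      rw [abs_of_pos he0] at hr
      have he : (1 / e) • ((0, e) : E) = (0, 1) := by
        ext <;> simp
        field_simp
      rw [he] at hr
      nlinarith [H.le_zero heB]
  have hfz : f (0, c) = f 0 := le_antisymm (H.le_zero (axis c (abs_le.2 ⟨by linarith, hc1.le⟩))) hcK.2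
  have hzint : ((0, c) : E) ∈ interior B := axis_int c (abs_lt.2 ⟨by linarith, hc1⟩)
  have hzB : ((0, c) : E) ∈ B := interior_subset hzint
  -- axis points below `c`
  have hlow : ∀ e : ℝ, |e| ≤ c → f 0 ≤ f (0, e) ∧ h (0, c) ≤ h (0, e) ∧
      ((0, e) : E) ∈ interior B := by
    intro e he
    refine ⟨?_, ?_, axis_int e (lt_of_le_of_lt he hc1)⟩
    · rcases eq_or_lt_of_le hc0 with h0 | h0
      · have : e = 0 := by
          rw [← h0] at he
          exact abs_nonpos_iff.1 he
        subst this
        exact le_of_eq rfl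
      · have hdiv : |e / c| ≤ 1 := by
          rw [abs_div, abs_of_pos h0, div_le_one h0]
          exact he
        have hr := H.ray hzB hdiv
        have hh : (e / c) • ((0, c) : E) = (0, e) := by
          ext <;> simp
          field_simp
        rw [hh, hfz] at hr
        linarith
    · rcases eq_or_lt_of_le hc0 with h0 | h0
      · have : e = 0 := by
          rw [← h0] at he
          exact abs_nonpos_iff.1 he
        subst this
        exact H.flip.le_zero hzB
      · have hdiv : |e / c| ≤ 1 := by
          rw [abs_div, abs_of_pos h0, div_le_one h0]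
          exact he
        have hr := H.flip.ray hzB hdiv
        have hh : (e / c) • ((0, c) : E) = (0, e) := by
          ext <;> simp
          field_simp
        rw [hh] at hr
        nlinarith [H.flip.le_zero hzB, abs_nonneg (e / c)]
  -- slopes
  set S : Set ℝ := {σ | ∃ y ∈ B, f 0 ≤ f y ∧ 0 < y.1 ∧ σ = (y.2 - c) / y.1} with hS
  have hcomb : ∀ y ∈ B, ∀ r ∈ B, f 0 ≤ f y → f 0 ≤ f r → y.1 < 0 → 0 < r.1 →
      y.2 * r.1 - r.2 * y.1 ≤ c * (r.1 - y.1) := by
    intro y hy r hr hfy hfr hy1 hr1
    have hpos : 0 < r.1 - y.1 := by linarith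
    have e1 : r.1 / (r.1 - y.1) + -y.1 / (r.1 - y.1) = 1 := by
      field_simp
      ring
    have n1 : 0 ≤ r.1 / (r.1 - y.1) := by positivity
    have n2 : 0 ≤ -y.1 / (r.1 - y.1) := div_nonneg (by linarith) hpos.le
    have hmem := H.conv hy hr n1 n2 e1
    have hf := H.fconc.2 hy hr n1 n2 e1
    have hpt : (r.1 / (r.1 - y.1)) • y + (-y.1 / (r.1 - y.1)) • r =
        ((0, (y.2 * r.1 - r.2 * y.1) / (r.1 - y.1)) : E) := by
      ext
      · simp
        field_simp
        ring
      · simp
        field_simp
        ring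
    rw [hpt] at hmem hf
    have hge : f 0 ≤ f (0, (y.2 * r.1 - r.2 * y.1) / (r.1 - y.1)) := by
      refine le_trans ?_ hf
      simp only [smul_eq_mul]
      have : f 0 = (r.1 / (r.1 - y.1)) * f 0 + (-y.1 / (r.1 - y.1)) * f 0 := by
        rw [← add_mul, e1, one_mul]
      rw [this]
      exact add_le_add (mul_le_mul_of_nonneg_left hfy n1) (mul_le_mul_of_nonneg_left hfr n2)
    have := hmax _ hmem hge
    rwa [div_le_iff₀ hpos] at this
  have hSne : S.Nonempty := ⟨-c, (1, 0), hpB, ha.ge, by norm_num, by simp⟩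
  have hSbdd : BddAbove S := by
    refine ⟨c, ?_⟩
    rintro σ ⟨y, hy, hfy, hy1, rfl⟩
    have := hcomb (-1, 0) hmpB y hy hmpf.ge hfy (by norm_num) hy1
    simp only at this
    rw [div_le_iff₀ hy1]
    linarith
  set s : ℝ := sSup S with hs
  have hle : ∀ y ∈ B, f 0 ≤ f y → y.2 ≤ c + s * y.1 := by
    intro y hy hfy
    rcases lt_trichotomy y.1 0 with h1 | h1 | h1
    · have hss : s ≤ (y.2 - c) / y.1 := by
        refine csSup_le hSne ?_
        rintro σ ⟨r, hr, hfr, hr1, rfl⟩
        have := hcomb y hy r hr hfy hfr h1 hr1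
        rw [div_le_iff₀ hr1, div_mul_eq_mul_div, le_div_iff_of_neg h1]
        linarith
      rw [le_div_iff_of_neg h1] at hss
      linarith
    · have hy' : y = (0, y.2) := by
        ext
        · exact h1
        · rfl
      rw [h1, mul_zero, add_zero]
      rw [hy'] at hy hfy
      exact hmax _ hy hfy
    · have : (y.2 - c) / y.1 ≤ s := le_csSup hSbdd ⟨y, hy, hfy, h1, rfl⟩
      rw [div_le_iff₀ h1] at this
      linarith
  have habs : ∀ y ∈ B, f 0 ≤ f y → |y.2 - s * y.1| ≤ c := by
    intro y hy hfy
    have h1 := hle y hy hfy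
    have h2 := hle (-y) (H.sym y hy) (by rw [H.feven y hy]; exact hfy)
    simp only [Prod.snd_neg, Prod.fst_neg] at h2
    exact abs_le.2 ⟨by linarith, by linarith⟩
  obtain ⟨R, hR0, hR⟩ := H.exists_bound
  have hzpos : 0 < f 0 + h (0, c) := by
    have := H.pos_int hzint
    rwa [hfz] at this
  set W : ℝ := (f 0 + h (0, c)) / (2 * R) with hW
  have hW0 : 0 < W := by positivity
  have hWR : R * W < f 0 + h (0, c) := by
    rw [hW]
    have : R * ((f 0 + h (0, c)) / (2 * R)) = (f 0 + h (0, c)) / 2 := by field_simp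
    rw [this]
    linarith
  -- UP at `z`
  have hupz : ∃ t : ℝ, 0 < t ∧ ((0, c) : E) + t • ((1, s) : E) ∈ B ∧
      f 0 - t * W < f ((0, c) + t • ((1, s) : E)) := by
    have h1c : 0 < 1 - c := by linarith
    have hgap : 0 < f 0 - f (0, 1) := by linarith
    set δ : ℝ := W * (1 - c) / (2 * (f 0 - f (0, 1))) with hδ
    have hδ0 : 0 < δ := by positivity
    obtain ⟨σ, hσS, hσ⟩ := exists_lt_of_lt_csSup hSne (show s - δ < s by linarith)
    have hσs : σ ≤ s := le_csSup hSbdd hσS
    obtain ⟨y, hy, hfy, hy1, hσy⟩ := hσS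
    set m : ℝ := (s - σ) * y.1 / (1 - c) with hm
    have hm0 : 0 ≤ m := div_nonneg (mul_nonneg (by linarith) hy1.le) h1c.le
    have hden : 0 < 1 + m := by linarith
    have hy2 : y.2 = c + σ * y.1 := by
      rw [hσy]
      field_simp
      ring
    have hmul : m * (1 - c) = (s - σ) * y.1 := by
      rw [hm]
      field_simp
    have e1 : 1 / (1 + m) + m / (1 + m) = 1 := by
      field_simp
    have n1 : 0 ≤ 1 / (1 + m) := by positivity
    have n2 : 0 ≤ m / (1 + m) := by positivity
    have hmem := H.conv hy hqB n1 n2 e1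
    have hf := H.fconc.2 hy hqB n1 n2 e1
    have hpt : (1 / (1 + m)) • y + (m / (1 + m)) • ((0, 1) : E) =
        (0, c) + (y.1 / (1 + m)) • ((1, s) : E) := by
      ext
      · simp
        field_simp
      · simp
        rw [hy2]
        field_simp
        linear_combination hmul
    rw [hpt] at hmem hf
    refine ⟨y.1 / (1 + m), by positivity, hmem, lt_of_lt_of_le ?_ hf⟩
    simp only [smul_eq_mul]
    have h3 : 1 / (1 + m) * f 0 ≤ 1 / (1 + m) * f y := mul_le_mul_of_nonneg_left hfy n1
    refine lt_of_lt_of_le ?_ (add_le_add_left h3 _)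
    have h4 : (s - σ) * (f 0 - f (0, 1)) < W * (1 - c) := by
      have : (s - σ) < δ := by linarith
      calc (s - σ) * (f 0 - f (0, 1)) ≤ δ * (f 0 - f (0, 1)) :=
            mul_le_mul_of_nonneg_right this.le hgap.le
        _ = W * (1 - c) / 2 := by
            rw [hδ]
            field_simp
        _ < W * (1 - c) := by
            have : 0 < W * (1 - c) := by positivity
            linarith
    have h5 : m * (f 0 - f (0, 1)) < y.1 * W := by
      have : m * (1 - c) * (f 0 - f (0, 1)) < y.1 * W * (1 - c) := by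
        rw [hmul]
        nlinarith
      nlinarith
    rw [div_mul_eq_mul_div, div_mul_eq_mul_div, div_mul_eq_mul_div, ← add_div, sub_lt_iff_lt_add,
      ← add_div, lt_div_iff₀ hden]
    nlinarith
  -- the conclusion
  refine ⟨(1, s), W, hW0, ?_⟩
  intro x hx hfx _
  rw [ha] at hfx
  have hfx' : f x = f 0 := le_antisymm (H.le_zero hx) hfx
  have he := habs x hx hfx
  by_cases hx1 : x.1 = 0
  · -- on the axis
    have hxe : x = (0, x.2) := by
      ext
      · exact hx1
      · rfl
    have hec : |x.2| ≤ c := by simpa [hx1] using he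
    obtain ⟨_, _, hint⟩ := hlow _ hec
    have hxint : x ∈ interior B := by rw [hxe]; exact hint
    have hnr : f x + h x ≠ 0 := (H.pos_int hxint).ne'
    obtain ⟨t, ht0, htB, htf⟩ := hupz
    have hmz : ((0, -c) : E) ∈ B := by simpa using H.sym _ hzB
    have hmzf : f (0, -c) = f 0 := by
      have := H.feven _ hzB
      simpa [hfz] using this
    rcases eq_or_lt_of_le (neg_le_of_abs_le hec) with hec' | hec'
    · -- `x = -z`
      refine ⟨-(1, s), Or.inr rfl, H.in_of_int hxint _, ?_, fun hh => absurd hh hnr⟩
      have hup : UP B f (0, c) (1, s) (-W) := ⟨t, ht0, htB, by rw [hfz]; linarith⟩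
      have := UP.neg H hzB hup
      have hxz : -((0, c) : E) = x := by
        rw [hxe, ← hec']
        simp
      rwa [hxz] at this
    · refine ⟨(1, s), Or.inl rfl, H.in_of_int hxint _, ?_, fun hh => absurd hh hnr⟩
      rcases eq_or_lt_of_le hc0 with h0 | h0
      · exfalso
        rw [← h0] at hec hec'
        have := abs_nonpos_iff.1 hec
        rw [this] at hec'
        simp at hec'
      · set lam : ℝ := (c - x.2) / (2 * c) with hlam
        have hl0 : 0 ≤ lam := div_nonneg (by linarith [le_of_abs_le hec]) (by linarith)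
        have hl1 : lam < 1 := by
          rw [hlam, div_lt_one (by linarith)]
          linarith
        have n1 : 0 ≤ 1 - lam := by linarith
        have e1 : (1 - lam) + lam = 1 := by ring
        have hmem := H.conv htB hmz n1 hl0 e1
        have hf := H.fconc.2 htB hmz n1 hl0 e1
        have hpt : (1 - lam) • (((0, c) : E) + t • ((1, s) : E)) + lam • ((0, -c) : E) =
            x + ((1 - lam) * t) • ((1, s) : E) := by
          have hl : 2 * c * lam = c - x.2 := by
            rw [hlam]
            field_simp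
          ext
          · simp [hx1]
          · simp
            linear_combination (-1 : ℝ) * hl
        rw [hpt] at hmem hf
        refine ⟨(1 - lam) * t, mul_pos (by linarith) ht0, hmem, lt_of_lt_of_le ?_ hf⟩
        simp only [smul_eq_mul]
        rw [hfx', hmzf]
        have : (1 - lam) * (f 0 - t * W) < (1 - lam) * f ((0, c) + t • ((1, s) : E)) :=
          mul_lt_mul_of_pos_left htf (by linarith)
        linarith
  · -- off the axis
    obtain ⟨hf1, hh1, hint⟩ := hlow _ he
    have habsx : 0 < |x.1| := abs_pos.2 hx1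
    rcases lt_or_gt_of_ne hx1 with hneg | hpos
    · have hland : x + |x.1| • ((1, s) : E) = (0, x.2 - s * x.1) := by
        rw [abs_of_neg hneg]
        ext <;> simp
        ring
      refine ⟨(1, s), Or.inl rfl, ⟨|x.1|, habsx, by rw [hland]; exact hint⟩,
        ⟨|x.1|, habsx, by rw [hland]; exact interior_subset hint, ?_⟩, fun hr =>
        ⟨|x.1|, habsx, by rw [hland]; exact interior_subset hint, ?_⟩⟩
      · rw [hland, hfx', mul_neg]
        have h3 := mul_pos habsx hW0
        linarith
      · rw [hland]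
        have h1 : |x.1| * W ≤ R * W := mul_le_mul_of_nonneg_right (hR x hx).1 hW0.le
        have h2 : h x = -f 0 := by linarith
        rw [h2]
        linarith
    · have hland : x + |x.1| • (-(1, s) : E) = (0, x.2 - s * x.1) := by
        rw [abs_of_pos hpos]
        ext <;> simp
        ring
      refine ⟨-(1, s), Or.inr rfl, ⟨|x.1|, habsx, by rw [hland]; exact hint⟩,
        ⟨|x.1|, habsx, by rw [hland]; exact interior_subset hint, ?_⟩, fun hr =>
        ⟨|x.1|, habsx, by rw [hland]; exact interior_subset hint, ?_⟩⟩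
      · rw [hland, hfx', mul_neg]
        have h3 := mul_pos habsx hW0
        linarith
      · rw [hland]
        have h1 : |x.1| * W ≤ R * W := mul_le_mul_of_nonneg_right (hR x hx).1 hW0.le
        have h2 : h x = -f 0 := by linarith
        rw [h2]
        linarith

/-! ### T5: the tangent lemma (`a = 0`) -/

theorem tangent (H : HF B f h) {p : E} (hp : p ∈ bd B) (ha : f p = f 0)
    (hne : ∃ x ∈ B, f x < f 0) : UG B f h p := by
  obtain ⟨q, hq, hqf⟩ := exists_int_lt H hne
  have hqB : q ∈ B := interior_subset hq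
  have hp0 : p ≠ 0 := by
    rintro rfl
    exact hp.2 H.int0
  have hdet : p.1 * q.2 - p.2 * q.1 ≠ 0 := by
    intro hdet
    -- `q = c • p`
    have hex : ∃ c : ℝ, q = c • p := by
      by_cases h1 : p.1 = 0
      · have h2 : p.2 ≠ 0 := fun h2 => hp0 (Prod.ext h1 h2)
        refine ⟨q.2 / p.2, ?_⟩
        rw [h1] at hdet
        have hq1 : q.1 = 0 := by
          have : p.2 * q.1 = 0 := by linarith
          exact (mul_eq_zero.1 this).resolve_left h2
        ext
        · simp [h1, hq1]
        · simp
          field_simp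
      · refine ⟨q.1 / p.1, ?_⟩
        ext
        · simp
          field_simp
        · simp
          field_simp
          linarith
    obtain ⟨c, hc⟩ := hex
    have habs : |c| ≤ 1 := H.abs_le_of_mem hp (hc ▸ hqB)
    have hr := H.ray hp.1 habs
    rw [← hc, ha] at hr
    linarith
  set d : ℝ := p.1 * q.2 - p.2 * q.1 with hd
  let T : E ≃ₗ[ℝ] E :=
    { toFun := fun x => ((x.1 * q.2 - x.2 * q.1) / d, (p.1 * x.2 - p.2 * x.1) / d)
      invFun := fun y => (y.1 * p.1 + y.2 * q.1, y.1 * p.2 + y.2 * q.2)
      map_add' := by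
        intro x y
        ext <;> simp <;> ring
      map_smul' := by
        intro a x
        ext <;> simp <;> ring
      left_inv := by
        intro x
        ext
        · simp
          field_simp
          rw [hd]
          ring
        · simp
          field_simp
          rw [hd]
          ring
      right_inv := by
        intro y
        ext
        · simp
          rw [div_eq_iff hdet, hd]
          ring
        · simp
          rw [div_eq_iff hdet, hd]
          ring }
  have hTp : T p = (1, 0) := by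
    show ((p.1 * q.2 - p.2 * q.1) / d, (p.1 * p.2 - p.2 * p.1) / d) = ((1, 0) : E)
    ext
    · simp [← hd, hdet]
    · simp
      left
      ring
  have hTq : T q = (0, 1) := by
    show ((q.1 * q.2 - q.2 * q.1) / d, (p.1 * q.2 - p.2 * q.1) / d) = ((0, 1) : E)
    ext
    · simp
      left
      ring
    · simp [← hd, hdet]
  have hTp' : T.symm (1, 0) = p := by rw [← hTp, T.symm_apply_apply]
  have hTq' : T.symm (0, 1) = q := by rw [← hTq, T.symm_apply_apply]
  rw [← UG.trans T, hTp]
  refine tangent_aux (H.trans T) ?_ ?_ ?_ ?_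
  · rw [bd_image, ← hTp]
    exact mem_image_of_mem _ hp
  · simp only [Function.comp_apply, hTp', map_zero]
    exact ha
  · rw [← hTq]
    have hopen : interior (T '' B) = T '' interior B := by
      have hc : (T : E → E) = (T.toContinuousLinearEquiv.toHomeomorph : E → E) := rfl
      rw [hc]
      exact (T.toContinuousLinearEquiv.toHomeomorph.image_interior B).symm
    rw [hopen]
    exact mem_image_of_mem _ hq
  · simp only [Function.comp_apply, hTq', map_zero]
    exact hqf

end Pool.Agent.Lib.MP_5e7226_co.HT
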