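import Pool.Agent.Lib.MP_5e7226_co.HT.PT1b
import Pool.Agent.Lib.MP_5e7226_co.HT.PT1c
/-! Half-turn case, task T4: the diagonal directions. -/

set_option autoImplicit false

open Set Filter Topology

namespace Pool.Agent.Lib.MP_5e7226_co.HT

variable {B : Set E} {f h : E → ℝ}

lemma t4_pm (S : Set1 B f h) : ((1, 0) : E) ∈ B := S.pbd.1

lemma t4_qm (S : Set1 B f h) : ((0, 1) : E) ∈ B := S.qbd.1

lemma t4_axp (S : Set1 B f h) {c : ℝ} (hc : |c| ≤ 1) :
    f (1, 0) + (1 - |c|) * (f 0 - f (1, 0)) ≤ f (c, 0) := by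
  have h1 := S.toHF.ray (t4_pm S) hc
  have e : c • ((1, 0) : E) = (c, 0) := by simp [Prod.smul_def]
  rw [e] at h1
  linarith

lemma t4_axq (S : Set1 B f h) {c : ℝ} (hc : |c| ≤ 1) :
    h (0, 1) + (1 - |c|) * (h 0 - h (0, 1)) ≤ h (0, c) := by
  have h1 := S.toHF.flip.ray (t4_qm S) hc
  have e : c • ((0, 1) : E) = (0, c) := by simp [Prod.smul_def]
  rw [e] at h1
  linarith

lemma t4_axp_int (S : Set1 B f h) {c : ℝ} (hc : |c| < 1) : ((c, 0) : E) ∈ interior B := by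
  have h1 := S.toHF.smul_int (t4_pm S) hc
  have e : c • ((1, 0) : E) = (c, 0) := by simp [Prod.smul_def]
  rwa [e] at h1

lemma t4_axq_int (S : Set1 B f h) {c : ℝ} (hc : |c| < 1) : ((0, c) : E) ∈ interior B := by
  have h1 := S.toHF.smul_int (t4_qm S) hc
  have e : c • ((0, 1) : E) = (0, c) := by simp [Prod.smul_def]
  rwa [e] at h1

lemma t4_f0 (S : Set1 B f h) : f (1, 0) ≤ f 0 := S.toHF.le_zero (t4_pm S)

lemma t4_h0 (S : Set1 B f h) : h (0, 1) ≤ h 0 := S.toHF.flip.le_zero (t4_qm S)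

/-- landing on the first axis with `|c| < 1` is above every `f x` allowed -/
lemma t4_landf (S : Set1 B f h) {x : E} (hx : f x ≤ f (1, 0))
    (hf : f x < f (1, 0) ∨ f (1, 0) < f 0) {c : ℝ} (hc : |c| < 1) : f x < f (c, 0) := by
  have h1 := t4_axp S hc.le
  have h2 := t4_f0 S
  have h3 : 0 ≤ (1 - |c|) * (f 0 - f (1, 0)) := mul_nonneg (by linarith) (by linarith)
  rcases hf with hf | hf
  · linarith
  · have h4 : 0 < (1 - |c|) * (f 0 - f (1, 0)) := mul_pos (by linarith) (by linarith)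
    linarith

lemma t4_landh (S : Set1 B f h) {x : E} (hx : h x ≤ h (0, 1))
    (hh : h x < h (0, 1) ∨ h (0, 1) < h 0) {c : ℝ} (hc : |c| < 1) : h x < h (0, c) := by
  have h1 := t4_axq S hc.le
  have h2 := t4_h0 S
  have h3 : 0 ≤ (1 - |c|) * (h 0 - h (0, 1)) := mul_nonneg (by linarith) (by linarith)
  rcases hh with hh | hh
  · linarith
  · have h4 : 0 < (1 - |c|) * (h 0 - h (0, 1)) := mul_pos (by linarith) (by linarith)
    linarith

/-- a boundary point on the first axis is `±p` -/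
lemma t4_bd_snd (S : Set1 B f h) {x : E} (hx : x ∈ bd B) (hp : x ≠ (1, 0)) (hp' : x ≠ (-1, 0)) :
    x.2 ≠ 0 := by
  intro h0
  obtain ⟨X, Y⟩ := x
  simp only at h0
  subst h0
  have hX : X ≠ 0 := by
    rintro rfl
    exact hx.2 (S.toHF.int0)
  have e1 : X • ((1, 0) : E) = (X, 0) := by simp [Prod.smul_def]
  have h1 := S.toHF.abs_le_of_mem S.pbd (c := X) (by rw [e1]; exact hx.1)
  rcases lt_or_eq_of_le h1 with h2 | h2
  · exact hx.2 (t4_axp_int S h2)
  · rcases (abs_eq (zero_le_one' ℝ)).1 h2 with h3 | h3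
    · exact hp (by rw [h3])
    · exact hp' (by rw [h3])

lemma t4_bd_fst (S : Set1 B f h) {x : E} (hx : x ∈ bd B) (hq : x ≠ (0, 1)) (hq' : x ≠ (0, -1)) :
    x.1 ≠ 0 := by
  intro h0
  obtain ⟨X, Y⟩ := x
  simp only at h0
  subst h0
  have e1 : Y • ((0, 1) : E) = (0, Y) := by simp [Prod.smul_def]
  have h1 := S.toHF.abs_le_of_mem S.qbd (c := Y) (by rw [e1]; exact hx.1)
  rcases lt_or_eq_of_le h1 with h2 | h2
  · exact hx.2 (t4_axq_int S h2)
  · rcases (abs_eq (zero_le_one' ℝ)).1 h2 with h3 | h3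
    · exact hq (by rw [h3])
    · exact hq' (by rw [h3])

/-- `v` points diagonally towards the axes. -/
def t4_Diag (x v : E) : Prop :=
  x + |x.2| • v = (x.1 + |x.2| * v.1, 0) ∧ x + |x.1| • v = (0, x.2 + |x.1| * v.2) ∧
    |x.1 + |x.2| * v.1| = |(|x.1| - |x.2|)| ∧ |x.2 + |x.1| * v.2| = |(|x.1| - |x.2|)|

lemma t4_diag {x : E} (h1 : x.1 ≠ 0) (h2 : x.2 ≠ 0) : ∃ d ∈ MIDS, t4_Diag x d.1 ∧ d.2 = 0 := by
  obtain ⟨X, Y⟩ := x
  simp only at h1 h2
  rcases lt_or_gt_of_ne h1 with hX | hX <;> rcases lt_or_gt_of_ne h2 with hY | hY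
  · refine ⟨((1, 1), 0), by simp [MIDS], ?_, rfl⟩
    refine ⟨?_, ?_, ?_, ?_⟩ <;> simp only [abs_of_neg hX, abs_of_neg hY, Prod.smul_mk, smul_eq_mul,
      mul_one, Prod.mk_add_mk]
    · congr 1; ring
    · congr 1; ring
    · rw [show X + -Y = -(-X - -Y) by ring, abs_neg]
    · rw [show Y + -X = (-X - -Y) by ring]
  · refine ⟨((1, -1), 0), by simp [MIDS], ?_, rfl⟩
    refine ⟨?_, ?_, ?_, ?_⟩ <;> simp only [abs_of_neg hX, abs_of_pos hY, Prod.smul_mk, smul_eq_mul,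
      mul_one, Prod.mk_add_mk]
    · congr 1; ring
    · congr 1; ring
    · rw [show X + Y = -(-X - Y) by ring, abs_neg]
    · rw [show Y + -X * -1 = -(-X - Y) by ring, abs_neg]
  · refine ⟨((-1, 1), 0), by simp [MIDS], ?_, rfl⟩
    refine ⟨?_, ?_, ?_, ?_⟩ <;> simp only [abs_of_pos hX, abs_of_neg hY, Prod.smul_mk, smul_eq_mul,
      mul_one, Prod.mk_add_mk]
    · congr 1; ring
    · congr 1; ring
    · rw [show X + -Y * -1 = (X - -Y) by ring]
    · rw [show Y + X = (X - -Y) by ring]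
  · refine ⟨((-1, -1), 0), by simp [MIDS], ?_, rfl⟩
    refine ⟨?_, ?_, ?_, ?_⟩ <;> simp only [abs_of_pos hX, abs_of_pos hY, Prod.smul_mk, smul_eq_mul,
      mul_one, Prod.mk_add_mk]
    · congr 1; ring
    · congr 1; ring
    · rw [show X + Y * -1 = (X - Y) by ring]
    · rw [show Y + X * -1 = -(X - Y) by ring, abs_neg]

lemma t4_diag_lt (S : Set1 B f h) {x : E} (hx : x ∈ B) (h1 : x.1 ≠ 0) (h2 : x.2 ≠ 0) :
    |(|x.1| - |x.2|)| < 1 := by
  have h := S.nd x hx h1 h2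
  rw [abs_lt]
  constructor <;> linarith [h.1, h.2]

lemma t4_in (S : Set1 B f h) {x v : E} (hx : x ∈ B) (h1 : x.1 ≠ 0) (h2 : x.2 ≠ 0)
    (hd : t4_Diag x v) : IN B x v := by
  refine ⟨|x.2|, abs_pos.2 h2, ?_⟩
  rw [hd.1]
  apply t4_axp_int S
  rw [hd.2.2.1]
  exact t4_diag_lt S hx h1 h2

lemma t4_upf (S : Set1 B f h) {x v : E} (hx : x ∈ B) (h1 : x.1 ≠ 0) (h2 : x.2 ≠ 0)
    (hd : t4_Diag x v) (hxf : f x ≤ f (1, 0)) (hf : f x < f (1, 0) ∨ f (1, 0) < f 0) :
    UP B f x v 0 := by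
  have hlt : |x.1 + |x.2| * v.1| < 1 := by
    rw [hd.2.2.1]
    exact t4_diag_lt S hx h1 h2
  refine ⟨|x.2|, abs_pos.2 h2, ?_, ?_⟩
  · rw [hd.1]
    exact interior_subset (t4_axp_int S hlt)
  · rw [hd.1, mul_zero, add_zero]
    exact t4_landf S hxf hf hlt

lemma t4_uph (S : Set1 B f h) {x v : E} (hx : x ∈ B) (h1 : x.1 ≠ 0) (h2 : x.2 ≠ 0)
    (hd : t4_Diag x v) (hxh : h x ≤ h (0, 1)) (hh : h x < h (0, 1) ∨ h (0, 1) < h 0) :
    UP B h x v 0 := by
  have hlt : |x.2 + |x.1| * v.2| < 1 := by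
    rw [hd.2.2.2]
    exact t4_diag_lt S hx h1 h2
  refine ⟨|x.1|, abs_pos.2 h1, ?_, ?_⟩
  · rw [hd.2.1]
    exact interior_subset (t4_axq_int S hlt)
  · rw [hd.2.1, mul_zero, add_zero]
    exact t4_landh S hxh hh hlt

theorem mids_full (S : Set1 B f h) {x : E} (hx : x ∈ bd B) (hp : x ≠ (1, 0)) (hp' : x ≠ (-1, 0))
    (hq : x ≠ (0, 1)) (hq' : x ≠ (0, -1)) (hf : f x < f (1, 0) ∨ f (1, 0) < f 0)
    (hh : h x < h (0, 1) ∨ h (0, 1) < h 0) : ∃ d ∈ MIDS, Full B f h x d.1 d.2 := by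
  have h1 := t4_bd_fst S hx hq hq'
  have h2 := t4_bd_snd S hx hp hp'
  obtain ⟨d, hd, hdd, h0⟩ := t4_diag h1 h2
  refine ⟨d, hd, t4_in S hx.1 h1 h2 hdd, ?_, ?_⟩
  · rw [h0]
    exact t4_upf S hx.1 h1 h2 hdd (S.fmax x hx) hf
  · rw [h0, neg_zero]
    exact t4_uph S hx.1 h1 h2 hdd (S.hmax x hx) hh

theorem mids_f (S : Set1 B f h) {x : E} (hx : x ∈ B) (hp : x ≠ (1, 0)) (hp' : x ≠ (-1, 0))
    (hq : x ≠ (0, 1)) (hq' : x ≠ (0, -1)) (hf : f x < f (1, 0) ∨ (x ∈ bd B ∧ f (1, 0) < f 0)) :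
    ∃ d ∈ MIDS, IN B x d.1 ∧ UP B f x d.1 d.2 := by
  have hxf : f x ≤ f (1, 0) := by
    rcases hf with hf | hf
    · exact hf.le
    · exact S.fmax x hf.1
  have hf' : f x < f (1, 0) ∨ f (1, 0) < f 0 := hf.imp id And.right
  have h2 : x.2 ≠ 0 := by
    rcases hf with hf | hf
    · intro h0
      obtain ⟨X, Y⟩ := x
      simp only at h0
      subst h0
      have e1 : X • ((1, 0) : E) = (X, 0) := by simp [Prod.smul_def]
      have h1 := S.toHF.abs_le_of_mem S.pbd (c := X) (by rw [e1]; exact hx)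
      have h3 := t4_axp S h1
      have h4 := t4_f0 S
      have h5 : 0 ≤ (1 - |X|) * (f 0 - f (1, 0)) := mul_nonneg (by linarith) (by linarith)
      linarith
    · exact t4_bd_snd S hf.1 hp hp'
  by_cases h1 : x.1 = 0
  · obtain ⟨X, Y⟩ := x
    simp only at h1 h2
    subst h1
    have e1 : Y • ((0, 1) : E) = (0, Y) := by simp [Prod.smul_def]
    have hY := S.toHF.abs_le_of_mem S.qbd (c := Y) (by rw [e1]; exact hx)
    have hY1 : |Y| < 1 := by
      rcases lt_or_eq_of_le hY with h2 | h2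
      · exact h2
      · rcases (abs_eq (zero_le_one' ℝ)).1 h2 with h3 | h3
        · exact absurd (by rw [h3]) hq
        · exact absurd (by rw [h3]) hq'
    have habs : |(|Y|)| < 1 := by rwa [abs_abs]
    rcases lt_or_gt_of_ne h2 with hY0 | hY0
    · refine ⟨((1, 1), 0), by simp [MIDS], ⟨|Y|, abs_pos.2 h2, ?_⟩, ⟨|Y|, abs_pos.2 h2, ?_, ?_⟩⟩
      · have e : ((0, Y) : E) + |Y| • ((1, 1) : E) = (|Y|, 0) := by
          simp [abs_of_neg hY0]
        show ((0, Y) : E) + |Y| • ((1, 1) : E) ∈ _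
        rw [e]
        exact t4_axp_int S habs
      · have e : ((0, Y) : E) + |Y| • ((1, 1) : E) = (|Y|, 0) := by
          simp [abs_of_neg hY0]
        show ((0, Y) : E) + |Y| • ((1, 1) : E) ∈ _
        rw [e]
        exact interior_subset (t4_axp_int S habs)
      · have e : ((0, Y) : E) + |Y| • ((1, 1) : E) = (|Y|, 0) := by
          simp [abs_of_neg hY0]
        show f (0, Y) + |Y| * 0 < f (((0, Y) : E) + |Y| • ((1, 1) : E))
        rw [e, mul_zero, add_zero]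
        exact t4_landf S hxf hf' habs
    · refine ⟨((1, -1), 0), by simp [MIDS], ⟨|Y|, abs_pos.2 h2, ?_⟩, ⟨|Y|, abs_pos.2 h2, ?_, ?_⟩⟩
      · have e : ((0, Y) : E) + |Y| • ((1, -1) : E) = (|Y|, 0) := by
          simp [abs_of_pos hY0]
        show ((0, Y) : E) + |Y| • ((1, -1) : E) ∈ _
        rw [e]
        exact t4_axp_int S habs
      · have e : ((0, Y) : E) + |Y| • ((1, -1) : E) = (|Y|, 0) := by
          simp [abs_of_pos hY0]
        show ((0, Y) : E) + |Y| • ((1, -1) : E) ∈ _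
        rw [e]
        exact interior_subset (t4_axp_int S habs)
      · have e : ((0, Y) : E) + |Y| • ((1, -1) : E) = (|Y|, 0) := by
          simp [abs_of_pos hY0]
        show f (0, Y) + |Y| * 0 < f (((0, Y) : E) + |Y| • ((1, -1) : E))
        rw [e, mul_zero, add_zero]
        exact t4_landf S hxf hf' habs
  · obtain ⟨d, hd, hdd, h0⟩ := t4_diag h1 h2
    refine ⟨d, hd, t4_in S hx h1 h2 hdd, ?_⟩
    rw [h0]
    exact t4_upf S hx h1 h2 hdd hxf hf'

theorem mids_h (S : Set1 B f h) {x : E} (hx : x ∈ B) (hp : x ≠ (1, 0)) (hp' : x ≠ (-1, 0))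
    (hq : x ≠ (0, 1)) (hq' : x ≠ (0, -1)) (hh : h x < h (0, 1) ∨ (x ∈ bd B ∧ h (0, 1) < h 0)) :
    ∃ d ∈ MIDS, IN B x d.1 ∧ UP B h x d.1 (-d.2) := by
  have hxh : h x ≤ h (0, 1) := by
    rcases hh with hh | hh
    · exact hh.le
    · exact S.hmax x hh.1
  have hh' : h x < h (0, 1) ∨ h (0, 1) < h 0 := hh.imp id And.right
  have h1 : x.1 ≠ 0 := by
    rcases hh with hh | hh
    · intro h0
      obtain ⟨X, Y⟩ := x
      simp only at h0
      subst h0
      have e1 : Y • ((0, 1) : E) = (0, Y) := by simp [Prod.smul_def]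
      have h1 := S.toHF.abs_le_of_mem S.qbd (c := Y) (by rw [e1]; exact hx)
      have h3 := t4_axq S h1
      have h4 := t4_h0 S
      have h5 : 0 ≤ (1 - |Y|) * (h 0 - h (0, 1)) := mul_nonneg (by linarith) (by linarith)
      linarith
    · exact t4_bd_fst S hh.1 hq hq'
  by_cases h2 : x.2 = 0
  · obtain ⟨X, Y⟩ := x
    simp only at h1 h2
    subst h2
    have e1 : X • ((1, 0) : E) = (X, 0) := by simp [Prod.smul_def]
    have hX := S.toHF.abs_le_of_mem S.pbd (c := X) (by rw [e1]; exact hx)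
    have hX1 : |X| < 1 := by
      rcases lt_or_eq_of_le hX with h2 | h2
      · exact h2
      · rcases (abs_eq (zero_le_one' ℝ)).1 h2 with h3 | h3
        · exact absurd (by rw [h3]) hp
        · exact absurd (by rw [h3]) hp'
    have habs : |(|X|)| < 1 := by rwa [abs_abs]
    rcases lt_or_gt_of_ne h1 with hX0 | hX0
    · refine ⟨((1, 1), 0), by simp [MIDS], ⟨|X|, abs_pos.2 h1, ?_⟩, ⟨|X|, abs_pos.2 h1, ?_, ?_⟩⟩
      · have e : ((X, 0) : E) + |X| • ((1, 1) : E) = (0, |X|) := by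
          simp [abs_of_neg hX0]
        show ((X, 0) : E) + |X| • ((1, 1) : E) ∈ _
        rw [e]
        exact t4_axq_int S habs
      · have e : ((X, 0) : E) + |X| • ((1, 1) : E) = (0, |X|) := by
          simp [abs_of_neg hX0]
        show ((X, 0) : E) + |X| • ((1, 1) : E) ∈ _
        rw [e]
        exact interior_subset (t4_axq_int S habs)
      · have e : ((X, 0) : E) + |X| • ((1, 1) : E) = (0, |X|) := by
          simp [abs_of_neg hX0]
        show h (X, 0) + |X| * (-0) < h (((X, 0) : E) + |X| • ((1, 1) : E))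
        rw [e, neg_zero, mul_zero, add_zero]
        exact t4_landh S hxh hh' habs
    · refine ⟨((-1, 1), 0), by simp [MIDS], ⟨|X|, abs_pos.2 h1, ?_⟩, ⟨|X|, abs_pos.2 h1, ?_, ?_⟩⟩
      · have e : ((X, 0) : E) + |X| • ((-1, 1) : E) = (0, |X|) := by
          simp [abs_of_pos hX0]
        show ((X, 0) : E) + |X| • ((-1, 1) : E) ∈ _
        rw [e]
        exact t4_axq_int S habs
      · have e : ((X, 0) : E) + |X| • ((-1, 1) : E) = (0, |X|) := by
          simp [abs_of_pos hX0]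
        show ((X, 0) : E) + |X| • ((-1, 1) : E) ∈ _
        rw [e]
        exact interior_subset (t4_axq_int S habs)
      · have e : ((X, 0) : E) + |X| • ((-1, 1) : E) = (0, |X|) := by
          simp [abs_of_pos hX0]
        show h (X, 0) + |X| * (-0) < h (((X, 0) : E) + |X| • ((-1, 1) : E))
        rw [e, neg_zero, mul_zero, add_zero]
        exact t4_landh S hxh hh' habs
  · obtain ⟨d, hd, hdd, h0⟩ := t4_diag h1 h2
    refine ⟨d, hd, t4_in S hx h1 h2 hdd, ?_⟩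
    rw [h0, neg_zero]
    exact t4_uph S hx h1 h2 hdd hxh hh'

/-- landing at `c • x` with `0 ≤ c < 1` -/
lemma t4_comb (H : HF B f h) {p x v : E} {t c : ℝ} (ht : 0 < t) (hc0 : 0 ≤ c) (hc1 : c < 1)
    (hx : x ∈ B) (hfx : f p ≤ f x) (h0 : f p < f 0) (hv : p + t • v = c • x) :
    IN B p v ∧ UP B f p v 0 := by
  have hc : |c| < 1 := by rwa [abs_of_nonneg hc0]
  have hi := H.smul_int hx hc
  refine ⟨⟨t, ht, by rw [hv]; exact hi⟩, ⟨t, ht, by rw [hv]; exact interior_subset hi, ?_⟩⟩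
  rw [hv, mul_zero, add_zero]
  have h1 := H.ray hx hc.le
  rw [abs_of_nonneg hc0] at h1
  have h2 : c * f p ≤ c * f x := mul_le_mul_of_nonneg_left hfx hc0
  have h3 : (1 - c) * f p < (1 - c) * f 0 := mul_lt_mul_of_pos_left h0 (by linarith)
  linarith

/-- `α`: the level set `f ≥ f p` is not contained in the square -/
theorem alpha (S : Set1 B f h) (hr : f (1, 0) + h (1, 0) = 0) (ha : f (1, 0) < f 0)
    (hU : ∃ x ∈ B, f (1, 0) ≤ f x ∧ 1 < |x.1| + |x.2|) :
    (∃ d ∈ MIDS, Full B f h (1, 0) d.1 d.2) ∧ ∃ d ∈ MIDS, Full B f h (-1, 0) d.1 d.2 := by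
  have H := S.toHF
  obtain ⟨x0, hx0, hfx0, hsq0⟩ := hU
  -- the second coordinate is not zero
  have hy0 : x0.2 ≠ 0 := by
    intro h0
    obtain ⟨X, Y⟩ := x0
    simp only at h0 hsq0
    subst h0
    have e1 : X • ((1, 0) : E) = (X, 0) := by simp [Prod.smul_def]
    have h1 := H.abs_le_of_mem S.pbd (c := X) (by rw [e1]; exact hx0)
    simp only [abs_zero, add_zero] at hsq0
    linarith
  -- without loss of generality it is positive
  obtain ⟨x, hx, hfx, hsq, hy⟩ : ∃ x ∈ B, f (1, 0) ≤ f x ∧ 1 < |x.1| + |x.2| ∧ 0 < x.2 := by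
    rcases lt_or_gt_of_ne hy0 with h1 | h1
    · refine ⟨-x0, S.sym x0 hx0, ?_, ?_, ?_⟩
      · rw [S.feven x0 hx0]; exact hfx0
      · simpa using hsq0
      · simpa using h1
    · exact ⟨x0, hx0, hfx0, hsq0, h1⟩
  have hnp : -((1, 0) : E) = (-1, 0) := by simp
  have hpB := t4_pm S
  have hnpB : ((-1, 0) : E) ∈ B := hnp ▸ S.sym _ hpB
  have hqB := t4_qm S
  have hfn : f (-1, 0) = f (1, 0) := by rw [← hnp]; exact S.feven _ hpB
  have hhn : h (-1, 0) = h (1, 0) := by rw [← hnp]; exact S.heven _ hpB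
  have hhp : h (1, 0) < h (0, 1) := by linarith [S.MN]
  obtain ⟨X, Y⟩ := x
  simp only at hsq hy
  rw [abs_of_pos hy] at hsq
  rcases le_or_gt 0 X with hX | hX
  · rw [abs_of_nonneg hX] at hsq
    have hXY : 0 < X + Y := by linarith
    have hfull : Full B f h (1, 0) (-1, 1) 0 := by
      have hv : ((1, 0) : E) + (Y / (X + Y)) • ((-1, 1) : E) = (1 / (X + Y)) • ((X, Y) : E) := by
        simp only [Prod.smul_mk, smul_eq_mul, Prod.mk_add_mk, Prod.mk.injEq]
        constructor <;> field_simp <;> ring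
      obtain ⟨hi, hu⟩ := t4_comb H (p := (1, 0)) (v := (-1, 1)) (t := Y / (X + Y))
        (c := 1 / (X + Y)) (by positivity) (by positivity) (by rw [div_lt_one hXY]; linarith)
        hx hfx ha hv
      refine ⟨hi, hu, 1, one_pos, ?_, ?_⟩
      · simpa using hqB
      · simpa using hhp
    refine ⟨⟨((-1, 1), 0), by simp [MIDS], hfull⟩, ⟨((1, -1), 0), by simp [MIDS], ?_⟩⟩
    have := hfull.neg H hpB
    simpa using this
  · rw [abs_of_neg hX] at hsq
    have hXY : 0 < Y - X := by linarith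
    have hfull : Full B f h (-1, 0) (1, 1) 0 := by
      have hv : ((-1, 0) : E) + (Y / (Y - X)) • ((1, 1) : E) = (1 / (Y - X)) • ((X, Y) : E) := by
        simp only [Prod.smul_mk, smul_eq_mul, Prod.mk_add_mk, Prod.mk.injEq]
        constructor <;> field_simp <;> ring
      obtain ⟨hi, hu⟩ := t4_comb H (p := (-1, 0)) (v := (1, 1)) (t := Y / (Y - X))
        (c := 1 / (Y - X)) (by positivity) (by positivity) (by rw [div_lt_one hXY]; linarith)
        hx (by rw [hfn]; exact hfx) (by rw [hfn]; exact ha) hv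
      refine ⟨hi, hu, 1, one_pos, ?_, ?_⟩
      · simpa using hqB
      · simpa [hhn] using hhp
    refine ⟨⟨((-1, -1), 0), by simp [MIDS], ?_⟩, ⟨((1, 1), 0), by simp [MIDS], hfull⟩⟩
    have := hfull.neg H hnpB
    simpa using this

theorem alpha' (S : Set1 B f h) (hr : f (0, 1) + h (0, 1) = 0) (ha : h (0, 1) < h 0)
    (hU : ∃ x ∈ B, h (0, 1) ≤ h x ∧ 1 < |x.1| + |x.2|) :
    (∃ d ∈ MIDS, Full B f h (0, 1) d.1 d.2) ∧ ∃ d ∈ MIDS, Full B f h (0, -1) d.1 d.2 := by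
  have H := S.toHF
  obtain ⟨x0, hx0, hfx0, hsq0⟩ := hU
  have hy0 : x0.1 ≠ 0 := by
    intro h0
    obtain ⟨X, Y⟩ := x0
    simp only at h0 hsq0
    subst h0
    have e1 : Y • ((0, 1) : E) = (0, Y) := by simp [Prod.smul_def]
    have h1 := H.abs_le_of_mem S.qbd (c := Y) (by rw [e1]; exact hx0)
    simp only [abs_zero, zero_add] at hsq0
    linarith
  obtain ⟨x, hx, hfx, hsq, hy⟩ : ∃ x ∈ B, h (0, 1) ≤ h x ∧ 1 < |x.1| + |x.2| ∧ 0 < x.1 := by
    rcases lt_or_gt_of_ne hy0 with h1 | h1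
    · refine ⟨-x0, S.sym x0 hx0, ?_, ?_, ?_⟩
      · rw [S.heven x0 hx0]; exact hfx0
      · simpa using hsq0
      · simpa using h1
    · exact ⟨x0, hx0, hfx0, hsq0, h1⟩
  have hnq : -((0, 1) : E) = (0, -1) := by simp
  have hpB := t4_pm S
  have hqB := t4_qm S
  have hnqB : ((0, -1) : E) ∈ B := hnq ▸ S.sym _ hqB
  have hfn : f (0, -1) = f (0, 1) := by rw [← hnq]; exact S.feven _ hqB
  have hhn : h (0, -1) = h (0, 1) := by rw [← hnq]; exact S.heven _ hqB
  have hhp : f (0, 1) < f (1, 0) := by linarith [S.MN]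
  obtain ⟨X, Y⟩ := x
  simp only at hsq hy
  rw [abs_of_pos hy] at hsq
  rcases le_or_gt 0 Y with hY | hY
  · rw [abs_of_nonneg hY] at hsq
    have hXY : 0 < X + Y := by linarith
    have hfull : Full B f h (0, 1) (1, -1) 0 := by
      have hv : ((0, 1) : E) + (X / (X + Y)) • ((1, -1) : E) = (1 / (X + Y)) • ((X, Y) : E) := by
        simp only [Prod.smul_mk, smul_eq_mul, Prod.mk_add_mk, Prod.mk.injEq]
        constructor <;> field_simp <;> ring
      obtain ⟨hi, hu⟩ := t4_comb H.flip (p := (0, 1)) (v := (1, -1)) (t := X / (X + Y))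
        (c := 1 / (X + Y)) (by positivity) (by positivity) (by rw [div_lt_one hXY]; linarith)
        hx hfx ha hv
      refine ⟨hi, ⟨1, one_pos, ?_, ?_⟩, ?_⟩
      · simpa using hpB
      · simpa using hhp
      · simpa using hu
    refine ⟨⟨((1, -1), 0), by simp [MIDS], hfull⟩, ⟨((-1, 1), 0), by simp [MIDS], ?_⟩⟩
    have := hfull.neg H hqB
    simpa using this
  · rw [abs_of_neg hY] at hsq
    have hXY : 0 < X - Y := by linarith
    have hfull : Full B f h (0, -1) (1, 1) 0 := by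
      have hv : ((0, -1) : E) + (X / (X - Y)) • ((1, 1) : E) = (1 / (X - Y)) • ((X, Y) : E) := by
        simp only [Prod.smul_mk, smul_eq_mul, Prod.mk_add_mk, Prod.mk.injEq]
        constructor <;> field_simp <;> ring
      obtain ⟨hi, hu⟩ := t4_comb H.flip (p := (0, -1)) (v := (1, 1)) (t := X / (X - Y))
        (c := 1 / (X - Y)) (by positivity) (by positivity) (by rw [div_lt_one hXY]; linarith)
        hx (by rw [hhn]; exact hfx) (by rw [hhn]; exact ha) hv
      refine ⟨hi, ⟨1, one_pos, ?_, ?_⟩, ?_⟩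
      · simpa using hpB
      · simpa [hfn] using hhp
      · simpa using hu
    refine ⟨⟨((-1, -1), 0), by simp [MIDS], ?_⟩, ⟨((1, 1), 0), by simp [MIDS], hfull⟩⟩
    have := hfull.neg H hnqB
    simpa using this

end Pool.Agent.Lib.MP_5e7226_co.HT
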