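import Pool.Agent.Lib.MP_5e7226_co.HT.PT1b
import Pool.Agent.Lib.MP_5e7226_co.HT.PT4
/-! T6: the key lemma. -/

set_option autoImplicit false

open Set Filter Topology

namespace Pool.Agent.Lib.MP_5e7226_co.HT

variable {B : Set E} {f h : E → ℝ}

/-- value on the vertical axis -/
theorem f_axis (S : Set1 B f h) {c : ℝ} (hc : |c| ≤ 1) :
    ((0, c) : E) ∈ B ∧ f 0 - |c| * (f 0 - f (0, 1)) ≤ f (0, c) := by
  have H := S.toHF
  have hq : ((0, 1) : E) ∈ B := S.qbd.1
  have e : ((0, c) : E) = c • ((0, 1) : E) := by
    ext <;> simp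
  constructor
  · rw [e]; exact H.smul_mem hq hc
  · have := H.ray hq hc
    rw [← e] at this
    linarith

theorem h_axis (S : Set1 B f h) {c : ℝ} (hc : |c| ≤ 1) :
    h (0, 1) ≤ h (0, c) := by
  have H := S.toHF
  have hq : ((0, 1) : E) ∈ B := S.qbd.1
  have e : ((0, c) : E) = c • ((0, 1) : E) := by
    ext <;> simp
  have h1 := H.flip.ray hq hc
  rw [← e] at h1
  have h2 : h (0, 1) ≤ h 0 := H.flip.le_zero hq
  nlinarith [abs_nonneg c]

/-- value on the sides of the square -/
theorem f_side (S : Set1 B f h) {θ : ℝ} (h0 : 0 ≤ θ) (h1 : θ ≤ 1) {σ : ℝ}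
    (hσ : σ = 1 ∨ σ = -1) :
    ((-1 + θ, σ * θ) : E) ∈ B ∧
      f (1, 0) - θ * (f (1, 0) - f (0, 1)) ≤ f (-1 + θ, σ * θ) := by
  have H := S.toHF
  have hq : ((0, 1) : E) ∈ B := S.qbd.1
  have hp : ((1, 0) : E) ∈ B := S.pbd.1
  have hmp : ((-1, 0) : E) ∈ B := by
    have := H.sym _ hp
    simpa using this
  have hfmp : f (-1, 0) = f (1, 0) := by
    have := H.feven _ hp
    simpa using this
  have hq' : ((0, σ) : E) ∈ B := by
    rcases hσ with rfl | rfl
    · exact hq
    · have := H.sym _ hq
      simpa using this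
  have hfq' : f (0, σ) = f (0, 1) := by
    rcases hσ with rfl | rfl
    · rfl
    · have := H.feven _ hq
      simpa using this
  have e : ((-1 + θ, σ * θ) : E) = (1 - θ) • ((-1, 0) : E) + θ • ((0, σ) : E) := by
    ext
    · simp; ring
    · simp [mul_comm]
  constructor
  · rw [e]; exact H.conv hmp hq' (by linarith) h0 (by ring)
  · rw [e]
    have := H.fconc.2 hmp hq' (by linarith : (0:ℝ) ≤ 1 - θ) h0 (by ring)
    simp only [smul_eq_mul] at this
    rw [hfmp, hfq'] at this
    linarith

/-- choice of the parameters -/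
theorem exists_param {a D s0 : ℝ} (ha : 0 < a) (hD : a < D) (h0 : 0 < s0)
    (hs : s0 * (a + D) < D) :
    ∃ s W : ℝ, 0 ≤ s ∧ s < 1 ∧ s * (a + D) + a < W ∧ W < D ∧ s0 * (W + D) < W + D * s := by
  have hA : 0 < a + D := by linarith
  have hDpos : 0 < D := by linarith
  set A := a + D with hAdef
  set G := (2 * D * (D - A * s0) / A) / (2 * (A / 2 + D)) with hG
  have hGpos : 0 < G := by
    rw [hG]
    apply div_pos
    · apply div_pos
      · apply mul_pos
        · linarith
        · nlinarith
      · exact hA
    · linarith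
  set η := min ((D - a) / A) G with hη
  have hηpos : 0 < η := lt_min (div_pos (by linarith) hA) hGpos
  have hη1 : η ≤ (D - a) / A := min_le_left _ _
  have hη2 : η ≤ G := min_le_right _ _
  have hη3 : η * (A / 2 + D) < 2 * D * (D - A * s0) / A := by
    have hK : 0 < A / 2 + D := by linarith
    have e : G * (A / 2 + D) = (2 * D * (D - A * s0) / A) / 2 := by
      rw [hG]; field_simp
    have hp : 0 < 2 * D * (D - A * s0) / A := by
      apply div_pos
      · apply mul_pos
        · linarith
        · nlinarith
      · exact hA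
    have := mul_le_mul_of_nonneg_right hη2 hK.le
    rw [e] at this
    linarith
  refine ⟨(D - a) / A - η, D - η * A / 2, by linarith, ?_, ?_, ?_, ?_⟩
  · have : (D - a) / A < 1 := by
      rw [div_lt_one hA]; linarith
    linarith
  · have e : ((D - a) / A - η) * A = D - a - η * A := by
      field_simp
    rw [e]
    have : 0 < η * A := mul_pos hηpos hA
    linarith
  · have : 0 < η * A := mul_pos hηpos hA
    linarith
  · have e2 : 2 * D * (D - A * s0) / A = 2 * D * D / A - 2 * D * s0 := by
      field_simp
    rw [e2] at hη3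
    have e3 : D * ((D - a) / A - η) = 2 * D * D / A - D - D * η := by
      have : D - a = 2 * D - A := by rw [hAdef]; ring
      rw [this]
      field_simp
    rw [e3]
    have : 0 < η * A * s0 := mul_pos (mul_pos hηpos hA) h0
    nlinarith

theorem low_aux {a D s W X Y φ : ℝ} (ha : 0 ≤ a) (hD : 0 ≤ D) (hs : 0 ≤ s) (hW : 0 < W)
    (hX : X < 0) (hφ : φ ≤ a) (hK : 0 < W - s * (a + D) - a)
    (hL1 : (W - s * D) * (1 + X) + (W + D) * Y ≤ φ * (1 + s))
    (hL2 : (W - s * (a + D)) * (-X) ≤ (a + D) * Y + φ - a) : False := by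
  have h1 : (W + D) * ((W - s * (a + D)) * (-X)) ≤ (W + D) * ((a + D) * Y + φ - a) :=
    mul_le_mul_of_nonneg_left hL2 (by linarith)
  have h2 : (a + D) * ((W - s * D) * (1 + X) + (W + D) * Y) ≤ (a + D) * (φ * (1 + s)) :=
    mul_le_mul_of_nonneg_left hL1 (by linarith)
  have h3 : (W + D) * (φ - a) ≤ 0 :=
    mul_nonpos_of_nonneg_of_nonpos (by linarith) (by linarith)
  have h4 : (a + D) * (φ * (1 + s)) ≤ (a + D) * (a * (1 + s)) := by
    apply mul_le_mul_of_nonneg_left _ (by linarith)
    exact mul_le_mul_of_nonneg_right hφ (by linarith)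
  have h5 : 0 < (-X) * W * (W - s * (a + D) - a) :=
    mul_pos (mul_pos (by linarith) hW) hK
  have h6 : 0 ≤ (a + D) * (W - s * (a + D) - a) := mul_nonneg (by linarith) hK.le
  nlinarith

theorem KL1 (S : Set1 B f h) (hr : f (1, 0) + h (1, 0) = 0) (ha : f (1, 0) < f 0)
    (hU : ∀ x ∈ B, f (1, 0) ≤ f x → |x.1| + |x.2| ≤ 1)
    (haD : f 0 - f (1, 0) < f (1, 0) - f (0, 1)) (hn : ¬ UG B f h (1, 0))
    {s0 : ℝ} (h0 : 0 ≤ s0) (hs0 : s0 * (f 0 - f (0, 1)) < f (1, 0) - f (0, 1)) :
    UP B f (-1, 0) (1, s0) 0 := by
  have H := S.toHF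
  have hq : ((0, 1) : E) ∈ B := S.qbd.1
  have hp : ((1, 0) : E) ∈ B := S.pbd.1
  have hmp : ((-1, 0) : E) ∈ B := by
    have := H.sym _ hp
    simpa using this
  have hfmp : f (-1, 0) = f (1, 0) := by
    have := H.feven _ hp
    simpa using this
  rcases h0.eq_or_lt with h00 | h0pos
  · -- land at 0
    refine ⟨1, one_pos, ?_, ?_⟩
    · rw [← h00]
      have e : ((-1, 0) : E) + (1:ℝ) • ((1, 0) : E) = 0 := by
        ext <;> simp
      rw [e]; exact H.zero_mem
    · rw [← h00]
      have e : ((-1, 0) : E) + (1:ℝ) • ((1, 0) : E) = 0 := by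
        ext <;> simp
      rw [e, hfmp]
      linarith
  set M := f (1, 0) with hM
  set a := f 0 - M with hadef
  set D := M - f (0, 1) with hDdef
  have hAD : f 0 - f (0, 1) = a + D := by rw [hadef, hDdef]; ring
  rw [hAD] at hs0
  have hapos : 0 < a := by rw [hadef]; linarith
  have hDpos : 0 < D := by rw [hDdef]; linarith
  obtain ⟨s, W, hs, hs1, hW1, hW2, hsW⟩ := exists_param hapos haD h0pos hs0
  have hsA : 0 ≤ s * (a + D) := mul_nonneg hs (by linarith)
  have hWpos : 0 < W := by linarith
  have hMN : D ≤ M + h (0, 1) := by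
    have := H.nonneg _ hq
    rw [hDdef]; linarith
  -- the witness
  have hn' : ∃ x ∈ B, M ≤ f x ∧ (x ∈ interior B ∨ f 0 = M ∨ x = (1, 0) ∨ x = -(1, 0)) ∧
      ∀ v : E, (v = (1, s) ∨ v = -(1, s)) → ¬ (IN B x v ∧ UP B f x v (-W) ∧
        (f x + h x = 0 → UP B h x v W)) := by
    by_contra hcon
    apply hn
    refine ⟨(1, s), W, hWpos, ?_⟩
    intro x hx hfx hcase
    by_contra hcon2
    apply hcon
    refine ⟨x, hx, hfx, hcase, ?_⟩
    intro v hv hall
    exact hcon2 ⟨v, hv, hall⟩
  obtain ⟨x, hx, hfx, hcase, hv⟩ := hn'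
  -- x is interior
  have hinter : x ∈ interior B := by
    rcases hcase with hc | hc | hc | hc
    · exact hc
    · exfalso; linarith
    · exfalso
      subst hc
      apply hv (-(1, s)) (Or.inr rfl)
      have e : ((1, 0) : E) + (1:ℝ) • (-(1, s) : E) = (0, -s) := by
        ext <;> simp
      have hsabs : |(-s)| < 1 := by rw [abs_neg, abs_of_nonneg hs]; exact hs1
      have hin : ((0, -s) : E) ∈ interior B := by
        have := H.smul_int hq hsabs
        have e' : (-s) • ((0, 1) : E) = (0, -s) := by ext <;> simp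
        rwa [e'] at this
      refine ⟨⟨1, one_pos, by rw [e]; exact hin⟩, ⟨1, one_pos, ?_, ?_⟩, fun _ => ⟨1, one_pos, ?_, ?_⟩⟩
      · rw [e]; exact interior_subset hin
      · rw [e]
        have := (f_axis S hsabs.le).2
        rw [abs_neg, abs_of_nonneg hs, hAD] at this
        have : f 0 = M + a := by rw [hadef]; ring
        linarith
      · rw [e]; exact interior_subset hin
      · rw [e]
        have := h_axis S hsabs.le
        linarith
    · exfalso
      subst hc
      apply hv (1, s) (Or.inl rfl)
      have e : (-(1, 0) : E) + (1:ℝ) • ((1, s) : E) = (0, s) := by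
        ext <;> simp
      have hsabs : |s| < 1 := by rw [abs_of_nonneg hs]; exact hs1
      have hin : ((0, s) : E) ∈ interior B := by
        have := H.smul_int hq hsabs
        have e' : s • ((0, 1) : E) = (0, s) := by ext <;> simp
        rwa [e'] at this
      have hfe : f (-(1, 0) : E) = M := H.feven _ hp
      have hhe : h (-(1, 0) : E) = h (1, 0) := H.heven _ hp
      refine ⟨⟨1, one_pos, by rw [e]; exact hin⟩, ⟨1, one_pos, ?_, ?_⟩, fun _ => ⟨1, one_pos, ?_, ?_⟩⟩
      · rw [e]; exact interior_subset hin
      · rw [e, hfe]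
        have := (f_axis S hsabs.le).2
        rw [abs_of_nonneg hs, hAD] at this
        have : f 0 = M + a := by rw [hadef]; ring
        linarith
      · rw [e]; exact interior_subset hin
      · rw [e, hhe]
        have := h_axis S hsabs.le
        linarith
  have hpos := H.pos_int hinter
  -- (*)
  have hstar : ∀ v : E, (v = (1, s) ∨ v = -(1, s)) → ∀ t : ℝ, 0 < t → x + t • v ∈ B →
      f (x + t • v) ≤ f x - t * W := by
    intro v hv' t ht hxt
    by_contra hcon
    push Not at hcon
    apply hv v hv'
    refine ⟨H.in_of_int hinter v, ⟨t, ht, hxt, by linarith⟩, fun hz => absurd hz hpos.ne'⟩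
  clear hv
  -- reduce to Y ≥ 0
  obtain ⟨y, hy, hfy, hyint, hystar, hyY⟩ : ∃ y ∈ B, M ≤ f y ∧ y ∈ interior B ∧
      (∀ v : E, (v = (1, s) ∨ v = -(1, s)) → ∀ t : ℝ, 0 < t → y + t • v ∈ B →
        f (y + t • v) ≤ f y - t * W) ∧ 0 ≤ y.2 := by
    rcases le_total 0 x.2 with h2 | h2
    · exact ⟨x, hx, hfx, hinter, hstar, h2⟩
    · refine ⟨-x, H.sym _ hx, by rw [H.feven _ hx]; exact hfx, H.neg_int hinter, ?_, by simpa using h2⟩
      intro v hv t ht hxt
      have e : -x + t • v = -(x + t • (-v)) := by
        rw [smul_neg]; abel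
      have hmem : x + t • (-v) ∈ B := by
        have := H.sym _ hxt
        rw [e, neg_neg] at this
        exact this
      rw [e, H.feven _ hmem, H.feven _ hx]
      apply hstar (-v) _ t ht hmem
      rcases hv with rfl | rfl
      · right; rfl
      · left; simp
  clear hstar hpos hinter hcase hfx hx
  obtain ⟨X, Y⟩ := y
  simp only at hyY
  have hXY := hU _ hy hfy
  simp only at hXY
  rw [abs_of_nonneg hyY] at hXY
  set φ := f (X, Y) - M with hφ
  have hφ0 : 0 ≤ φ := by rw [hφ]; linarith
  have hφa : φ ≤ a := by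
    have := H.le_zero hy
    rw [hφ, hadef]; linarith
  have hfXY : f (X, Y) = M + φ := by rw [hφ]; ring
  have hf0 : f 0 = M + a := by rw [hadef]; ring
  have hX1 : -1 < X := by
    by_contra hcon
    push Not at hcon
    have h1 : 1 ≤ |X| := by
      rw [abs_of_neg (by linarith)]; linarith
    have hY0 : Y = 0 := by linarith
    have hX : X = -1 := by
      have : |X| ≤ 1 := by linarith
      have := (abs_le.mp this).1
      linarith
    rw [hX, hY0] at hyint
    have : ((1, 0) : E) ∈ interior B := by
      have := H.neg_int hyint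
      simpa using this
    exact S.pbd.2 this
  rcases le_or_gt Y (s * (1 + X)) with hlow | hhigh
  · -- LOW
    exfalso
    have hθ0 : 0 ≤ (s * (1 + X) - Y) / (1 + s) := div_nonneg (by linarith) (by linarith)
    have hθ1 : (s * (1 + X) - Y) / (1 + s) ≤ 1 := by
      rw [div_le_one (by linarith)]
      have : X ≤ 1 := by
        have := le_abs_self X; linarith
      nlinarith
    have ht : 0 < (1 + X + Y) / (1 + s) := div_pos (by linarith) (by linarith)
    have hside := f_side S hθ0 hθ1 (Or.inr rfl : (-1:ℝ) = 1 ∨ (-1:ℝ) = -1)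
    have e : ((X, Y) : E) + ((1 + X + Y) / (1 + s)) • (-(1, s) : E) =
        (-1 + (s * (1 + X) - Y) / (1 + s), -1 * ((s * (1 + X) - Y) / (1 + s))) := by
      have hs' : (1 + s) ≠ 0 := by linarith
      ext
      · simp
        field_simp
        ring
      · simp
        field_simp
        ring
    have hst := hystar (-(1, s)) (Or.inr rfl) _ ht (by rw [e]; exact hside.1)
    rw [e] at hst
    have hL1 : (W - s * D) * (1 + X) + (W + D) * Y ≤ φ * (1 + s) := by
      have h1 : (M - (s * (1 + X) - Y) / (1 + s) * D) ≤ M + φ - (1 + X + Y) / (1 + s) * W := by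
        have := hside.2
        rw [← hM, ← hDdef] at this
        linarith
      have hs' : 0 < 1 + s := by linarith
      have h2 := mul_le_mul_of_nonneg_right h1 hs'.le
      have e1 : (M - (s * (1 + X) - Y) / (1 + s) * D) * (1 + s) =
          M * (1 + s) - (s * (1 + X) - Y) * D := by
        field_simp
      have e2 : (M + φ - (1 + X + Y) / (1 + s) * W) * (1 + s) =
          (M + φ) * (1 + s) - (1 + X + Y) * W := by
        field_simp
      rw [e1, e2] at h2
      linarith
    rcases le_or_gt 0 X with hX0 | hX0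
    · have h1 : 0 < W - s * D := by nlinarith
      have g1 : 0 ≤ (W - s * D) * X := mul_nonneg h1.le hX0
      have g2 : 0 ≤ (W + D) * Y := mul_nonneg (by linarith) hyY
      have g3 : φ * (1 + s) ≤ a * (1 + s) := mul_le_mul_of_nonneg_right hφa (by linarith)
      linarith
    · -- land on the vertical axis
      have hXabs : |X| = -X := abs_of_neg hX0
      rw [hXabs] at hXY
      have hc0 : 0 ≤ Y + s * (-X) := by
        have := mul_nonneg hs (by linarith : (0:ℝ) ≤ -X)
        linarith
      have hc : |Y + s * (-X)| ≤ 1 := by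
        rw [abs_of_nonneg hc0]
        nlinarith
      have hax := f_axis S hc
      have e' : ((X, Y) : E) + (-X) • ((1, s) : E) = (0, Y + s * (-X)) := by
        ext
        · simp
        · simp [mul_comm]
      have hst2 := hystar (1, s) (Or.inl rfl) (-X) (by linarith) (by rw [e']; exact hax.1)
      rw [e'] at hst2
      have hL2 : (W - s * (a + D)) * (-X) ≤ (a + D) * Y + φ - a := by
        have h7 := hax.2
        rw [abs_of_nonneg hc0, hAD, hf0] at h7
        rw [hfXY] at hst2
        linarith
      exact low_aux hapos.le hDpos.le hs hWpos hX0 hφa (by linarith) hL1 hL2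
  · -- HIGH
    have h1s : 0 < 1 - s := by linarith
    have hX1' : 0 ≤ 1 + X - Y := by
      have := neg_abs_le X; linarith
    have hH : (W + D * s) * (1 + X) ≤ φ * (1 - s) + (W + D) * Y := by
      rcases hX1'.eq_or_lt with ht0 | ht0
      · have e1 : 1 + X = Y := by linarith
        have h1 : 0 ≤ φ * (1 - s) := mul_nonneg hφ0 h1s.le
        have h2 : 0 ≤ D * (Y - s * (1 + X)) := mul_nonneg hDpos.le (by linarith)
        have e3 : (W + D * s) * (1 + X) = (W + D) * Y - D * (Y - s * (1 + X)) := by
          rw [e1]; ring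
        linarith
      · have hθ0 : 0 ≤ (Y - s * (1 + X)) / (1 - s) := div_nonneg (by linarith) h1s.le
        have hθ1 : (Y - s * (1 + X)) / (1 - s) ≤ 1 := by
          rw [div_le_one h1s]
          have h1 : -X ≤ |X| := neg_le_abs X
          have h2 : s * (-X) ≤ |X| := by
            rcases le_total 0 X with hh | hh
            · have := mul_nonneg hs hh
              have := abs_nonneg X
              linarith
            · have : s * (-X) ≤ 1 * (-X) := mul_le_mul_of_nonneg_right hs1.le (by linarith)
              linarith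
          linarith
        have ht : 0 < (1 + X - Y) / (1 - s) := div_pos ht0 h1s
        have hside := f_side S hθ0 hθ1 (Or.inl rfl : (1:ℝ) = 1 ∨ (1:ℝ) = -1)
        have e : ((X, Y) : E) + ((1 + X - Y) / (1 - s)) • (-(1, s) : E) =
            (-1 + (Y - s * (1 + X)) / (1 - s), 1 * ((Y - s * (1 + X)) / (1 - s))) := by
          have hs' : (1 - s) ≠ 0 := h1s.ne'
          ext
          · simp
            field_simp
            ring
          · simp
            field_simp
            ring
        have hst := hystar (-(1, s)) (Or.inr rfl) _ ht (by rw [e]; exact hside.1)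
        rw [e] at hst
        have h1 : (M - (Y - s * (1 + X)) / (1 - s) * D) ≤ M + φ - (1 + X - Y) / (1 - s) * W := by
          have := hside.2
          rw [← hM, ← hDdef] at this
          linarith
        have h2 := mul_le_mul_of_nonneg_right h1 h1s.le
        have hs' : (1 - s) ≠ 0 := h1s.ne'
        have e1 : (M - (Y - s * (1 + X)) / (1 - s) * D) * (1 - s) =
            M * (1 - s) - (Y - s * (1 + X)) * D := by
          field_simp
        have e2 : (M + φ - (1 + X - Y) / (1 - s) * W) * (1 - s) =
            (M + φ) * (1 - s) - (1 + X - Y) * W := by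
          field_simp
        rw [e1, e2] at h2
        linarith
    -- the point y'
    have hDφ : 0 < D + φ := by linarith
    set P := (D * (1 + X) + φ) / (D + φ) with hP
    set Q := (D * Y + φ) / (D + φ) with hQ
    have hPpos : 0 < P := by
      rw [hP]
      apply div_pos _ hDφ
      have : 0 < D * (1 + X) := mul_pos hDpos (by linarith)
      linarith
    have hkey : (W + D * s) * (D * (1 + X) + φ) ≤ (W + D) * (D * Y + φ) := by
      have h7 := mul_le_mul_of_nonneg_left hH hDpos.le
      linarith
    have hQP : s0 * P < Q := by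
      rw [hP, hQ, ← mul_div_assoc]
      apply div_lt_div_of_pos_right _ hDφ
      have h1 : 0 < D * (1 + X) + φ := by
        have : 0 < D * (1 + X) := mul_pos hDpos (by linarith)
        linarith
      have h2 : (s0 * (W + D)) * (D * (1 + X) + φ) < (W + D * s) * (D * (1 + X) + φ) :=
        mul_lt_mul_of_pos_right hsW h1
      have h3 : (W + D) * (s0 * (D * (1 + X) + φ)) < (W + D) * (D * Y + φ) := by
        linarith
      exact lt_of_mul_lt_mul_left h3 (by linarith)
    have hy'mem : ((P - 1, Q) : E) ∈ B ∧ M ≤ f (P - 1, Q) := by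
      have hw1 : 0 ≤ D / (D + φ) := div_nonneg hDpos.le hDφ.le
      have hw2 : 0 ≤ φ / (D + φ) := div_nonneg hφ0 hDφ.le
      have hw3 : D / (D + φ) + φ / (D + φ) = 1 := by
        field_simp
      have e : ((P - 1, Q) : E) = (D / (D + φ)) • ((X, Y) : E) + (φ / (D + φ)) • ((0, 1) : E) := by
        ext
        · simp
          rw [hP]
          field_simp
          ring
        · simp
          rw [hQ]
          field_simp
      rw [e]
      refine ⟨H.conv hy hq hw1 hw2 hw3, ?_⟩
      have := H.fconc.2 hy hq hw1 hw2 hw3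
      simp only [smul_eq_mul] at this
      refine le_trans ?_ this
      have hfq : f (0, 1) = M - D := by rw [hDdef]; ring
      rw [hfXY, hfq]
      apply le_of_eq
      field_simp
      ring
    set lam := (Q - s0 * P) / (Q - s0 * P + s0) with hlam
    have hQP' : 0 < Q - s0 * P := by linarith
    have hden : 0 < Q - s0 * P + s0 := by linarith
    have hlam0 : 0 < lam := div_pos hQP' hden
    have hlam1 : lam < 1 := by
      rw [hlam, div_lt_one hden]; linarith
    have hlin : (1 - lam) * (Q - s0 * P) = s0 * lam := by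
      rw [hlam]
      field_simp
      ring
    refine ⟨(1 - lam) * P + lam, ?_, ?_, ?_⟩
    · have : 0 < (1 - lam) * P := mul_pos (by linarith) hPpos
      linarith
    · have e : ((-1, 0) : E) + ((1 - lam) * P + lam) • ((1, s0) : E) =
          (1 - lam) • ((P - 1, Q) : E) + lam • (0 : E) := by
        ext
        · simp
          ring
        · simp
          linarith
      rw [e]
      exact H.conv hy'mem.1 H.zero_mem (by linarith) hlam0.le (by ring)
    · have e : ((-1, 0) : E) + ((1 - lam) * P + lam) • ((1, s0) : E) =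
          (1 - lam) • ((P - 1, Q) : E) + lam • (0 : E) := by
        ext
        · simp
          ring
        · simp
          linarith
      rw [e]
      have := H.fconc.2 hy'mem.1 H.zero_mem (by linarith : (0:ℝ) ≤ 1 - lam) hlam0.le (by ring)
      simp only [smul_eq_mul] at this
      rw [hfmp]
      have h1 : (1 - lam) * M ≤ (1 - lam) * f (P - 1, Q) :=
        mul_le_mul_of_nonneg_left hy'mem.2 (by linarith)
      have h2 : 0 < lam * a := mul_pos hlam0 hapos
      rw [hf0] at this
      linarith

/-- the reflection `(X, Y) ↦ (X, -Y)` -/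
noncomputable def refl : E ≃ₗ[ℝ] E := (LinearEquiv.refl ℝ ℝ).prodCongr (LinearEquiv.neg ℝ)

theorem refl_apply (x : E) : refl x = (x.1, -x.2) := rfl

theorem refl_symm_apply (x : E) : refl.symm x = (x.1, -x.2) := by
  apply refl.injective
  rw [LinearEquiv.apply_symm_apply, refl_apply]
  ext <;> simp

/-- the reflected configuration -/
theorem Set1.reflect (S : Set1 B f h) : Set1 (refl '' B) (f ∘ refl.symm) (h ∘ refl.symm) := by
  have H := S.toHF
  have hq : ((0, 1) : E) ∈ B := S.qbd.1
  have hfq : f (0, -1) = f (0, 1) := by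
    have := H.feven _ hq
    simpa using this
  have hhq : h (0, -1) = h (0, 1) := by
    have := H.heven _ hq
    simpa using this
  have e1 : refl.symm ((1, 0) : E) = (1, 0) := by
    rw [refl_symm_apply]; simp
  have e2 : refl.symm ((0, 1) : E) = (0, -1) := by
    rw [refl_symm_apply]
  refine { H.trans refl with
    pbd := ?_
    qbd := ?_
    fmax := ?_
    hmax := ?_
    MN := ?_
    nd := ?_ }
  · rw [bd_image]
    exact ⟨(1, 0), S.pbd, by rw [refl_apply]; simp⟩
  · rw [bd_image]
    refine ⟨(0, -1), ?_, by rw [refl_apply]; simp⟩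
    have := H.neg_bd S.qbd
    simpa using this
  · intro x hx
    rw [bd_image] at hx
    obtain ⟨y, hy, rfl⟩ := hx
    simp only [Function.comp_apply, LinearEquiv.symm_apply_apply, e1]
    exact S.fmax y hy
  · intro x hx
    rw [bd_image] at hx
    obtain ⟨y, hy, rfl⟩ := hx
    simp only [Function.comp_apply, LinearEquiv.symm_apply_apply, e2, hhq]
    exact S.hmax y hy
  · simp only [Function.comp_apply, e1, e2, hhq]
    exact S.MN
  · rintro _ ⟨y, hy, rfl⟩ h1 h2
    rw [refl_apply] at h1 h2 ⊢
    simp only at h1 h2 ⊢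
    have := S.nd y hy h1 (by simpa using h2)
    rw [abs_neg]
    exact this

theorem KL (S : Set1 B f h) (hr : f (1, 0) + h (1, 0) = 0) (ha : f (1, 0) < f 0)
    (hU : ∀ x ∈ B, f (1, 0) ≤ f x → |x.1| + |x.2| ≤ 1) (hΔ : f (0, 1) < f (1, 0)) :
    UG B f h (1, 0) ∨
      ∀ s : ℝ, 0 ≤ s → s * (f 0 - f (0, 1)) < f (1, 0) - f (0, 1) →
        UP B f (1, 0) (-1, s) 0 ∧ UP B f (1, 0) (-1, -s) 0 := by
  have H := S.toHF
  have hq : ((0, 1) : E) ∈ B := S.qbd.1
  have hp : ((1, 0) : E) ∈ B := S.pbd.1
  have hmp : ((-1, 0) : E) ∈ B := by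
    have := H.sym _ hp
    simpa using this
  have hfq : f (0, -1) = f (0, 1) := by
    have := H.feven _ hq
    simpa using this
  have e1 : refl.symm ((1, 0) : E) = (1, 0) := by
    rw [refl_symm_apply]; simp
  have e2 : refl.symm ((0, 1) : E) = (0, -1) := by
    rw [refl_symm_apply]
  rcases le_or_gt (f (1, 0) - f (0, 1)) (f 0 - f (1, 0)) with hc | hc
  · right
    intro s hs hs1
    have hlt : s < 1 := by
      by_contra hcon
      push Not at hcon
      nlinarith
    have key : ∀ σ : ℝ, |σ| = s → UP B f (1, 0) (-1, σ) 0 := by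
      intro σ hσ
      have hσ1 : |σ| ≤ 1 := by rw [hσ]; exact hlt.le
      have hax := f_axis S hσ1
      have e : ((1, 0) : E) + (1:ℝ) • ((-1, σ) : E) = (0, σ) := by
        ext <;> simp
      refine ⟨1, one_pos, by rw [e]; exact hax.1, ?_⟩
      rw [e]
      have := hax.2
      rw [hσ] at this
      linarith
    exact ⟨key s (abs_of_nonneg hs), key (-s) (by rw [abs_neg]; exact abs_of_nonneg hs)⟩
  · by_cases hn : UG B f h (1, 0)
    · left; exact hn
    · right
      intro s hs hs1
      constructor
      · -- reflected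
        have S' := Set1.reflect S
        have hn' : ¬ UG (refl '' B) (f ∘ refl.symm) (h ∘ refl.symm) (1, 0) := by
          have hh := UG.trans (B := B) (f := f) (h := h) refl (p := ((1, 0) : E))
          have e : refl ((1, 0) : E) = (1, 0) := by rw [refl_apply]; simp
          rw [e] at hh
          rw [hh]
          exact hn
        have hk := KL1 S' (by simpa only [Function.comp_apply, e1] using hr)
          (by simpa only [Function.comp_apply, e1, map_zero] using ha)
          (by
            rintro _ ⟨y, hy, rfl⟩ hfy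
            simp only [Function.comp_apply, LinearEquiv.symm_apply_apply, e1] at hfy
            rw [refl_apply]
            simp only
            rw [abs_neg]
            exact hU y hy hfy)
          (by simpa only [Function.comp_apply, e1, e2, map_zero, hfq] using hc)
          hn' hs
          (by simpa only [Function.comp_apply, e1, e2, map_zero, hfq] using hs1)
        have e3 : ((-1, 0) : E) = refl ((-1, 0) : E) := by
          rw [refl_apply]; simp
        have e4 : ((1, s) : E) = refl ((1, -s) : E) := by
          rw [refl_apply]; simp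
        rw [e3, e4] at hk
        rw [UP.trans] at hk
        have := UP.neg H hmp hk
        simpa using this
      · have hk := KL1 S hr ha hU hc hn hs hs1
        have := UP.neg H hmp hk
        simpa using this

end Pool.Agent.Lib.MP_5e7226_co.HT
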