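import Pool.Agent.Lib.MP_5e7226_co.HT.PT2b
import Pool.Agent.Lib.MP_5e7226_co.HT.PT1c
set_option autoImplicit false

open Set Filter Topology

namespace Pool.Agent.Lib.MP_5e7226_co.HT

open Pool.Agent.Lib.MP_5e7226_co.HT

variable {B : Set E} {f h : E → ℝ}

/-- the four steep directions cover the nonrim fibres -/
theorem cov_steep (D : List (E × ℝ)) {z e : E} {ε s : ℝ} (hs : s = 1 ∨ s = -1)
    (hD : (e, 1 / ε) ∈ D ∧ (e, -(1 / ε)) ∈ D ∧ (-e, 1 / ε) ∈ D ∧ (-e, -(1 / ε)) ∈ D)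
    (hpos : 0 < f z + h z) (h1 : IN B z (s • e)) (h2 : UP B f z (s • e) (-(1 / ε)))
    (h3 : UP B h z (s • e) (-(1 / ε))) : Cov B f h D z := by
  obtain ⟨a, b, c, d⟩ := hD
  rcases hs with rfl | rfl
  · rw [one_smul] at h1 h2 h3
    exact Or.inr ⟨hpos, ⟨_, b, h1, h2⟩, ⟨_, a, h1, h3⟩⟩
  · rw [neg_smul, one_smul] at h1 h2 h3
    exact Or.inr ⟨hpos, ⟨_, d, h1, h2⟩, ⟨_, c, h1, h3⟩⟩

/-- T2c -/
theorem thmF (H : HF B f h) (hD : ∃ x ∈ B, f x + h x = 0) (D4 : List (E × ℝ))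
    (h4 : D4.length ≤ 4) (hfull : ∀ x ∈ B, f x + h x = 0 → ∃ d ∈ D4, Full B f h x d.1 d.2) :
    Good B f h := by
  obtain ⟨x0, hx0, hr0⟩ := hD
  obtain ⟨y, l, k, u, v, hc, hry, _, _⟩ := ext_corner H hx0 hr0
  refine good_of_loc H (fun ε => D4 ++ [(v - ε • u, 1 / ε), (v - ε • u, -(1 / ε)),
    (-(v - ε • u), 1 / ε), (-(v - ε • u), -(1 / ε))]) (fun ε => ?_) (fun x hx => ?_)
  · rw [List.length_append]
    simp only [List.length_cons, List.length_nil]
    omega
  · by_cases hxy : x = y ∨ x = -y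
    · have hrim : f x + h x = 0 := by
        rcases hxy with rfl | rfl
        · exact hry
        · rw [H.feven y hc.mem, H.heven y hc.mem]; exact hry
      obtain ⟨d, hd, hfd⟩ := hfull x hx hrim
      obtain ⟨r, hr, hr'⟩ := loc1 H hx hfd
      refine ⟨r, hr, fun z hz hzx ε _ _ => Or.inl ⟨d, List.mem_append_left _ hd, hr' z hz hzx d.2 ?_⟩⟩
      rw [sub_self, abs_zero]; exact hr
    · push Not at hxy
      obtain ⟨r, hr, s, hs, hr'⟩ := corner_steep H hc hx hxy.1 hxy.2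
      refine ⟨r, hr, fun z hz hzx ε hε hεr => ?_⟩
      by_cases hrim : f z + h z = 0
      · obtain ⟨d, hd, hfd⟩ := hfull z hz hrim
        exact Or.inl ⟨d, List.mem_append_left _ hd, hfd⟩
      · obtain ⟨a, b, c⟩ := hr' z hz hzx ε hε hεr
        exact cov_steep _ hs (by simp) (lt_of_le_of_ne (H.nonneg z hz) (Ne.symm hrim)) a b c

/-- T3a: no rim -/
theorem s0 (H : HF B f h) (hD : ∀ x ∈ B, f x + h x ≠ 0) : Good B f h := by
  obtain ⟨y, l, k, u, v, hc⟩ := exists_corner H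
  refine good_of_loc H (fun ε => [(v - ε • u, 1 / ε), (v - ε • u, -(1 / ε)),
    (-(v - ε • u), 1 / ε), (-(v - ε • u), -(1 / ε)), (y, 1 / ε), (y, -(1 / ε)), (-y, 1 / ε),
    (-y, -(1 / ε))]) (fun ε => by simp) (fun x hx => ?_)
  have hpos : ∀ z ∈ B, 0 < f z + h z := fun z hz => lt_of_le_of_ne (H.nonneg z hz) (Ne.symm (hD z hz))
  by_cases hxy : x = y ∨ x = -y
  · obtain ⟨s, hs, hsx⟩ : ∃ s : ℝ, (s = 1 ∨ s = -1) ∧ x + s • y = 0 := by
      rcases hxy with rfl | rfl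
      · exact ⟨-1, Or.inr rfl, by rw [neg_smul, one_smul, add_neg_cancel]⟩
      · exact ⟨1, Or.inl rfl, by rw [one_smul, neg_add_cancel]⟩
    have hcont : ContinuousAt (fun z : E => z + s • y) x := by fun_prop
    have h2 : ∀ᶠ z in 𝓝 x, z + s • y ∈ interior B :=
      hcont.eventually (by show interior B ∈ 𝓝 (x + s • y); rw [hsx]; exact isOpen_interior.mem_nhds H.int0)
    rw [Metric.eventually_nhds_iff] at h2
    obtain ⟨r, hr, hr'⟩ := h2
    have hp0 := H.pos0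
    refine ⟨min r (1 / (f 0 + h 0)), lt_min hr (by positivity), fun z hz hzx ε hε hεr => ?_⟩
    have hint : z + s • y ∈ interior B := by
      apply hr'
      rw [dist_eq_norm]
      exact hzx.trans_le (min_le_left _ _)
    have hε3 : f 0 + h 0 < 1 / ε := by
      have := hεr.trans_le (min_le_right _ _)
      rw [lt_div_iff₀ hp0] at this
      rw [lt_div_iff₀ hε]; linarith
    have hmem : z + s • y ∈ B := interior_subset hint
    have a1 := H.le_zero hz
    have a2 := H.flip.le_zero hz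
    have a3 := H.le_zero hmem
    have a4 := H.flip.le_zero hmem
    have a5 := H.nonneg _ hmem
    apply cov_steep (e := y) (ε := ε) _ hs (by simp) (hpos z hz)
    · exact ⟨1, one_pos, by rw [one_smul]; exact hint⟩
    · refine ⟨1, one_pos, by rw [one_smul]; exact hmem, ?_⟩
      rw [one_smul]; linarith
    · refine ⟨1, one_pos, by rw [one_smul]; exact hmem, ?_⟩
      rw [one_smul]; linarith
  · push Not at hxy
    obtain ⟨r, hr, s, hs, hr'⟩ := corner_steep H hc hx hxy.1 hxy.2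
    refine ⟨r, hr, fun z hz hzx ε hε hεr => ?_⟩
    obtain ⟨a, b, c⟩ := hr' z hz hzx ε hε hεr
    exact cov_steep _ hs (by simp) (hpos z hz) a b c

end Pool.Agent.Lib.MP_5e7226_co.HT
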