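import Pool.Agent.Lib.MP_5e7226_co.HT.PT4
import Pool.Agent.Lib.MP_5e7226_co.HT.PT2c
import Pool.Agent.Lib.MP_5e7226_co.HT.PT6
/-! Half-turn case in dimension three: task T7 (scheme 3). -/

set_option autoImplicit false

open Set Filter Topology

namespace Pool.Agent.Lib.MP_5e7226_co.HT

variable {B : Set E} {f h : E → ℝ}

/-! ### Landing on the axes -/

theorem mkP (c : ℝ) : ((c, 0) : E) = c • ((1, 0) : E) := by simp

theorem mkQ (c : ℝ) : ((0, c) : E) = c • ((0, 1) : E) := by simp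

theorem bd_mem {x : E} (hx : x ∈ bd B) : x ∈ B := hx.1

theorem intP (S : Set1 B f h) {c : ℝ} (hc : |c| < 1) : ((c, 0) : E) ∈ interior B := by
  rw [mkP]; exact S.toHF.smul_int (bd_mem S.pbd) hc

theorem intQ (S : Set1 B f h) {c : ℝ} (hc : |c| < 1) : ((0, c) : E) ∈ interior B := by
  rw [mkQ]; exact S.toHF.smul_int (bd_mem S.qbd) hc

theorem fP (S : Set1 B f h) {c : ℝ} (hc : |c| ≤ 1) :
    |c| * f (1, 0) + (1 - |c|) * f 0 ≤ f (c, 0) := by
  rw [mkP c]; exact S.toHF.ray (bd_mem S.pbd) hc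

theorem fQ (S : Set1 B f h) {c : ℝ} (hc : |c| ≤ 1) :
    |c| * f (0, 1) + (1 - |c|) * f 0 ≤ f (0, c) := by
  rw [mkQ c]; exact S.toHF.ray (bd_mem S.qbd) hc

theorem hP (S : Set1 B f h) {c : ℝ} (hc : |c| ≤ 1) :
    |c| * h (1, 0) + (1 - |c|) * h 0 ≤ h (c, 0) := by
  rw [mkP c]; exact S.toHF.flip.ray (bd_mem S.pbd) hc

theorem hQ (S : Set1 B f h) {c : ℝ} (hc : |c| ≤ 1) :
    |c| * h (0, 1) + (1 - |c|) * h 0 ≤ h (0, c) := by
  rw [mkQ c]; exact S.toHF.flip.ray (bd_mem S.qbd) hc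

/-- on the `q`-axis, `h ≥ h q` -/
theorem hQ' (S : Set1 B f h) {c : ℝ} (hc : |c| ≤ 1) : h (0, 1) ≤ h (0, c) := by
  have h1 := hQ S hc
  have h2 : h (0, 1) ≤ h 0 := S.toHF.flip.le_zero (bd_mem S.qbd)
  nlinarith [abs_nonneg c]

/-- a boundary point on the `p`-axis is `±p` -/
theorem bdP (S : Set1 B f h) {x : E} (hx : x ∈ bd B) (h0 : x.2 = 0) :
    x = (1, 0) ∨ x = (-1, 0) := by
  have hxe : x = (x.1, 0) := Prod.ext rfl h0
  have h1 : |x.1| ≤ 1 := by
    refine S.toHF.abs_le_of_mem S.pbd (c := x.1) ?_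
    rw [← mkP, ← hxe]; exact bd_mem hx
  have h2 : ¬ |x.1| < 1 := fun hlt => hx.2 (by rw [hxe]; exact intP S hlt)
  have h3 : |x.1| = 1 := le_antisymm h1 (not_lt.1 h2)
  rcases (abs_eq zero_le_one).1 h3 with h4 | h4
  · left; rw [hxe, h4]
  · right; rw [hxe, h4]

theorem bdQ (S : Set1 B f h) {x : E} (hx : x ∈ bd B) (h0 : x.1 = 0) :
    x = (0, 1) ∨ x = (0, -1) := by
  have hxe : x = (0, x.2) := Prod.ext h0 rfl
  have h1 : |x.2| ≤ 1 := by
    refine S.toHF.abs_le_of_mem S.qbd (c := x.2) ?_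
    rw [← mkQ, ← hxe]; exact bd_mem hx
  have h2 : ¬ |x.2| < 1 := fun hlt => hx.2 (by rw [hxe]; exact intQ S hlt)
  have h3 : |x.2| = 1 := le_antisymm h1 (not_lt.1 h2)
  rcases (abs_eq zero_le_one).1 h3 with h4 | h4
  · left; rw [hxe, h4]
  · right; rw [hxe, h4]

/-- the uniform bound in the first quadrant, away from `p` and `q` -/
theorem exists_kappa (S : Set1 B f h) {r : ℝ} (hr : 0 < r) :
    ∃ κ : ℝ, 0 < κ ∧ ∀ x ∈ B, 0 ≤ x.1 → 0 ≤ x.2 → r ≤ ‖x - (1, 0)‖ → r ≤ ‖x - (0, 1)‖ →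
      κ ≤ 1 - |x.1 - x.2| := by
  set K : Set E := B ∩ {x | 0 ≤ x.1 ∧ 0 ≤ x.2 ∧ r ≤ ‖x - (1, 0)‖ ∧ r ≤ ‖x - (0, 1)‖} with hK
  have hKe : {x : E | 0 ≤ x.1 ∧ 0 ≤ x.2 ∧ r ≤ ‖x - (1, 0)‖ ∧ r ≤ ‖x - (0, 1)‖} =
      {x : E | 0 ≤ x.1} ∩ ({x : E | 0 ≤ x.2} ∩
        ({x : E | r ≤ ‖x - (1, 0)‖} ∩ {x : E | r ≤ ‖x - (0, 1)‖})) := by
    ext x; simp only [mem_inter_iff, mem_ofPred_eq]
  have hKc : IsCompact K := by
    refine S.cpt.inter_right ?_
    rw [hKe]
    have c1 : Continuous (fun x : E => ‖x - (1, 0)‖) := (continuous_id.sub continuous_const).norm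
    have c2 : Continuous (fun x : E => ‖x - (0, 1)‖) := (continuous_id.sub continuous_const).norm
    exact (isClosed_le continuous_const continuous_fst).inter
      ((isClosed_le continuous_const continuous_snd).inter
        ((isClosed_le continuous_const c1).inter (isClosed_le continuous_const c2)))
  have hcont : Continuous (fun x : E => 1 - |x.1 - x.2|) :=
    continuous_const.sub (continuous_fst.sub continuous_snd).abs
  rcases K.eq_empty_or_nonempty with hKe | hKne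
  · refine ⟨1, one_pos, fun x hx h1 h2 h3 h4 => ?_⟩
    exfalso
    have : x ∈ K := ⟨hx, h1, h2, h3, h4⟩
    rw [hKe] at this
    exact this
  obtain ⟨x0, hx0, hmin⟩ := hKc.exists_isMinOn hKne hcont.continuousOn
  refine ⟨1 - |x0.1 - x0.2|, ?_, fun x hx h1 h2 h3 h4 => hmin ⟨hx, h1, h2, h3, h4⟩⟩
  obtain ⟨hxB, h1, h2, h3, h4⟩ := hx0
  have hlt : |x0.1 - x0.2| < 1 := by
    rcases eq_or_lt_of_le h1 with e1 | l1
    · have hxe : x0 = (0, x0.2) := Prod.ext e1.symm rfl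
      have h5 : |x0.2| ≤ 1 := by
        refine S.toHF.abs_le_of_mem S.qbd (c := x0.2) ?_
        rw [← mkQ, ← hxe]; exact hxB
      have h6 : x0.2 ≠ 1 := by
        intro h7
        rw [h7] at hxe
        rw [hxe, sub_self, norm_zero] at h4
        linarith
      rw [abs_of_nonneg h2] at h5
      rw [← e1, zero_sub, abs_neg, abs_of_nonneg h2]
      exact lt_of_le_of_ne h5 h6
    · rcases eq_or_lt_of_le h2 with e2 | l2
      · have hxe : x0 = (x0.1, 0) := Prod.ext rfl e2.symm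
        have h5 : |x0.1| ≤ 1 := by
          refine S.toHF.abs_le_of_mem S.pbd (c := x0.1) ?_
          rw [← mkP, ← hxe]; exact hxB
        have h6 : x0.1 ≠ 1 := by
          intro h7
          rw [h7] at hxe
          rw [hxe, sub_self, norm_zero] at h3
          linarith
        rw [abs_of_nonneg h1] at h5
        rw [← e2, sub_zero, abs_of_nonneg h1]
        exact lt_of_le_of_ne h5 h6
      · have h7 := S.nd x0 hxB l1.ne' l2.ne'
        rw [abs_of_pos l1, abs_of_pos l2] at h7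
        rw [abs_lt]
        constructor <;> linarith [h7.1, h7.2]
  linarith

theorem land (x : E) (t a b : ℝ) : x + t • ((a, b) : E) = (x.1 + t * a, x.2 + t * b) := by
  ext <;> simp

theorem mkIN {x v y : E} {t : ℝ} (ht : 0 < t) (hy : x + t • v = y) (hi : y ∈ interior B) :
    IN B x v := ⟨t, ht, by rw [hy]; exact hi⟩

theorem mkUP {g : E → ℝ} {x v y : E} {t w : ℝ} (ht : 0 < t) (hy : x + t • v = y) (hi : y ∈ B)
    (hg : g x + t * w < g y) : UP B g x v w := ⟨t, ht, by rw [hy]; exact hi, by rw [hy]; exact hg⟩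

/-- the first quadrant -/
theorem quad1 (S : Set1 B f h) (ha : f (1, 0) < f 0) {κ ε1 R : ℝ} (hε1 : 0 < ε1)
    (hR : ∀ x ∈ B, x.2 ≤ R) (hκ : ε1 * R < (f 0 - f (1, 0)) * κ)
    {x : E} (hx : x ∈ bd B) (hx1 : 0 < x.1) (hx2 : 0 < x.2) (hk : κ ≤ 1 - |x.1 - x.2|)
    (hκ0 : 0 < κ) : Full B f h x (-1, -1) ε1 := by
  have hxB := bd_mem hx
  have hfx := S.fmax x hx
  have hhx := S.hmax x hx
  have hc : |x.1 - x.2| < 1 := by linarith
  have hc' : |x.2 - x.1| < 1 := by rw [abs_sub_comm]; exact hc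
  have l1 : x + x.2 • ((-1, -1) : E) = (x.1 - x.2, 0) := by
    rw [land]; exact Prod.ext (by ring) (by ring)
  have l2 : x + x.1 • ((-1, -1) : E) = (0, x.2 - x.1) := by
    rw [land]; exact Prod.ext (by ring) (by ring)
  refine ⟨mkIN hx2 l1 (intP S hc), mkUP hx2 l1 (interior_subset (intP S hc)) ?_,
    mkUP hx1 l2 (interior_subset (intQ S hc')) ?_⟩
  · have h1 := fP S hc.le
    have h2 : x.2 * ε1 ≤ ε1 * R := by
      rw [mul_comm]; exact mul_le_mul_of_nonneg_left (hR x hxB) hε1.le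
    have h3 : (f 0 - f (1, 0)) * κ ≤ (f 0 - f (1, 0)) * (1 - |x.1 - x.2|) :=
      mul_le_mul_of_nonneg_left hk (sub_pos.2 ha).le
    nlinarith
  · have h1 := hQ' S hc'.le
    have h2 : 0 < x.1 * ε1 := mul_pos hx1 hε1
    linarith

/-- the second quadrant -/
theorem quad2 (S : Set1 B f h) (hr : f (1, 0) + h (1, 0) = 0) (ha : f (1, 0) < f 0)
    (hΔ : f (0, 1) < f (1, 0))
    (hQ1 : ∀ x ∈ B, x.1 ≤ 0 → 0 ≤ x.2 → x.2 ≤ 1)
    {a D α δ1 ε3 s1 η1 ε1 : ℝ} (ea : a = f 0 - f (1, 0)) (eD : D = f (1, 0) - f (0, 1))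
    (hα : α * (a + D) = a) (hα0 : 0 < α)
    (hgap : ∀ x ∈ bd B, x.1 ≤ 0 → α ≤ x.2 → 1 - α / 4 ≤ -x.1 → f x ≤ f (1, 0) - δ1)
    (hε3 : 0 < ε3) (h31 : 2 * ε3 ≤ δ1) (h32 : 8 * ε3 ≤ a * α)
    (hs1 : 0 < s1) (hs1' : s1 < 1) (es1 : (a + D) * s1 = D - η1)
    (hη : 0 < η1) (hη1 : η1 ≤ D / 2) (hη2 : 4 * η1 ≤ α * ε3) (hη3 : 4 * η1 ≤ δ1)
    (hε1 : 0 < ε1) (h11 : 2 * ε1 < α * ε3) (h12 : 2 * ε1 < δ1) (h13 : ε1 ≤ a * (1 - s1))
    (h14 : ε1 ≤ D / 2)
    {Ds : List (E × ℝ)} (m1 : (((1, -s1) : E), ε1) ∈ Ds) (m3 : (((0, -1) : E), ε3) ∈ Ds)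
    {x : E} (hx : x ∈ bd B) (hx1 : x.1 < 0) (hx2 : 0 < x.2) : Cov B f h Ds x := by
  have hxB := bd_mem hx
  have hfx := S.fmax x hx
  have hhx := S.hmax x hx
  have ha0 : 0 < a := by rw [ea]; linarith
  have hD0 : 0 < D := by rw [eD]; linarith
  obtain ⟨ξ, hξ⟩ : ∃ ξ : ℝ, ξ = -x.1 := ⟨_, rfl⟩
  have hξ0 : 0 < ξ := by rw [hξ]; linarith
  have hY1 : x.2 ≤ 1 := hQ1 x hxB hx1.le hx2.le
  have hξ1 : ξ < 1 + x.2 := by
    have h1 := (S.nd x hxB hx1.ne hx2.ne').1
    rwa [abs_of_neg hx1, abs_of_pos hx2, ← hξ] at h1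
  have hsξ : 0 < s1 * ξ := mul_pos hs1 hξ0
  have hc1 : x.2 - s1 * ξ < 1 := by linarith
  have hc2 : -1 < x.2 - s1 * ξ := by
    have : s1 * ξ < 1 + x.2 := by
      calc s1 * ξ ≤ ξ := mul_le_of_le_one_left hξ0.le hs1'.le
        _ < 1 + x.2 := hξ1
    linarith
  have hc : |x.2 - s1 * ξ| < 1 := abs_lt.2 ⟨hc2, hc1⟩
  have l1 : x + ξ • ((1, -s1) : E) = (0, x.2 - s1 * ξ) := by
    rw [land]; ext
    · simp [hξ]
    · simp; ring
  have hIN1 : IN B x (1, -s1) := mkIN hξ0 l1 (intQ S hc)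
  have hUPh1 : UP B h x (1, -s1) (-ε1) := by
    refine mkUP hξ0 l1 (interior_subset (intQ S hc)) ?_
    have h1 := hQ' S hc.le
    have h2 : 0 < ξ * ε1 := mul_pos hξ0 hε1
    linarith
  by_cases hlow : x.2 < s1 * ξ
  · -- below the line
    left
    refine ⟨_, m1, hIN1, ?_, hUPh1⟩
    have ht : 0 < x.2 / s1 := div_pos hx2 hs1
    have hts : x.2 / s1 * s1 = x.2 := div_mul_cancel₀ _ hs1.ne'
    have htξ : x.2 / s1 < ξ := by rw [div_lt_iff₀ hs1]; linarith
    have htY : x.2 ≤ x.2 / s1 := by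
      rw [le_div_iff₀ hs1]; exact mul_le_of_le_one_right hx2.le hs1'.le
    have l2 : x + (x.2 / s1) • ((1, -s1) : E) = (-(ξ - x.2 / s1), 0) := by
      rw [land]; ext
      · simp [hξ]; ring
      · simp [hts]
    have hcc : |(-(ξ - x.2 / s1))| = ξ - x.2 / s1 := by
      rw [abs_neg, abs_of_pos (by linarith)]
    have hc3 : |(-(ξ - x.2 / s1))| < 1 := by rw [hcc]; linarith
    refine mkUP ht l2 (interior_subset (intP S hc3)) ?_
    have h1 := fP S hc3.le
    rw [hcc] at h1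
    have h2 : f (1, 0) + a * (1 - (ξ - x.2 / s1)) ≤ f (-(ξ - x.2 / s1), 0) := by
      rw [ea]; linarith
    have h3 : (x.2 / s1) * (1 - s1) < 1 - (ξ - x.2 / s1) := by
      have : (x.2 / s1) * (1 - s1) = x.2 / s1 - x.2 := by rw [mul_sub, mul_one, hts]
      rw [this]; linarith
    have h4 : x.2 / s1 * ε1 ≤ a * ((x.2 / s1) * (1 - s1)) := by
      calc x.2 / s1 * ε1 ≤ x.2 / s1 * (a * (1 - s1)) := mul_le_mul_of_nonneg_left h13 ht.le
        _ = a * ((x.2 / s1) * (1 - s1)) := by ring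
    have h5 : a * ((x.2 / s1) * (1 - s1)) < a * (1 - (ξ - x.2 / s1)) :=
      mul_lt_mul_of_pos_left h3 ha0
    linarith
  · have hcn : 0 ≤ x.2 - s1 * ξ := by linarith [not_lt.1 hlow]
    by_cases hup : f x + ξ * ε1 < f (0, x.2 - s1 * ξ)
    · left
      exact ⟨_, m1, hIN1, mkUP hξ0 l1 (interior_subset (intQ S hc)) hup, hUPh1⟩
    -- now (**)
    have hss : f (1, 0) - D + (a + D) * (1 - x.2) + (D - η1 - ε1) * ξ ≤ f x := by
      have h1 := fQ S hc.le
      rw [abs_of_nonneg hcn] at h1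
      have h2 := not_lt.1 hup
      have h3 : (x.2 - s1 * ξ) * f (0, 1) + (1 - (x.2 - s1 * ξ)) * f 0 =
          f (1, 0) - D + (a + D) * (1 - x.2) + ((a + D) * s1) * ξ := by
        rw [ea, eD]; ring
      rw [h3, es1] at h1
      have h4 : (D - η1 - ε1) * ξ = (D - η1) * ξ - ξ * ε1 := by ring
      rw [h4]
      linarith
    have hDe : 0 ≤ D - η1 - ε1 := by linarith
    have hDeξ : 0 ≤ (D - η1 - ε1) * ξ := mul_nonneg hDe hξ0.le
    have haD : 0 < a + D := by linarith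
    have hYα : α ≤ x.2 := by
      by_contra hcon
      have h1 : x.2 < α := not_le.1 hcon
      have h2 : (a + D) * x.2 < (a + D) * α := mul_lt_mul_of_pos_left h1 haD
      have h3 : (a + D) * (1 - x.2) = a + D - (a + D) * x.2 := by ring
      have h4 : (a + D) * α = a := by rw [mul_comm]; exact hα
      rw [h3] at hss
      rw [h4] at h2
      linarith
    have hY0 : x.2 * ε3 ≤ ε3 := mul_le_of_le_one_left hε3.le hY1
    have l3 : x + x.2 • ((0, -1) : E) = (x.1, 0) := by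
      rw [land]; ext <;> simp
    have hx1e : |x.1| = ξ := by rw [abs_of_neg hx1, hξ]
    have key : ξ < 1 ∧ f x + x.2 * ε3 < f (x.1, 0) := by
      by_cases hcase : ξ < 1 - α / 4
      · have hξlt : ξ < 1 := by linarith
        refine ⟨hξlt, ?_⟩
        have h1 := fP S (c := x.1) (by rw [hx1e]; exact hξlt.le)
        rw [hx1e] at h1
        have h2 : a * (α / 4) < a * (1 - ξ) := mul_lt_mul_of_pos_left (by linarith) ha0
        have h3 : ξ * f (1, 0) + (1 - ξ) * f 0 = f (1, 0) + a * (1 - ξ) := by rw [ea]; ring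
        rw [h3] at h1
        have h4 : a * (α / 4) = (a * α) / 4 := by ring
        rw [h4] at h2
        linarith
      · have hge : 1 - α / 4 ≤ -x.1 := by rw [← hξ]; exact not_lt.1 hcase
        have hg := hgap x hx hx1.le hYα hge
        have hn : 0 ≤ (a + D) * (1 - x.2) := mul_nonneg haD.le (by linarith)
        have hξlt : ξ < 1 := by
          by_contra hcon
          have h1 : 1 ≤ ξ := not_lt.1 hcon
          have h2 : D - η1 - ε1 ≤ (D - η1 - ε1) * ξ := le_mul_of_one_le_right hDe h1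
          linarith
        refine ⟨hξlt, ?_⟩
        have h1 := fP S (c := x.1) (by rw [hx1e]; exact hξlt.le)
        rw [hx1e] at h1
        have h3 : ξ * f (1, 0) + (1 - ξ) * f 0 = f (1, 0) + a * (1 - ξ) := by rw [ea]; ring
        have h4 : 0 ≤ a * (1 - ξ) := mul_nonneg ha0.le (by linarith)
        linarith
    obtain ⟨hξlt, hf3⟩ := key
    have hc5 : |x.1| < 1 := by rw [hx1e]; exact hξlt
    have hIN3 : IN B x (0, -1) := mkIN hx2 l3 (intP S hc5)
    have hUPf3 : UP B f x (0, -1) ε3 := mkUP hx2 l3 (interior_subset (intP S hc5)) hf3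
    rcases eq_or_lt_of_le (S.nonneg x hxB) with hrim | hnon
    · left
      refine ⟨_, m3, hIN3, hUPf3, mkUP hx2 l3 (interior_subset (intP S hc5)) ?_⟩
      have h1 := hP S (c := x.1) hc5.le
      rw [hx1e] at h1
      have hN : h (0, 1) ≤ h 0 := S.toHF.flip.le_zero (bd_mem S.qbd)
      have hhp : h (1, 0) = - f (1, 0) := by linarith
      have hq0 : 0 ≤ f (0, 1) + h (0, 1) := S.nonneg _ (bd_mem S.qbd)
      have h2 : (1 - ξ) * h (0, 1) ≤ (1 - ξ) * h 0 :=
        mul_le_mul_of_nonneg_left hN (by linarith)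
      have h3 : 0 ≤ (h (0, 1) + f (1, 0) - D) * (1 - ξ) :=
        mul_nonneg (by rw [eD]; linarith) (by linarith)
      have h4 : 0 ≤ (a + D) * (1 - x.2) := mul_nonneg haD.le (by linarith)
      have h5 : α * ε3 ≤ x.2 * ε3 := mul_le_mul_of_nonneg_right hYα hε3.le
      have h6 : (η1 + ε1) * ξ ≤ η1 + ε1 := mul_le_of_le_one_right (by linarith) hξlt.le
      have h7 : h x = - f x := by linarith
      rw [hhp] at h1
      rw [h7]
      have h8 : (D - η1 - ε1) * ξ = D * ξ - (η1 + ε1) * ξ := by ring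
      have h9 : (h (0, 1) + f (1, 0) - D) * (1 - ξ) =
        (1 - ξ) * h (0, 1) + f (1, 0) - ξ * f (1, 0) - D + D * ξ := by ring
      rw [h8] at hss
      rw [h9] at h3
      have h10 : ξ * (-f (1, 0)) = - (ξ * f (1, 0)) := by ring
      rw [h10] at h1
      have h11' : x.2 * -ε3 = - (x.2 * ε3) := by ring
      rw [h11']
      linarith
    · right
      exact ⟨hnon, ⟨_, m3, hIN3, hUPf3⟩, ⟨_, m1, hIN1, hUPh1⟩⟩


/-- T7, with the normalisation `Y ≤ 1` on the second quadrant -/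
theorem s3_aux (S : Set1 B f h) (hr : f (1, 0) + h (1, 0) = 0) (ha : f (1, 0) < f 0)
    (hU : ∀ x ∈ B, f (1, 0) ≤ f x → |x.1| + |x.2| ≤ 1) (hΔ : f (0, 1) < f (1, 0))
    (hs : ∀ s : ℝ, 0 ≤ s → s * (f 0 - f (0, 1)) < f (1, 0) - f (0, 1) →
        UP B f (1, 0) (-1, s) 0 ∧ UP B f (1, 0) (-1, -s) 0)
    (hQ : ∀ x ∈ B, x.1 ≤ 0 → 0 ≤ x.2 → x.2 ≤ 1) : Good B f h := by
  have H := S.toHF
  have hpB := bd_mem S.pbd
  have hqB := bd_mem S.qbd
  obtain ⟨a, ea⟩ : ∃ a, a = f 0 - f (1, 0) := ⟨_, rfl⟩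
  obtain ⟨D, eD⟩ : ∃ D, D = f (1, 0) - f (0, 1) := ⟨_, rfl⟩
  have ha0 : 0 < a := by linarith
  have hD0 : 0 < D := by linarith
  have haD : 0 < a + D := by linarith
  obtain ⟨α, eα⟩ : ∃ α, α = a / (a + D) := ⟨_, rfl⟩
  have hα : α * (a + D) = a := by rw [eα]; exact div_mul_cancel₀ _ haD.ne'
  have hα0 : 0 < α := by rw [eα]; exact div_pos ha0 haD
  have hα1 : α < 1 := by rw [eα, div_lt_one haD]; linarith
  -- the gap
  have hbdc : IsClosed (bd B) := H.closed.inter isOpen_interior.isClosed_compl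
  have hRc : IsClosed (bd B ∩ ({x : E | x.1 ≤ 0} ∩ ({x : E | α ≤ x.2} ∩
      {x : E | 1 - α / 4 ≤ -x.1}))) :=
    hbdc.inter ((isClosed_le continuous_fst continuous_const).inter
      ((isClosed_le continuous_const continuous_snd).inter
        (isClosed_le continuous_const continuous_fst.neg)))
  obtain ⟨δ1, hδ1, hgap0⟩ := H.exists_gap hRc (M := f (1, 0)) (by
    rintro x hxB ⟨_, h1, h2, h3⟩
    by_contra hcon
    have h4 := hU x hxB (not_lt.1 hcon)
    have h1' : x.1 ≤ 0 := h1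
    have h2' : α ≤ x.2 := h2
    have h3' : 1 - α / 4 ≤ -x.1 := h3
    rw [abs_of_nonpos h1', abs_of_nonneg (by linarith)] at h4
    linarith)
  have hgap : ∀ x ∈ bd B, x.1 ≤ 0 → α ≤ x.2 → 1 - α / 4 ≤ -x.1 → f x ≤ f (1, 0) - δ1 :=
    fun x hx h1 h2 h3 => hgap0 x (bd_mem hx) ⟨hx, h1, h2, h3⟩
  -- the constants
  have haα : 0 < a * α := mul_pos ha0 hα0
  obtain ⟨ε3, hε3, h31, h32⟩ : ∃ ε3 : ℝ, 0 < ε3 ∧ 2 * ε3 ≤ δ1 ∧ 8 * ε3 ≤ a * α := by
    refine ⟨min (δ1 / 2) (a * α / 8), lt_min (by linarith) (by linarith), ?_, ?_⟩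
    · have := min_le_left (δ1 / 2) (a * α / 8); linarith
    · have := min_le_right (δ1 / 2) (a * α / 8); linarith
  have hαε : 0 < α * ε3 := mul_pos hα0 hε3
  obtain ⟨η1, hη, hη1, hη2, hη3⟩ : ∃ η1 : ℝ, 0 < η1 ∧ η1 ≤ D / 2 ∧ 4 * η1 ≤ α * ε3 ∧
      4 * η1 ≤ δ1 := by
    refine ⟨min (D / 2) (min (α * ε3 / 4) (δ1 / 4)),
      lt_min (by linarith) (lt_min (by linarith) (by linarith)), min_le_left _ _, ?_, ?_⟩
    · have h1 := min_le_right (D / 2) (min (α * ε3 / 4) (δ1 / 4))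
      have h2 := min_le_left (α * ε3 / 4) (δ1 / 4)
      linarith
    · have h1 := min_le_right (D / 2) (min (α * ε3 / 4) (δ1 / 4))
      have h2 := min_le_right (α * ε3 / 4) (δ1 / 4)
      linarith
  obtain ⟨s1, es1'⟩ : ∃ s1, s1 = (D - η1) / (a + D) := ⟨_, rfl⟩
  have es1 : (a + D) * s1 = D - η1 := by rw [es1']; exact mul_div_cancel₀ _ haD.ne'
  have hs1 : 0 < s1 := by rw [es1']; exact div_pos (by linarith) haD
  have hs1' : s1 < 1 := by rw [es1', div_lt_one haD]; linarith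
  -- full illumination at the four points
  have hFp : Full B f h (1, 0) (-1, s1) 0 := by
    have l1 : ((1, 0) : E) + (1 : ℝ) • ((-1, s1) : E) = (0, s1) := by simp
    have hc : |s1| < 1 := by rw [abs_of_pos hs1]; exact hs1'
    refine ⟨mkIN one_pos l1 (intQ S hc), ?_, mkUP one_pos l1 (interior_subset (intQ S hc)) ?_⟩
    · refine (hs s1 hs1.le ?_).1
      have h1 : s1 * (f 0 - f (0, 1)) = (a + D) * s1 := by rw [ea, eD]; ring
      rw [h1, es1, ← eD]
      linarith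
    · have h1 := hQ' S hc.le
      have h2 := S.MN
      linarith
  have hFp' : Full B f h (-1, 0) (1, -s1) 0 := by
    have h1 := Full.neg H hpB hFp
    have e1 : -((1, 0) : E) = (-1, 0) := by simp
    have e2 : -((-1, s1) : E) = (1, -s1) := by simp
    rwa [e1, e2] at h1
  have hFq : Full B f h (0, 1) (0, -1) ε3 := by
    have l1 : ((0, 1) : E) + (1 : ℝ) • ((0, -1) : E) = 0 := by ext <;> simp
    refine ⟨mkIN one_pos l1 S.int0, mkUP one_pos l1 H.zero_mem ?_, mkUP one_pos l1 H.zero_mem ?_⟩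
    · have h1 : a * α < a := mul_lt_of_lt_one_right ha0 hα1
      linarith
    · have h1 : h (0, 1) ≤ h 0 := H.flip.le_zero hqB
      linarith
  have hFq' : Full B f h (0, -1) (0, 1) ε3 := by
    have h1 := Full.neg H hqB hFq
    have e1 : -((0, 1) : E) = (0, -1) := by simp
    have e2 : -((0, -1) : E) = (0, 1) := by simp
    rwa [e1, e2] at h1
  have hpB' : ((-1, 0) : E) ∈ B := by
    have := H.sym _ hpB; simpa using this
  have hqB' : ((0, -1) : E) ∈ B := by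
    have := H.sym _ hqB; simpa using this
  obtain ⟨r1, hr1, hL1⟩ := loc1 H hpB hFp
  obtain ⟨r2, hr2, hL2⟩ := loc1 H hpB' hFp'
  obtain ⟨r3, hr3, hL3⟩ := loc1 H hqB hFq
  obtain ⟨r, hr0, hrr1, hrr3⟩ : ∃ r : ℝ, 0 < r ∧ r ≤ r1 ∧ r ≤ r3 :=
    ⟨min r1 r3, lt_min hr1 hr3, min_le_left _ _, min_le_right _ _⟩
  obtain ⟨κ, hκ0, hκ⟩ := exists_kappa S hr0
  obtain ⟨R, hR0, hR⟩ := H.exists_bound
  have haκ : 0 < a * κ := mul_pos ha0 hκ0
  have ha1s : 0 < a * (1 - s1) := mul_pos ha0 (by linarith)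
  obtain ⟨ε1, hε1, h11, h12, h13, h14, h15, h16, h17⟩ : ∃ ε1 : ℝ, 0 < ε1 ∧ 2 * ε1 < α * ε3 ∧
      2 * ε1 < δ1 ∧ ε1 ≤ a * (1 - s1) ∧ ε1 ≤ D / 2 ∧ ε1 < r1 ∧ ε1 < r2 ∧ ε1 * R < a * κ := by
    have hb7 : 0 < a * κ / (2 * R) := div_pos haκ (by linarith)
    set m : ℝ := min (α * ε3 / 4) (min (δ1 / 4) (min (a * (1 - s1)) (min (D / 2)
      (min (r1 / 2) (min (r2 / 2) (a * κ / (2 * R))))))) with hm
    have hm0 : 0 < m := by
      rw [hm]
      refine lt_min (by linarith) (lt_min (by linarith) (lt_min ha1s (lt_min (by linarith)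
        (lt_min (by linarith) (lt_min (by linarith) hb7)))))
    have q1 : m ≤ α * ε3 / 4 := min_le_left _ _
    have p1 : m ≤ _ := min_le_right (α * ε3 / 4) _
    have q2 : m ≤ δ1 / 4 := p1.trans (min_le_left _ _)
    have p2 : m ≤ _ := p1.trans (min_le_right _ _)
    have q3 : m ≤ a * (1 - s1) := p2.trans (min_le_left _ _)
    have p3 : m ≤ _ := p2.trans (min_le_right _ _)
    have q4 : m ≤ D / 2 := p3.trans (min_le_left _ _)
    have p4 : m ≤ _ := p3.trans (min_le_right _ _)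
    have q5 : m ≤ r1 / 2 := p4.trans (min_le_left _ _)
    have p5 : m ≤ _ := p4.trans (min_le_right _ _)
    have q6 : m ≤ r2 / 2 := p5.trans (min_le_left _ _)
    have q7 : m ≤ a * κ / (2 * R) := p5.trans (min_le_right _ _)
    refine ⟨m, hm0, by linarith, by linarith, q3, q4, by linarith, by linarith, ?_⟩
    calc m * R ≤ a * κ / (2 * R) * R := mul_le_mul_of_nonneg_right q7 hR0.le
      _ = a * κ / 2 := by field_simp
      _ < a * κ := by linarith
  -- the directions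
  set Ds : List (E × ℝ) := [((1, -s1), ε1), ((-1, s1), ε1), ((1, 1), ε1), ((-1, -1), ε1),
    ((0, -1), ε3), ((0, 1), ε3), ((0, 0), 1), ((0, 0), -1)] with hDs
  have m1 : (((1, -s1) : E), ε1) ∈ Ds := by simp [hDs]
  have m2 : (((-1, s1) : E), ε1) ∈ Ds := by simp [hDs]
  have m4 : (((-1, -1) : E), ε1) ∈ Ds := by simp [hDs]
  have m5 : (((0, -1) : E), ε3) ∈ Ds := by simp [hDs]
  have m6 : (((0, 1) : E), ε3) ∈ Ds := by simp [hDs]
  have m7 : (((0, 0) : E), (1 : ℝ)) ∈ Ds := by simp [hDs]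
  have m8 : (((0, 0) : E), (-1 : ℝ)) ∈ Ds := by simp [hDs]
  have hneg : ∀ d ∈ Ds, (-d.1, d.2) ∈ Ds := by
    intro d hd
    simp only [hDs, List.mem_cons, List.not_mem_nil, or_false] at hd
    rcases hd with rfl | rfl | rfl | rfl | rfl | rfl | rfl | rfl <;> simp [hDs]
  have nearp : ∀ x ∈ B, ‖x - (1, 0)‖ < r1 → Cov B f h Ds x := fun x hx hlt =>
    Or.inl ⟨_, m2, hL1 x hx hlt ε1 (by rw [sub_zero, abs_of_pos hε1]; exact h15)⟩
  have nearp' : ∀ x ∈ B, ‖x - (-1, 0)‖ < r2 → Cov B f h Ds x := fun x hx hlt =>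
    Or.inl ⟨_, m1, hL2 x hx hlt ε1 (by rw [sub_zero, abs_of_pos hε1]; exact h16)⟩
  have nearq : ∀ x ∈ B, ‖x - (0, 1)‖ < r3 → Cov B f h Ds x := fun x hx hlt =>
    Or.inl ⟨_, m5, hL3 x hx hlt ε3 (by rw [sub_self, abs_zero]; exact hr3)⟩
  have hupper : ∀ x ∈ bd B, 0 ≤ x.2 → Cov B f h Ds x := by
    intro x hx hx2
    have hxB := bd_mem hx
    rcases eq_or_lt_of_le hx2 with e2 | l2
    · rcases bdP S hx e2.symm with rfl | rfl
      · exact nearp _ hxB (by rw [sub_self, norm_zero]; exact hr1)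
      · exact nearp' _ hxB (by rw [sub_self, norm_zero]; exact hr2)
    · rcases lt_trichotomy x.1 0 with l1 | e1 | l1
      · exact quad2 S hr ha hΔ hQ ea eD hα hα0 hgap hε3 h31 h32 hs1 hs1' es1 hη hη1 hη2 hη3 hε1
          h11 h12 h13 h14 m1 m5 hx l1 l2
      · rcases bdQ S hx e1 with rfl | rfl
        · exact nearq _ hxB (by rw [sub_self, norm_zero]; exact hr3)
        · exact Or.inl ⟨_, m6, hFq'⟩
      · by_cases c1 : ‖x - (1, 0)‖ < r
        · exact nearp x hxB (lt_of_lt_of_le c1 hrr1)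
        by_cases c2 : ‖x - (0, 1)‖ < r
        · exact nearq x hxB (lt_of_lt_of_le c2 hrr3)
        have hk := hκ x hxB l1.le l2.le (not_lt.1 c1) (not_lt.1 c2)
        refine Or.inl ⟨_, m4, quad1 S ha hε1 (R := R) (κ := κ) ?_ ?_ hx l1 l2 hk hκ0⟩
        · intro y hy
          exact (le_abs_self _).trans (hR y hy).2
        · rw [← ea]; exact h17
  refine ⟨Ds, by simp [hDs], fun x hxB => ?_⟩
  by_cases hxi : x ∈ interior B
  · right
    have hz : ∀ t : ℝ, x + t • ((0, 0) : E) = x := by intro t; ext <;> simp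
    refine ⟨H.pos_int hxi, ⟨_, m8, H.in_of_int hxi _, mkUP one_pos (hz 1) hxB ?_⟩,
      ⟨_, m7, H.in_of_int hxi _, mkUP one_pos (hz 1) hxB ?_⟩⟩
    · linarith
    · linarith
  · have hx : x ∈ bd B := ⟨hxB, hxi⟩
    rcases le_or_gt 0 x.2 with h1 | h1
    · exact hupper x hx h1
    · have hx' := H.neg_bd hx
      have h2 := hupper (-x) hx' (by rw [Prod.snd_neg]; linarith)
      have h3 := Cov.neg H (bd_mem hx') hneg h2
      rwa [neg_neg] at h3


/-- reflection in the `q`-axis -/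
def reflX : E ≃ₗ[ℝ] E where
  toFun x := (-x.1, x.2)
  invFun x := (-x.1, x.2)
  map_add' x y := by
    ext
    · simp only [Prod.fst_add]; ring
    · simp only [Prod.snd_add]
  map_smul' c x := by
    ext
    · simp only [Prod.smul_fst, smul_eq_mul, RingHom.id_apply]; ring
    · simp only [Prod.smul_snd, smul_eq_mul, RingHom.id_apply]
  left_inv x := by simp
  right_inv x := by simp

theorem reflX_mk (a b : ℝ) : reflX ((a, b) : E) = (-a, b) := rfl

theorem reflX_symm_mk (a b : ℝ) : reflX.symm ((a, b) : E) = (-a, b) := rfl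

theorem s3 (S : Set1 B f h) (hr : f (1, 0) + h (1, 0) = 0) (ha : f (1, 0) < f 0)
    (hU : ∀ x ∈ B, f (1, 0) ≤ f x → |x.1| + |x.2| ≤ 1) (hΔ : f (0, 1) < f (1, 0))
    (hs : ∀ s : ℝ, 0 ≤ s → s * (f 0 - f (0, 1)) < f (1, 0) - f (0, 1) →
        UP B f (1, 0) (-1, s) 0 ∧ UP B f (1, 0) (-1, -s) 0) : Good B f h := by
  have H := S.toHF
  have hpB := bd_mem S.pbd
  have hqB := bd_mem S.qbd
  obtain ⟨l, hl1, hl⟩ := H.exists_support S.qbd
  have hlx : ∀ x : E, l x = x.1 * l (1, 0) + x.2 := by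
    intro x
    have hx : x = x.1 • ((1, 0) : E) + x.2 • ((0, 1) : E) := by ext <;> simp
    conv_lhs => rw [hx]
    rw [map_add, map_smul, map_smul, hl1, smul_eq_mul, smul_eq_mul, mul_one]
  rcases le_or_gt (l (1, 0)) 0 with hσ | hσ
  · refine s3_aux S hr ha hU hΔ hs fun x hx h1 h2 => ?_
    have h3 := hl x hx
    rw [hlx] at h3
    have h4 : 0 ≤ x.1 * l (1, 0) := mul_nonneg_of_nonpos_of_nonpos h1 hσ
    linarith
  have hfe : f (-1, 0) = f (1, 0) := by
    have := S.feven _ hpB; simpa using this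
  have hhe : h (-1, 0) = h (1, 0) := by
    have := S.heven _ hpB; simpa using this
  have f1 : (f ∘ reflX.symm) (1, 0) = f (1, 0) := by
    rw [Function.comp_apply, reflX_symm_mk, hfe]
  have h1 : (h ∘ reflX.symm) (1, 0) = h (1, 0) := by
    rw [Function.comp_apply, reflX_symm_mk, hhe]
  have f2 : (f ∘ reflX.symm) (0, 1) = f (0, 1) := by
    rw [Function.comp_apply, reflX_symm_mk, neg_zero]
  have h2 : (h ∘ reflX.symm) (0, 1) = h (0, 1) := by
    rw [Function.comp_apply, reflX_symm_mk, neg_zero]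
  have f0 : (f ∘ reflX.symm) 0 = f 0 := by
    rw [Function.comp_apply, map_zero]
  have hsy : ∀ y : E, reflX.symm (reflX y) = y := fun y => reflX.symm_apply_apply y
  have S' : Set1 (reflX '' B) (f ∘ reflX.symm) (h ∘ reflX.symm) :=
    { toHF := H.trans reflX
      pbd := by
        rw [bd_image]
        refine ⟨(-1, 0), ?_, by rw [reflX_mk, neg_neg]⟩
        have := H.neg_bd S.pbd
        simpa using this
      qbd := by
        rw [bd_image]
        exact ⟨(0, 1), S.qbd, by rw [reflX_mk, neg_zero]⟩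
      fmax := by
        intro x hx
        rw [bd_image] at hx
        obtain ⟨y, hy, rfl⟩ := hx
        rw [f1, Function.comp_apply, hsy]
        exact S.fmax y hy
      hmax := by
        intro x hx
        rw [bd_image] at hx
        obtain ⟨y, hy, rfl⟩ := hx
        rw [h2, Function.comp_apply, hsy]
        exact S.hmax y hy
      MN := by rw [f1, h2]; exact S.MN
      nd := by
        rintro x ⟨y, hy, rfl⟩ hx1 hx2
        have e1 : (reflX y).1 = -y.1 := rfl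
        have e2 : (reflX y).2 = y.2 := rfl
        rw [e1] at hx1
        rw [e2] at hx2
        rw [e1, e2, abs_neg]
        exact S.nd y hy (by intro hh; apply hx1; rw [hh, neg_zero]) hx2 }
  refine Good.trans reflX (s3_aux S' ?_ ?_ ?_ ?_ ?_ ?_)
  · rw [f1, h1]; exact hr
  · rw [f1, f0]; exact ha
  · rintro x ⟨y, hy, rfl⟩ hx1
    rw [f1, Function.comp_apply, hsy] at hx1
    have e1 : (reflX y).1 = -y.1 := rfl
    have e2 : (reflX y).2 = y.2 := rfl
    rw [e1, e2, abs_neg]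
    exact hU y hy hx1
  · rw [f1, f2]; exact hΔ
  · intro s hs0 hs1
    rw [f1, f2, f0] at hs1
    obtain ⟨u1, u2⟩ := hs s hs0 hs1
    have v1 := UP.neg H hpB u1
    have v2 := UP.neg H hpB u2
    rw [← UP.trans reflX] at v1 v2
    have e0 : reflX (-((1, 0) : E)) = (1, 0) := by
      rw [Prod.neg_mk, reflX_mk, neg_neg, neg_zero]
    have e1 : reflX (-((-1, s) : E)) = (-1, -s) := by
      rw [Prod.neg_mk, reflX_mk, neg_neg]
    have e2 : reflX (-((-1, -s) : E)) = (-1, s) := by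
      rw [Prod.neg_mk, reflX_mk, neg_neg, neg_neg]
    rw [e0, e1] at v1
    rw [e0, e2] at v2
    exact ⟨v2, v1⟩
  · rintro x ⟨y, hy, rfl⟩ hx1 hx2
    have e1 : (reflX y).1 = -y.1 := rfl
    have e2 : (reflX y).2 = y.2 := rfl
    rw [e1] at hx1
    rw [e2]
    have h3 := hl y hy
    rw [hlx] at h3
    have h4 : 0 ≤ y.1 * l (1, 0) := mul_nonneg (by linarith) hσ.le
    linarith

end Pool.Agent.Lib.MP_5e7226_co.HT
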