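import Pool.Agent.Lib.MP_5e7226_co.HT.PT4
import Pool.Agent.Lib.MP_5e7226_co.HT.PT2c
/-! Half-turn project, task T8a: scheme 2. -/

set_option autoImplicit false

open Set Filter Topology

namespace Pool.Agent.Lib.MP_5e7226_co.HT

open Pool.Agent.Lib.MP_5e7226_co.HT

variable {B : Set E} {f h : E → ℝ}

/-- S2: `q` is not on the rim (no maximiser of `h` on the boundary is) -/
theorem s2 (S : Set1 B f h) (hr : f (1, 0) + h (1, 0) = 0)
    {l k : E →ₗ[ℝ] ℝ} {u v : E} (hc : Corner B (1, 0) l k u v)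
    (hQ : ∀ x ∈ bd B, f x + h x = 0 → h x < h (0, 1))
    (hseg : ∀ t : ℝ, 0 < t → t < 1 → ((t, 1 - t) : E) ∈ interior B)
    (hUG : UG B f h (1, 0)) (hq : f (0, 1) < f (1, 0) ∨ f 0 = f (1, 0)) : Good B f h := by
  have H : HF B f h := S.toHF
  obtain ⟨a, W, hW, hG⟩ := hUG
  have hpB : ((1, 0) : E) ∈ B := S.pbd.1
  have hqB : ((0, 1) : E) ∈ B := S.qbd.1
  have negp : -((1, 0) : E) = (-1, 0) := by ext <;> simp
  have negq : -((0, 1) : E) = (0, -1) := by ext <;> simp
  have hpB' : ((-1, 0) : E) ∈ B := by rw [← negp]; exact H.sym _ hpB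
  have hqB' : ((0, -1) : E) ∈ B := by rw [← negq]; exact H.sym _ hqB
  have hfp' : f (-1, 0) = f (1, 0) := by rw [← negp]; exact H.feven _ hpB
  have hhp' : h (-1, 0) = h (1, 0) := by rw [← negp]; exact H.heven _ hpB
  have hfq' : f (0, -1) = f (0, 1) := by rw [← negq]; exact H.feven _ hqB
  have hhq' : h (0, -1) = h (0, 1) := by rw [← negq]; exact H.heven _ hqB
  have hM0 : f (1, 0) ≤ f 0 := H.le_zero hpB
  -- the full illumination of the rim points on the level set, by the UG pair
  have hGfull : ∀ x ∈ B, f x + h x = 0 → f (1, 0) ≤ f x →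
      (x ∈ interior B ∨ f 0 = f (1, 0) ∨ x = (1, 0) ∨ x = -(1, 0)) →
      ∃ b : E, (b = a ∨ b = -a) ∧ Full B f h x b (-W) := by
    intro x hx hrx hfx hcase
    obtain ⟨b, hb, h1, h2, h3⟩ := hG x hx hfx hcase
    exact ⟨b, hb, h1, h2, by rw [neg_neg]; exact h3 hrx⟩
  set D : ℝ → List (E × ℝ) := fun ε => MIDS ++ [(a, -W), (-a, -W), (v - ε • u, 1 / ε),
    (-(v - ε • u), 1 / ε)] with hD
  have memM : ∀ ε : ℝ, ∀ d ∈ MIDS, d ∈ D ε := fun ε d hd =>
    List.mem_append_left _ hd
  have memG : ∀ ε : ℝ, ∀ b : E, (b = a ∨ b = -a) → ((b, -W) : E × ℝ) ∈ D ε := by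
    intro ε b hb
    rw [hD]
    rcases hb with rfl | rfl <;> simp
  have memS : ∀ ε : ℝ, ∀ s : ℝ, (s = 1 ∨ s = -1) → ((s • (v - ε • u), 1 / ε) : E × ℝ) ∈ D ε := by
    intro ε s hs
    rw [hD]
    rcases hs with rfl | rfl
    · rw [one_smul]; simp
    · rw [neg_one_smul]; simp
  refine good_of_loc H D (fun ε => by simp [hD, MIDS]) ?_
  intro x hx
  by_cases hxp : x = (1, 0) ∨ x = -(1, 0)
  · -- near `±p`
    have hfx : f x = f (1, 0) := by
      rcases hxp with rfl | rfl
      · rfl
      · exact H.feven _ hpB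
    have hhx : h x = h (1, 0) := by
      rcases hxp with rfl | rfl
      · rfl
      · exact H.heven _ hpB
    obtain ⟨b, hb, hF⟩ := hGfull x hx (by rw [hfx, hhx]; exact hr) hfx.ge
      (Or.inr (Or.inr hxp))
    obtain ⟨r, hr0, hloc⟩ := loc1 H hx hF
    refine ⟨r, hr0, fun z hz hzx ε _ _ => Or.inl ⟨(b, -W), memG ε b hb, ?_⟩⟩
    exact hloc z hz hzx (-W) (by simpa using hr0)
  · push Not at hxp
    obtain ⟨r, hr0, s, hs, hst⟩ := corner_steep H hc hx hxp.1 hxp.2
    refine ⟨r, hr0, fun z hz hzx ε hε hεr => ?_⟩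
    obtain ⟨i1, i2, i3⟩ := hst z hz hzx ε hε hεr
    by_cases hrim : f z + h z = 0
    · -- rim
      left
      have hzbd : z ∈ bd B := H.rim_bd hz hrim
      have hhz := hQ z hzbd hrim
      have hfz : f z ≤ f (1, 0) := S.fmax z hzbd
      by_cases hzp : z = (1, 0) ∨ z = -(1, 0)
      · have hfz' : f z = f (1, 0) := by
          rcases hzp with rfl | rfl
          · rfl
          · exact H.feven _ hpB
        obtain ⟨b, hb, hF⟩ := hGfull z hz hrim hfz'.ge (Or.inr (Or.inr hzp))
        exact ⟨(b, -W), memG ε b hb, hF⟩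
      · push Not at hzp
        by_cases hcase : f z < f (1, 0) ∨ f (1, 0) < f 0
        · obtain ⟨d, hd, hF⟩ := mids_full S hzbd hzp.1 (by rw [← negp]; exact hzp.2)
            (by rintro rfl; exact lt_irrefl _ hhz)
            (by rintro rfl; rw [hhq'] at hhz; exact lt_irrefl _ hhz) hcase (Or.inl hhz)
          exact ⟨d, memM ε d hd, hF⟩
        · push Not at hcase
          obtain ⟨b, hb, hF⟩ := hGfull z hz hrim hcase.1
            (Or.inr (Or.inl (le_antisymm hcase.2 hM0)))
          exact ⟨(b, -W), memG ε b hb, hF⟩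
    · -- not on the rim
      right
      have hpos : 0 < f z + h z := lt_of_le_of_ne (H.nonneg z hz) (Ne.symm hrim)
      refine ⟨hpos, ?_, ⟨_, memS ε s hs, i1, i3⟩⟩
      have hzp1 : z ≠ (1, 0) := by rintro rfl; exact hrim hr
      have hzp2 : z ≠ (-1, 0) := by
        rintro rfl; rw [hfp', hhp'] at hrim; exact hrim hr
      -- the `f` side
      have hUGcase : f (1, 0) ≤ f z →
          (z ∈ interior B ∨ f 0 = f (1, 0) ∨ z = (1, 0) ∨ z = -(1, 0)) →
          ∃ d ∈ D ε, IN B z d.1 ∧ UP B f z d.1 d.2 := by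
        intro h1 h2
        obtain ⟨b, hb, j1, j2, _⟩ := hG z hz h1 h2
        exact ⟨(b, -W), memG ε b hb, j1, j2⟩
      by_cases hlt : f z < f (1, 0)
      · by_cases hzq : z = (0, 1)
        · subst hzq
          refine ⟨((1, -1), 0), memM ε _ (by simp [MIDS]), ?_, ?_⟩
          · refine ⟨1 / 2, by norm_num, ?_⟩
            have := hseg (1 / 2) (by norm_num) (by norm_num)
            have e : ((0, 1) : E) + (1 / 2 : ℝ) • ((1, -1) : E) = (1 / 2, 1 - 1 / 2) := by
              ext <;> simp <;> norm_num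
            rw [e]; exact this
          · refine ⟨1 / 2, by norm_num, ?_, ?_⟩
            · have := hseg (1 / 2) (by norm_num) (by norm_num)
              have e : ((0, 1) : E) + (1 / 2 : ℝ) • ((1, -1) : E) = (1 / 2, 1 - 1 / 2) := by
                ext <;> simp <;> norm_num
              rw [e]; exact interior_subset this
            · have e : ((0, 1) : E) + (1 / 2 : ℝ) • ((1, -1) : E) =
                  (1 / 2 : ℝ) • ((1, 0) : E) + (1 / 2 : ℝ) • ((0, 1) : E) := by
                ext <;> simp <;> norm_num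
              have h2 := H.fconc.2 hpB hqB (show (0 : ℝ) ≤ 1 / 2 by norm_num)
                (show (0 : ℝ) ≤ 1 / 2 by norm_num) (by norm_num)
              rw [← e] at h2
              simp only [smul_eq_mul] at h2
              linarith
        · by_cases hzq' : z = (0, -1)
          · subst hzq'
            have e : ((0, -1) : E) + (1 / 2 : ℝ) • ((-1, 1) : E) = -(1 / 2, 1 - 1 / 2) := by
              ext <;> simp <;> norm_num
            have hin : ((0, -1) : E) + (1 / 2 : ℝ) • ((-1, 1) : E) ∈ interior B := by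
              rw [e]
              exact H.neg_int (hseg (1 / 2) (by norm_num) (by norm_num))
            refine ⟨((-1, 1), 0), memM ε _ (by simp [MIDS]), ⟨1 / 2, by norm_num, hin⟩,
              ⟨1 / 2, by norm_num, interior_subset hin, ?_⟩⟩
            have e : ((0, -1) : E) + (1 / 2 : ℝ) • ((-1, 1) : E) =
                (1 / 2 : ℝ) • ((-1, 0) : E) + (1 / 2 : ℝ) • ((0, -1) : E) := by
              ext <;> simp <;> norm_num
            have h2 := H.fconc.2 hpB' hqB' (show (0 : ℝ) ≤ 1 / 2 by norm_num)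
              (show (0 : ℝ) ≤ 1 / 2 by norm_num) (by norm_num)
            rw [← e] at h2
            simp only [smul_eq_mul] at h2
            linarith
          · obtain ⟨d, hd, j1, j2⟩ := mids_f S hz hzp1 hzp2 hzq hzq' (Or.inl hlt)
            exact ⟨d, memM ε d hd, j1, j2⟩
      · push Not at hlt
        by_cases hcase : z ∈ interior B ∨ f 0 = f (1, 0)
        · exact hUGcase hlt (by tauto)
        · push Not at hcase
          have hzbd : z ∈ bd B := ⟨hz, hcase.1⟩
          have ha : f (1, 0) < f 0 := lt_of_le_of_ne hM0 (Ne.symm hcase.2)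
          have hfz : f z = f (1, 0) := le_antisymm (S.fmax z hzbd) hlt
          have hfq : f (0, 1) < f (1, 0) := by
            rcases hq with h1 | h1
            · exact h1
            · exact absurd h1 hcase.2
          obtain ⟨d, hd, j1, j2⟩ := mids_f S hz hzp1 hzp2 (by rintro rfl; linarith)
            (by rintro rfl; linarith) (Or.inr ⟨hzbd, ha⟩)
          exact ⟨d, memM ε d hd, j1, j2⟩

end Pool.Agent.Lib.MP_5e7226_co.HT
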