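import Pool.Agent.Lib.MP_5e7226_co.HT.PT4
import Pool.Agent.Lib.MP_5e7226_co.HT.PT2c
/-! Half-turn case, task T8b: schemes 4, 5, 6. -/

set_option autoImplicit false

open Set Filter Topology

namespace Pool.Agent.Lib.MP_5e7226_co.HT

variable {B : Set E} {f h : E → ℝ}

/-- a `UG` direction gives full illumination of a rim point -/
lemma t8_UGfull (_H : HF B f h) {p : E} {u : E} {W : ℝ}
    (hU : ∀ x ∈ B, f p ≤ f x → (x ∈ interior B ∨ f 0 = f p ∨ x = p ∨ x = -p) →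
      ∃ v : E, (v = u ∨ v = -u) ∧ IN B x v ∧ UP B f x v (-W) ∧ (f x + h x = 0 → UP B h x v W))
    {x : E} (hx : x ∈ B) (hfx : f p ≤ f x) (hc : f 0 = f p ∨ x = p ∨ x = -p)
    (hr : f x + h x = 0) {D : List (E × ℝ)} (hD : (u, -W) ∈ D) (hD' : (-u, -W) ∈ D) :
    ∃ d ∈ D, Full B f h x d.1 d.2 := by
  obtain ⟨v, hv, h1, h2, h3⟩ := hU x hx hfx (Or.inr hc)
  have h4 := h3 hr
  rcases hv with rfl | rfl
  · exact ⟨(v, -W), hD, h1, h2, by simpa using h4⟩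
  · exact ⟨(-u, -W), hD', h1, h2, by simpa using h4⟩

lemma t8_UGfull' (_H : HF B f h) {q : E} {u : E} {W : ℝ}
    (hU : ∀ x ∈ B, h q ≤ h x → (x ∈ interior B ∨ h 0 = h q ∨ x = q ∨ x = -q) →
      ∃ v : E, (v = u ∨ v = -u) ∧ IN B x v ∧ UP B h x v (-W) ∧ (h x + f x = 0 → UP B f x v W))
    {x : E} (hx : x ∈ B) (hfx : h q ≤ h x) (hc : h 0 = h q ∨ x = q ∨ x = -q)
    (hr : f x + h x = 0) {D : List (E × ℝ)} (hD : (u, W) ∈ D) (hD' : (-u, W) ∈ D) :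
    ∃ d ∈ D, Full B f h x d.1 d.2 := by
  obtain ⟨v, hv, h1, h2, h3⟩ := hU x hx hfx (Or.inr hc)
  have h4 := h3 (by linarith)
  rcases hv with rfl | rfl
  · exact ⟨(v, W), hD, h1, h4, h2⟩
  · exact ⟨(-u, W), hD', h1, h4, h2⟩

/-- the `f`-side of a nonrim point from `MIDS` and a `UG` pair -/
lemma t8_fside (S : Set1 B f h) {u : E} {W : ℝ}
    (hU : ∀ x ∈ B, f (1, 0) ≤ f x → (x ∈ interior B ∨ f 0 = f (1, 0) ∨ x = (1, 0) ∨
      x = -((1, 0) : E)) →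
      ∃ v : E, (v = u ∨ v = -u) ∧ IN B x v ∧ UP B f x v (-W) ∧ (f x + h x = 0 → UP B h x v W))
    {x : E} (hx : x ∈ B) (hp : x ≠ (1, 0)) (hp' : x ≠ (-1, 0))
    (hq : x ≠ (0, 1)) (hq' : x ≠ (0, -1)) {D : List (E × ℝ)} (hM : ∀ d ∈ MIDS, d ∈ D)
    (hD : (u, -W) ∈ D) (hD' : (-u, -W) ∈ D) :
    ∃ d ∈ D, IN B x d.1 ∧ UP B f x d.1 d.2 := by
  have hf0 : f (1, 0) ≤ f 0 := S.toHF.le_zero S.pbd.1
  by_cases h1 : f x < f (1, 0)
  · obtain ⟨d, hd, hh⟩ := mids_f S hx hp hp' hq hq' (Or.inl h1)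
    exact ⟨d, hM d hd, hh⟩
  · have h2 : f (1, 0) ≤ f x := not_lt.1 h1
    by_cases h3 : x ∈ interior B ∨ f 0 = f (1, 0)
    · obtain ⟨v, hv, h5, h6, -⟩ := hU x hx h2 (by tauto)
      rcases hv with rfl | rfl
      · exact ⟨(v, -W), hD, h5, h6⟩
      · exact ⟨(-u, -W), hD', h5, h6⟩
    · have h4 : x ∉ interior B := fun h => h3 (Or.inl h)
      have h5 : f (1, 0) < f 0 := lt_of_le_of_ne hf0 (fun h => h3 (Or.inr h.symm))
      obtain ⟨d, hd, hh⟩ := mids_f S hx hp hp' hq hq' (Or.inr ⟨⟨hx, h4⟩, h5⟩)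
      exact ⟨d, hM d hd, hh⟩

lemma t8_hside (S : Set1 B f h) {u : E} {W : ℝ}
    (hU : ∀ x ∈ B, h (0, 1) ≤ h x → (x ∈ interior B ∨ h 0 = h (0, 1) ∨ x = (0, 1) ∨
      x = -((0, 1) : E)) →
      ∃ v : E, (v = u ∨ v = -u) ∧ IN B x v ∧ UP B h x v (-W) ∧ (h x + f x = 0 → UP B f x v W))
    {x : E} (hx : x ∈ B) (hp : x ≠ (1, 0)) (hp' : x ≠ (-1, 0))
    (hq : x ≠ (0, 1)) (hq' : x ≠ (0, -1)) {D : List (E × ℝ)} (hM : ∀ d ∈ MIDS, d ∈ D)
    (hD : (u, W) ∈ D) (hD' : (-u, W) ∈ D) :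
    ∃ d ∈ D, IN B x d.1 ∧ UP B h x d.1 (-d.2) := by
  have hf0 : h (0, 1) ≤ h 0 := S.toHF.flip.le_zero S.qbd.1
  by_cases h1 : h x < h (0, 1)
  · obtain ⟨d, hd, hh⟩ := mids_h S hx hp hp' hq hq' (Or.inl h1)
    exact ⟨d, hM d hd, hh⟩
  · have h2 : h (0, 1) ≤ h x := not_lt.1 h1
    by_cases h3 : x ∈ interior B ∨ h 0 = h (0, 1)
    · obtain ⟨v, hv, h5, h6, -⟩ := hU x hx h2 (by tauto)
      rcases hv with rfl | rfl
      · exact ⟨(v, W), hD, h5, h6⟩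
      · exact ⟨(-u, W), hD', h5, h6⟩
    · have h4 : x ∉ interior B := fun h => h3 (Or.inl h)
      have h5 : h (0, 1) < h 0 := lt_of_le_of_ne hf0 (fun h => h3 (Or.inr h.symm))
      obtain ⟨d, hd, hh⟩ := mids_h S hx hp hp' hq hq' (Or.inr ⟨⟨hx, h4⟩, h5⟩)
      exact ⟨d, hM d hd, hh⟩

lemma t8_npB (S : Set1 B f h) : ((-1, 0) : E) ∈ B := by
  have := S.sym _ S.pbd.1
  simpa using this

lemma t8_nqB (S : Set1 B f h) : ((0, -1) : E) ∈ B := by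
  have := S.sym _ S.qbd.1
  simpa using this

lemma t8_fn (S : Set1 B f h) : f (-1, 0) = f (1, 0) := by
  have := S.feven _ S.pbd.1
  simpa using this

lemma t8_hn (S : Set1 B f h) : h (-1, 0) = h (1, 0) := by
  have := S.heven _ S.pbd.1
  simpa using this

lemma t8_fnq (S : Set1 B f h) : f (0, -1) = f (0, 1) := by
  have := S.feven _ S.qbd.1
  simpa using this

lemma t8_hnq (S : Set1 B f h) : h (0, -1) = h (0, 1) := by
  have := S.heven _ S.qbd.1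
  simpa using this

theorem s4 (S : Set1 B f h) (hrp : f (1, 0) + h (1, 0) = 0) (hrq : f (0, 1) + h (0, 1) = 0)
    (ha : f (1, 0) < f 0) (hb : h (0, 1) < h 0)
    (hα : ∃ x ∈ B, f (1, 0) ≤ f x ∧ 1 < |x.1| + |x.2|) : Good B f h := by
  have H := S.toHF
  obtain ⟨⟨dp, hdp, hfp⟩, ⟨dp', hdp', hfp'⟩⟩ := alpha S hrp ha hα
  have hqfull : Full B f h (0, 1) (0, -1) 0 := by
    have hhalf : |(1 / 2 : ℝ)| < 1 := by rw [abs_of_pos] <;> norm_num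
    have hi := H.smul_int S.qbd.1 hhalf
    have e : ((0, 1) : E) + (1 / 2 : ℝ) • ((0, -1) : E) = (1 / 2 : ℝ) • ((0, 1) : E) := by
      simp only [Prod.smul_mk, smul_eq_mul, Prod.mk_add_mk, Prod.mk.injEq]
      constructor <;> norm_num
    have habs : |(1 / 2 : ℝ)| = 1 / 2 := abs_of_pos (by norm_num)
    refine ⟨⟨1 / 2, by norm_num, by rw [e]; exact hi⟩,
      ⟨1 / 2, by norm_num, by rw [e]; exact interior_subset hi, ?_⟩,
      ⟨1 / 2, by norm_num, by rw [e]; exact interior_subset hi, ?_⟩⟩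
    · rw [e]
      have h1 := H.ray S.qbd.1 hhalf.le
      rw [habs] at h1
      have h2 := S.fmax _ S.qbd
      linarith
    · rw [e]
      have h1 := H.flip.ray S.qbd.1 hhalf.le
      rw [habs] at h1
      linarith
  have hqfull' : Full B f h (0, -1) (0, 1) 0 := by
    have := hqfull.neg H S.qbd.1
    simpa using this
  refine ⟨MIDS ++ [((0, 0), 1), ((0, 0), -1), ((0, -1), 0), ((0, 1), 0)], by simp [MIDS], ?_⟩
  intro x hx
  have hM : ∀ d ∈ MIDS, d ∈ MIDS ++ [(((0, 0) : E), (1 : ℝ)), ((0, 0), -1), ((0, -1), 0),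
      ((0, 1), 0)] := fun d hd => List.mem_append_left _ hd
  by_cases h1 : x = (1, 0)
  · subst h1
    exact Or.inl ⟨dp, hM _ hdp, hfp⟩
  by_cases h2 : x = (-1, 0)
  · subst h2
    exact Or.inl ⟨dp', hM _ hdp', hfp'⟩
  by_cases h3 : x = (0, 1)
  · subst h3
    exact Or.inl ⟨((0, -1), 0), by simp, hqfull⟩
  by_cases h4 : x = (0, -1)
  · subst h4
    exact Or.inl ⟨((0, 1), 0), by simp, hqfull'⟩
  by_cases h5 : x ∈ interior B
  · right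
    refine ⟨H.pos_int h5, ⟨((0, 0), -1), by simp, H.in_of_int h5 _, ⟨1, one_pos, ?_, ?_⟩⟩,
      ⟨((0, 0), 1), by simp, H.in_of_int h5 _, ⟨1, one_pos, ?_, ?_⟩⟩⟩
    · have e : x + (1 : ℝ) • ((0, 0) : E) = x := by simp
      rw [e]
      exact hx
    · have e : x + (1 : ℝ) • ((0, 0) : E) = x := by simp
      rw [e]
      linarith
    · have e : x + (1 : ℝ) • ((0, 0) : E) = x := by simp
      rw [e]
      exact hx
    · have e : x + (1 : ℝ) • ((0, 0) : E) = x := by simp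
      rw [e]
      linarith
  · obtain ⟨d, hd, hf⟩ := mids_full S ⟨hx, h5⟩ h1 h2 h3 h4 (Or.inr ha) (Or.inr hb)
    exact Or.inl ⟨d, hM d hd, hf⟩

theorem s5 (S : Set1 B f h) (hrp : f (1, 0) + h (1, 0) = 0) (hrq : f (0, 1) + h (0, 1) = 0)
    (hU : UG B f h (1, 0)) (hV : UG B h f (0, 1)) : Good B f h := by
  have H := S.toHF
  obtain ⟨u, W, hW, hU⟩ := hU
  obtain ⟨u', W', hW', hV⟩ := hV
  have hf0 : f (1, 0) ≤ f 0 := H.le_zero S.pbd.1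
  have hh0 : h (0, 1) ≤ h 0 := H.flip.le_zero S.qbd.1
  refine ⟨MIDS ++ [(u, -W), (-u, -W), (u', W'), (-u', W')], by simp [MIDS], ?_⟩
  intro x hx
  have hM : ∀ d ∈ MIDS, d ∈ MIDS ++ [(u, -W), (-u, -W), (u', W'), (-u', W')] :=
    fun d hd => List.mem_append_left _ hd
  have hD1 : (u, -W) ∈ MIDS ++ [(u, -W), (-u, -W), (u', W'), (-u', W')] := by simp
  have hD2 : (-u, -W) ∈ MIDS ++ [(u, -W), (-u, -W), (u', W'), (-u', W')] := by simp
  have hD3 : (u', W') ∈ MIDS ++ [(u, -W), (-u, -W), (u', W'), (-u', W')] := by simp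
  have hD4 : (-u', W') ∈ MIDS ++ [(u, -W), (-u, -W), (u', W'), (-u', W')] := by simp
  by_cases h1 : x = (1, 0)
  · subst h1
    exact Or.inl (t8_UGfull H hU hx le_rfl (Or.inr (Or.inl rfl)) hrp hD1 hD2)
  by_cases h2 : x = (-1, 0)
  · subst h2
    refine Or.inl (t8_UGfull H hU hx (t8_fn S).ge (Or.inr (Or.inr (by simp))) ?_ hD1 hD2)
    rw [t8_fn S, t8_hn S, hrp]
  by_cases h3 : x = (0, 1)
  · subst h3
    exact Or.inl (t8_UGfull' H hV hx le_rfl (Or.inr (Or.inl rfl)) hrq hD3 hD4)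
  by_cases h4 : x = (0, -1)
  · subst h4
    refine Or.inl (t8_UGfull' H hV hx (t8_hnq S).ge (Or.inr (Or.inr (by simp))) ?_ hD3 hD4)
    rw [t8_fnq S, t8_hnq S, hrq]
  by_cases h5 : f x + h x = 0
  · left
    have hbd := H.rim_bd hx h5
    by_cases h6 : f (1, 0) ≤ f x ∧ f 0 = f (1, 0)
    · exact t8_UGfull H hU hx h6.1 (Or.inl h6.2) h5 hD1 hD2
    by_cases h7 : h (0, 1) ≤ h x ∧ h 0 = h (0, 1)
    · exact t8_UGfull' H hV hx h7.1 (Or.inl h7.2) h5 hD3 hD4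
    have h8 : f x < f (1, 0) ∨ f (1, 0) < f 0 := by
      by_contra hcon
      push Not at hcon
      exact h6 ⟨hcon.1, le_antisymm hcon.2 hf0⟩
    have h9 : h x < h (0, 1) ∨ h (0, 1) < h 0 := by
      by_contra hcon
      push Not at hcon
      exact h7 ⟨hcon.1, le_antisymm hcon.2 hh0⟩
    obtain ⟨d, hd, hf⟩ := mids_full S hbd h1 h2 h3 h4 h8 h9
    exact ⟨d, hM d hd, hf⟩
  · right
    refine ⟨lt_of_le_of_ne (H.nonneg x hx) (Ne.symm h5), ?_, ?_⟩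
    · exact t8_fside S hU hx h1 h2 h3 h4 hM hD1 hD2
    · exact t8_hside S hV hx h1 h2 h3 h4 hM hD3 hD4

theorem s6 (S : Set1 B f h) (hrp : f (1, 0) + h (1, 0) = 0) (hrq : f (0, 1) + h (0, 1) = 0)
    (hU : UG B f h (1, 0)) (hb : h (0, 1) < h 0)
    (hα : ∃ x ∈ B, h (0, 1) ≤ h x ∧ 1 < |x.1| + |x.2|) : Good B f h := by
  have H := S.toHF
  obtain ⟨⟨dq, hdq, hfq⟩, ⟨dq', hdq', hfq'⟩⟩ := alpha' S hrq hb hα
  obtain ⟨u, W, hW, hU⟩ := hU
  have hf0 : f (1, 0) ≤ f 0 := H.le_zero S.pbd.1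
  refine ⟨MIDS ++ [(u, -W), (-u, -W), ((0, 0), 1)], by simp [MIDS], ?_⟩
  intro x hx
  have hM : ∀ d ∈ MIDS, d ∈ MIDS ++ [(u, -W), (-u, -W), (((0, 0) : E), (1 : ℝ))] :=
    fun d hd => List.mem_append_left _ hd
  have hD1 : (u, -W) ∈ MIDS ++ [(u, -W), (-u, -W), (((0, 0) : E), (1 : ℝ))] := by simp
  have hD2 : (-u, -W) ∈ MIDS ++ [(u, -W), (-u, -W), (((0, 0) : E), (1 : ℝ))] := by simp
  have hD3 : (((0, 0) : E), (1 : ℝ)) ∈ MIDS ++ [(u, -W), (-u, -W), (((0, 0) : E), (1 : ℝ))] := by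
    simp
  by_cases h1 : x = (1, 0)
  · subst h1
    exact Or.inl (t8_UGfull H hU hx le_rfl (Or.inr (Or.inl rfl)) hrp hD1 hD2)
  by_cases h2 : x = (-1, 0)
  · subst h2
    refine Or.inl (t8_UGfull H hU hx (t8_fn S).ge (Or.inr (Or.inr (by simp))) ?_ hD1 hD2)
    rw [t8_fn S, t8_hn S, hrp]
  by_cases h3 : x = (0, 1)
  · subst h3
    exact Or.inl ⟨dq, hM _ hdq, hfq⟩
  by_cases h4 : x = (0, -1)
  · subst h4
    exact Or.inl ⟨dq', hM _ hdq', hfq'⟩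
  by_cases h5 : f x + h x = 0
  · left
    have hbd := H.rim_bd hx h5
    by_cases h6 : f (1, 0) ≤ f x ∧ f 0 = f (1, 0)
    · exact t8_UGfull H hU hx h6.1 (Or.inl h6.2) h5 hD1 hD2
    have h8 : f x < f (1, 0) ∨ f (1, 0) < f 0 := by
      by_contra hcon
      push Not at hcon
      exact h6 ⟨hcon.1, le_antisymm hcon.2 hf0⟩
    obtain ⟨d, hd, hf⟩ := mids_full S hbd h1 h2 h3 h4 h8 (Or.inr hb)
    exact ⟨d, hM d hd, hf⟩
  · right
    refine ⟨lt_of_le_of_ne (H.nonneg x hx) (Ne.symm h5), ?_, ?_⟩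
    · exact t8_fside S hU hx h1 h2 h3 h4 hM hD1 hD2
    · by_cases h6 : x ∈ interior B
      · refine ⟨((0, 0), 1), hD3, H.in_of_int h6 _, ⟨1, one_pos, ?_, ?_⟩⟩
        · have e : x + (1 : ℝ) • ((0, 0) : E) = x := by simp
          rw [e]
          exact hx
        · have e : x + (1 : ℝ) • ((0, 0) : E) = x := by simp
          rw [e]
          linarith
      · obtain ⟨d, hd, hf⟩ := mids_h S hx h1 h2 h3 h4 (Or.inr ⟨⟨hx, h6⟩, hb⟩)
        exact ⟨d, hM d hd, hf⟩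

end Pool.Agent.Lib.MP_5e7226_co.HT
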