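import Pool.Agent.Lib.MP_5e7226_co.HT.PT2c
/-! Half-turn project, task T3: the flat top and the flat rim. -/

set_option autoImplicit false

open Set Filter Topology

namespace Pool.Agent.Lib.MP_5e7226_co.HT

open Pool.Agent.Lib.MP_5e7226_co.HT

variable {B : Set E} {f h : E → ℝ}

/-- Four horizontal directions which lead from every point of `B` into the interior. -/
theorem cross (H : HF B f h) : ∃ v y : E, ∀ x ∈ B,
    ∃ e : E, (e = v ∨ e = -v ∨ e = y ∨ e = -y) ∧ IN B x e := by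
  obtain ⟨y, hy, hmax⟩ := H.cpt.exists_isMaxOn (f := fun x : E => x.1 ^ 2 + x.2 ^ 2)
    ⟨0, H.zero_mem⟩ (by fun_prop)
  have hmax' : ∀ x ∈ B, x.1 ^ 2 + x.2 ^ 2 ≤ y.1 ^ 2 + y.2 ^ 2 := fun x hx => hmax hx
  -- `y` is not zero
  have hy0 : 0 < y.1 ^ 2 + y.2 ^ 2 := by
    obtain ⟨t, ht, htB⟩ := H.in_of_int H.int0 ((1, 0) : E)
    have h1 := hmax' _ (interior_subset htB)
    have h2 : (0 : E) + t • ((1, 0) : E) = (t, 0) := by ext <;> simp
    rw [h2] at h1
    have : 0 < t ^ 2 := by positivity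
    simp only at h1
    nlinarith
  refine ⟨(-y.2, y.1), y, fun x hx => ?_⟩
  by_cases h1 : x = y
  · refine ⟨-y, by tauto, 1, one_pos, ?_⟩
    rw [h1, one_smul, add_neg_cancel]
    exact H.int0
  by_cases h2 : x = -y
  · refine ⟨y, by tauto, 1, one_pos, ?_⟩
    rw [h2, one_smul, neg_add_cancel]
    exact H.int0
  have hxm := hmax' x hx
  have hne1 : 0 < (x.1 - y.1) ^ 2 + (x.2 - y.2) ^ 2 := by
    by_contra hcon
    push Not at hcon
    apply h1
    have e1 : x.1 - y.1 = 0 := by nlinarith [sq_nonneg (x.1 - y.1), sq_nonneg (x.2 - y.2)]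
    have e2 : x.2 - y.2 = 0 := by nlinarith [sq_nonneg (x.1 - y.1), sq_nonneg (x.2 - y.2)]
    ext <;> linarith
  have hne2 : 0 < (x.1 + y.1) ^ 2 + (x.2 + y.2) ^ 2 := by
    by_contra hcon
    push Not at hcon
    apply h2
    have e1 : x.1 + y.1 = 0 := by nlinarith [sq_nonneg (x.1 + y.1), sq_nonneg (x.2 + y.2)]
    have e2 : x.2 + y.2 = 0 := by nlinarith [sq_nonneg (x.1 + y.1), sq_nonneg (x.2 + y.2)]
    ext
    · simp; linarith
    · simp; linarith
  set N := y.1 ^ 2 + y.2 ^ 2 with hN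
  set c := (x.1 * y.1 + x.2 * y.2) / N with hc
  set τ := (x.1 * y.2 - x.2 * y.1) / N with hτ
  have hc1 : |c| < 1 := by
    rw [abs_lt, hc, lt_div_iff₀ hy0, div_lt_iff₀ hy0]
    constructor <;> nlinarith
  have hcy : c • y ∈ interior B := H.smul_int hy hc1
  have hline : x + τ • ((-y.2, y.1) : E) = c • y := by
    ext
    · simp only [Prod.fst_add, Prod.smul_fst, smul_eq_mul, hτ, hc]
      field_simp
      rw [hN]; ring
    · simp only [Prod.snd_add, Prod.smul_snd, smul_eq_mul, hτ, hc]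
      field_simp
      rw [hN]; ring
  rcases lt_trichotomy τ 0 with h3 | h3 | h3
  · refine ⟨-(-y.2, y.1), by tauto, -τ, by linarith, ?_⟩
    rw [smul_neg, neg_smul, neg_neg, hline]
    exact hcy
  · refine ⟨(-y.2, y.1), by tauto, ?_⟩
    rw [h3, zero_smul, add_zero] at hline
    exact H.in_of_int (by rw [hline]; exact hcy) _
  · exact ⟨(-y.2, y.1), by tauto, τ, h3, by rw [hline]; exact hcy⟩

/-- T3a: no rim -/
theorem s0_alt (H : HF B f h) (hD : ∀ x ∈ B, f x + h x ≠ 0) : Good B f h := by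
  obtain ⟨y, l, k, u, v, hc⟩ := exists_corner H
  have hyB : y ∈ B := hc.mem
  have hP : 0 < f 0 + h 0 := H.pos0
  set D : ℝ → List (E × ℝ) := fun ε => [(v - ε • u, -(1 / ε)), (-(v - ε • u), -(1 / ε)),
    (v - ε • u, 1 / ε), (-(v - ε • u), 1 / ε), (y, -(1 / ε)), (-y, -(1 / ε)), (y, 1 / ε),
    (-y, 1 / ε)] with hDD
  -- a single horizontal direction together with a steep slope in both ways
  have pair : ∀ z ∈ B, ∀ (ε : ℝ) (e : E), ((e, -(1 / ε)) : E × ℝ) ∈ D ε →
      ((e, 1 / ε) : E × ℝ) ∈ D ε → IN B z e → UP B f z e (-(1 / ε)) → UP B h z e (-(1 / ε)) →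
      Cov B f h (D ε) z := by
    intro z hz ε e h1 h2 h3 h4 h5
    exact Or.inr ⟨lt_of_le_of_ne (H.nonneg z hz) (Ne.symm (hD z hz)), ⟨_, h1, h3, h4⟩,
      ⟨_, h2, h3, h5⟩⟩
  refine good_of_loc H D (fun ε => by simp [hDD]) ?_
  intro x hx
  by_cases hxy : x = y ∨ x = -y
  · -- near `±y`
    obtain ⟨e, he, hxe⟩ : ∃ e : E, (e = y ∨ e = -y) ∧ x + e = 0 := by
      rcases hxy with rfl | rfl
      · exact ⟨-x, Or.inr rfl, by simp⟩
      · exact ⟨y, Or.inl rfl, by simp⟩
    have hopen : ∀ᶠ z in 𝓝 x, z + e ∈ interior B := by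
      have c1 : ContinuousAt (fun z : E => z + e) x := continuousAt_id.add continuousAt_const
      apply c1.eventually_mem
      rw [hxe]
      exact isOpen_interior.mem_nhds H.int0
    obtain ⟨r₀, hr₀, hball⟩ := Metric.eventually_nhds_iff.1 hopen
    refine ⟨min r₀ (1 / (f 0 + h 0)), lt_min hr₀ (by positivity), fun z hz hzx ε hε hεr => ?_⟩
    have hz1 : z + e ∈ interior B := hball (by
      rw [dist_eq_norm]; exact hzx.trans_le (min_le_left _ _))
    have hzB : z + e ∈ B := interior_subset hz1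
    have hε1 : ε < 1 / (f 0 + h 0) := hεr.trans_le (min_le_right _ _)
    have h3 : f 0 + h 0 < 1 / ε := by
      rw [lt_div_iff₀ hε]
      rw [lt_div_iff₀ hP] at hε1
      linarith
    have a1 := H.le_zero hz
    have a2 := H.flip.le_zero hz
    have a3 := H.le_zero hzB
    have a4 := H.flip.le_zero hzB
    have a5 := H.nonneg z hz
    have a6 := H.nonneg _ hzB
    refine pair z hz ε e ?_ ?_ ⟨1, one_pos, by rw [one_smul]; exact hz1⟩
      ⟨1, one_pos, by rw [one_smul]; exact hzB, ?_⟩ ⟨1, one_pos, by rw [one_smul]; exact hzB, ?_⟩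
    · rw [hDD]; rcases he with rfl | rfl <;> simp
    · rw [hDD]; rcases he with rfl | rfl <;> simp
    · rw [one_smul]; linarith
    · rw [one_smul]; linarith
  · push Not at hxy
    obtain ⟨r, hr0, s, hs, hst⟩ := corner_steep H hc hx hxy.1 hxy.2
    refine ⟨r, hr0, fun z hz hzx ε hε hεr => ?_⟩
    obtain ⟨i1, i2, i3⟩ := hst z hz hzx ε hε hεr
    refine pair z hz ε _ ?_ ?_ i1 i2 i3
    · rw [hDD]
      rcases hs with rfl | rfl
      · rw [one_smul]; simp
      · rw [neg_one_smul]; simp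
    · rw [hDD]
      rcases hs with rfl | rfl
      · rw [one_smul]; simp
      · rw [neg_one_smul]; simp

/-- T3b: flat top -/
theorem s0' (H : HF B f h) (hf : ∀ x ∈ B, f x = f 0) : Good B f h := by
  obtain ⟨v, y, hcr⟩ := cross H
  set D : ℝ → List (E × ℝ) := fun ε => [(v, -ε), (-v, -ε), (y, -ε), (-y, -ε), (v, 1 / ε),
    (-v, 1 / ε), (y, 1 / ε), (-y, 1 / ε)] with hD
  have mem1 : ∀ ε : ℝ, ∀ e : E, (e = v ∨ e = -v ∨ e = y ∨ e = -y) →
      ((e, -ε) : E × ℝ) ∈ D ε := by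
    intro ε e he
    rw [hD]
    rcases he with rfl | rfl | rfl | rfl <;> simp
  have mem2 : ∀ ε : ℝ, ∀ e : E, (e = v ∨ e = -v ∨ e = y ∨ e = -y) →
      ((e, 1 / ε) : E × ℝ) ∈ D ε := by
    intro ε e he
    rw [hD]
    rcases he with rfl | rfl | rfl | rfl <;> simp
  refine good_of_loc H D (fun ε => by simp [hD]) ?_
  intro x hx
  obtain ⟨e, he, t, ht, htx⟩ := hcr x hx
  have hP : 0 < f 0 + h 0 := H.pos0
  have hh0 : ∀ z ∈ B, h z ≤ h 0 := fun z hz => H.flip.le_zero hz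
  have hhM : ∀ z ∈ B, -f 0 ≤ h z := by
    intro z hz
    have := H.nonneg z hz
    rw [hf z hz] at this
    linarith
  -- a point beyond `x + t e`
  obtain ⟨c, hc0, hc1, hcx⟩ : ∃ c : ℝ, 0 < c ∧ c < 1 ∧ c⁻¹ • (x + t • e) ∈ interior B := by
    have hcont : ContinuousAt (fun c : ℝ => c⁻¹ • (x + t • e)) 1 :=
      (continuousAt_inv₀ one_ne_zero).smul continuousAt_const
    have hmem : ∀ᶠ c in 𝓝 (1 : ℝ), c⁻¹ • (x + t • e) ∈ interior B := by
      apply hcont.eventually_mem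
      rw [inv_one, one_smul]
      exact isOpen_interior.mem_nhds htx
    have hmem2 : ∀ᶠ c in 𝓝[<] (1 : ℝ), c⁻¹ • (x + t • e) ∈ interior B :=
      hmem.filter_mono nhdsWithin_le_nhds
    have hmem3 : ∀ᶠ c in 𝓝[<] (1 : ℝ), c ∈ Ioo (0 : ℝ) 1 := Ioo_mem_nhdsLT one_pos
    obtain ⟨c, h1, h2⟩ := (hmem2.and hmem3).exists
    exact ⟨c, h2.1, h2.2, h1⟩
  have hopen : ∀ᶠ z in 𝓝 x, z + t • e ∈ interior B ∧ c⁻¹ • (z + t • e) ∈ interior B := by
    have c1 : ContinuousAt (fun z : E => z + t • e) x :=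
      continuousAt_id.add continuousAt_const
    have c2 : ContinuousAt (fun z : E => c⁻¹ • (z + t • e)) x := c1.const_smul c⁻¹
    exact (c1.eventually_mem (isOpen_interior.mem_nhds htx)).and
      (c2.eventually_mem (isOpen_interior.mem_nhds hcx))
  obtain ⟨r₀, hr₀, hball⟩ := Metric.eventually_nhds_iff.1 hopen
  set δ := (1 - c) * (h 0 + f 0) with hδ
  have hδ0 : 0 < δ := mul_pos (by linarith) (by linarith)
  refine ⟨min r₀ (min (t / (h 0 + f 0)) (δ / t)), lt_min hr₀ (lt_min (div_pos ht (by linarith))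
    (div_pos hδ0 ht)), fun z hz hzx ε hε hεr => ?_⟩
  obtain ⟨hz1, hz2⟩ := hball (by
    rw [dist_eq_norm]; exact hzx.trans_le (min_le_left _ _))
  have hε1 : ε < t / (h 0 + f 0) :=
    hεr.trans_le ((min_le_right _ _).trans (min_le_left _ _))
  have hε2 : ε < δ / t := hεr.trans_le ((min_le_right _ _).trans (min_le_right _ _))
  have hzB : z + t • e ∈ B := interior_subset hz1
  have hIN : IN B z e := ⟨t, ht, hz1⟩
  have hUPf : UP B f z e (-ε) := by
    refine ⟨t, ht, hzB, ?_⟩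
    rw [hf z hz, hf _ hzB]
    nlinarith
  have hUPh : UP B h z e (-(1 / ε)) := by
    refine ⟨t, ht, hzB, ?_⟩
    have h1 := hh0 z hz
    have h2 := hhM _ hzB
    have h3 : h 0 + f 0 < t * (1 / ε) := by
      rw [lt_div_iff₀ (by linarith)] at hε1
      rw [mul_one_div, lt_div_iff₀ hε]
      linarith
    linarith
  by_cases hrim : f z + h z = 0
  · left
    refine ⟨(e, -ε), mem1 ε e he, hIN, hUPf, t, ht, hzB, ?_⟩
    have h1 : h z = -f 0 := by rw [hf z hz] at hrim; linarith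
    have h2 := H.flip.ray (interior_subset hz2) (c := c) (by rw [abs_of_pos hc0]; exact hc1.le)
    rw [smul_smul, mul_inv_cancel₀ hc0.ne', one_smul, abs_of_pos hc0] at h2
    have h3 := hhM _ (interior_subset hz2)
    have h4 : -f 0 + δ ≤ h (z + t • e) := by
      rw [hδ]
      nlinarith
    rw [lt_div_iff₀ ht] at hε2
    simp only [neg_neg]
    rw [h1]
    linarith
  · right
    exact ⟨lt_of_le_of_ne (H.nonneg z hz) (Ne.symm hrim), ⟨_, mem1 ε e he, hIN, hUPf⟩,
      ⟨_, mem2 ε e he, hIN, hUPh⟩⟩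

/-- T3c: the rim is a horizontal curve over the whole boundary -/
theorem case_flat (H : HF B f h) {M : ℝ} (hM : ∀ x ∈ bd B, f x = M ∧ h x = -M) :
    Good B f h := by
  have hfge : ∀ x ∈ B, M ≤ f x := H.ge_of_bd (M := M) fun x hx => (hM x hx).1.ge
  have hhge : ∀ x ∈ B, -M ≤ h x := H.flip.ge_of_bd (M := -M) fun x hx => (hM x hx).2.ge
  by_cases hf0 : f 0 = M
  · refine s0' H fun x hx => ?_
    rw [hf0]
    exact le_antisymm ((H.le_zero hx).trans_eq hf0) (hfge x hx)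
  by_cases hh0 : h 0 = -M
  · refine Good.flip (s0' H.flip fun x hx => ?_)
    rw [hh0]
    exact le_antisymm ((H.flip.le_zero hx).trans_eq hh0) (hhge x hx)
  have hf0' : M < f 0 := lt_of_le_of_ne (hfge 0 H.zero_mem) (Ne.symm hf0)
  have hh0' : -M < h 0 := lt_of_le_of_ne (hhge 0 H.zero_mem) (Ne.symm hh0)
  -- strict inequalities in the interior
  have hint : ∀ x ∈ interior B, M < f x ∧ -M < h x := by
    intro x hx
    obtain ⟨y, hy, c, hc0, hc1, rfl⟩ := H.exists_bd (interior_subset hx)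
    have hc : c < 1 := by
      rcases hc1.lt_or_eq with h1 | h1
      · exact h1
      · exfalso
        rw [h1, one_smul] at hx
        exact hy.2 hx
    have h1 := H.ray hy.1 (c := c) (by rw [abs_of_nonneg hc0]; exact hc1)
    have h2 := H.flip.ray hy.1 (c := c) (by rw [abs_of_nonneg hc0]; exact hc1)
    rw [abs_of_nonneg hc0] at h1 h2
    rw [(hM y hy).1] at h1
    rw [(hM y hy).2] at h2
    constructor <;> nlinarith
  obtain ⟨v, y, hcr⟩ := cross H
  refine ⟨[(v, 0), (-v, 0), (y, 0), (-y, 0), (0, -1), (0, 1)], by simp, fun x hx => ?_⟩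
  by_cases hxi : x ∈ interior B
  · right
    refine ⟨H.pos_int hxi, ⟨((0 : E), (-1 : ℝ)), by simp, H.in_of_int hxi _, 1, one_pos, ?_, ?_⟩,
      ⟨((0 : E), (1 : ℝ)), by simp, H.in_of_int hxi _, 1, one_pos, ?_, ?_⟩⟩
    · simpa using hx
    · simp
    · simpa using hx
    · simp
  · left
    obtain ⟨e, he, t, ht, htx⟩ := hcr x hx
    have hb := hM x ⟨hx, hxi⟩
    have hi := hint _ htx
    refine ⟨(e, 0), ?_, ⟨t, ht, htx⟩, ⟨t, ht, interior_subset htx, ?_⟩,
      ⟨t, ht, interior_subset htx, ?_⟩⟩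
    · rcases he with rfl | rfl | rfl | rfl <;> simp
    · rw [hb.1]; simpa using hi.1
    · rw [hb.2]; simpa using hi.2

end Pool.Agent.Lib.MP_5e7226_co.HT
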