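import Pool.Agent.Lib.MP_5e7226_co.HT.PT4
import Pool.Agent.Lib.MP_5e7226_co.HT.PT2c
import Pool.Agent.Lib.MP_5e7226_co.HT.PT3
/-! T9a: the cases in which no rim point is extremal. -/

set_option autoImplicit false

open Set Filter Topology

namespace Pool.Agent.Lib.MP_5e7226_co.HT

open Pool.Agent.Lib.MP_5e7226_co.HT

variable {B : Set E} {f h : E → ℝ}

/-- (1), not parallel -/
theorem case1 (S : Set1 B f h) (hP : ∀ x ∈ bd B, f x + h x = 0 → f x < f (1, 0))
    (hQ : ∀ x ∈ bd B, f x + h x = 0 → h x < h (0, 1)) : Good B f h := by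
  have H : HF B f h := S.toHF
  by_cases hD : ∃ x ∈ B, f x + h x = 0
  · refine thmF H hD MIDS (by simp [MIDS]) ?_
    intro x hx hr
    have hb := H.rim_bd hx hr
    have h1 := hP x hb hr
    have h2 := hQ x hb hr
    have e1 : f ((-1, 0) : E) = f (1, 0) := by
      have := H.feven (1, 0) S.pbd.1
      rw [← this]; congr 1; ext <;> simp
    have e2 : h ((0, -1) : E) = h (0, 1) := by
      have := H.heven (0, 1) S.qbd.1
      rw [← this]; congr 1; ext <;> simp
    refine mids_full S hb ?_ ?_ ?_ ?_ (Or.inl h1) (Or.inl h2)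
    · rintro rfl; exact lt_irrefl _ h1
    · rintro rfl; rw [e1] at h1; exact lt_irrefl _ h1
    · rintro rfl; exact lt_irrefl _ h2
    · rintro rfl; rw [e2] at h2; exact lt_irrefl _ h2
  · push Not at hD
    exact s0 H hD

/-- a basis and its dual basis, extending a nonzero functional -/
lemma exists_dual (l : E →ₗ[ℝ] ℝ) {p : E} (hlp : l p = 1) :
    ∃ (k : E →ₗ[ℝ] ℝ) (u v : E), l u = 1 ∧ l v = 0 ∧ k u = 0 ∧ k v = 1 ∧
      ∀ x : E, l x • u + k x • v = x := by
  set α := l (1, 0) with hα
  set β := l (0, 1) with hβ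
  have hl : ∀ x : E, l x = α * x.1 + β * x.2 := by
    intro x
    have hx : x = x.1 • ((1, 0) : E) + x.2 • ((0, 1) : E) := by
      ext <;> simp
    conv_lhs => rw [hx]
    rw [map_add, map_smul, map_smul, ← hα, ← hβ, smul_eq_mul, smul_eq_mul]
    ring
  have hS : 0 < α ^ 2 + β ^ 2 := by
    by_contra hcon
    push Not at hcon
    have h1 : α = 0 := by nlinarith [sq_nonneg α, sq_nonneg β]
    have h2 : β = 0 := by nlinarith [sq_nonneg α, sq_nonneg β]
    rw [hl, h1, h2] at hlp
    norm_num at hlp
  refine ⟨(-β / (α ^ 2 + β ^ 2)) • LinearMap.fst ℝ ℝ ℝ + (α / (α ^ 2 + β ^ 2)) •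
    LinearMap.snd ℝ ℝ ℝ, (α / (α ^ 2 + β ^ 2), β / (α ^ 2 + β ^ 2)), (-β, α), ?_, ?_, ?_, ?_, ?_⟩
  · rw [hl]; field_simp
  · rw [hl]; simp; ring
  · simp; field_simp; ring
  · simp; field_simp; ring
  · intro x
    rw [hl]
    ext
    · simp; field_simp; ring
    · simp; field_simp; ring

/-- (1), parallel -/
theorem case1_par (H : HF B f h) {p q : E} (hp : p ∈ bd B) (hq : q ∈ bd B)
    (hfm : ∀ x ∈ bd B, f x ≤ f p) (hhm : ∀ x ∈ bd B, h x ≤ h q)
    (hP : ∀ x ∈ bd B, f x + h x = 0 → f x < f p)
    (hQ : ∀ x ∈ bd B, f x + h x = 0 → h x < h q)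
    {l : E →ₗ[ℝ] ℝ} (hl : ∀ x ∈ B, l x ≤ 1) (hlp : l p = 1) (hlq : l q = 1) : Good B f h := by
  by_cases hD : ∃ x ∈ B, f x + h x = 0
  swap
  · push Not at hD
    exact s0 H hD
  obtain ⟨k, u, v, lu, lv, ku, kv, dec⟩ := exists_dual l hlp
  -- a bound for `k`
  obtain ⟨K, hK⟩ : ∃ K : ℝ, ∀ x ∈ B, |k x| ≤ K := by
    have hc : ContinuousOn (fun x => k x) B :=
      (LinearMap.continuous_of_finiteDimensional k).continuousOn
    obtain ⟨K, hK⟩ := H.cpt.exists_bound_of_continuousOn hc
    exact ⟨K, fun x hx => by simpa using hK x hx⟩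
  have hK0 : 0 ≤ K := (abs_nonneg _).trans (hK 0 H.zero_mem)
  set ε : ℝ := 1 / (4 * (K + 1)) with hε
  have hε0 : 0 < ε := by positivity
  have hεK : ε * K ≤ 1 / 4 := by
    rw [hε, div_mul_eq_mul_div, one_mul, div_le_div_iff₀ (by positivity) (by norm_num)]
    linarith
  have hp' : p = u + k p • v := by
    conv_lhs => rw [← dec p, hlp, one_smul]
  have hq' : q = u + k q • v := by
    conv_lhs => rw [← dec q, hlq, one_smul]
  -- values on the axis through a maximiser
  have haxf : ∀ c : ℝ, |c| ≤ 1 → f p ≤ f (c • p) := by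
    intro c hc
    have h1 := H.ray hp.1 hc
    have h2 := H.le_zero hp.1
    nlinarith [abs_nonneg c]
  have haxh : ∀ c : ℝ, |c| ≤ 1 → h q ≤ h (c • q) := by
    intro c hc
    have h1 := H.flip.ray hq.1 hc
    have h2 := H.flip.le_zero hq.1
    nlinarith [abs_nonneg c]
  -- a rim point is not between the two axes
  have hbet : ∀ x ∈ B, f x + h x = 0 → 0 ≤ l x → ∀ a b : ℝ, 0 ≤ a → 0 ≤ b → a + b = 1 →
      x ≠ l x • (a • p + b • q) := by
    intro x hx hr hl0 a b ha hb hab heq
    have hb1 := H.rim_bd hx hr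
    have hw : a • p + b • q ∈ B := H.conv hp.1 hq.1 ha hb hab
    rcases lt_or_eq_of_le (hl x hx) with h1 | h1
    · apply hb1.2
      rw [heq]
      exact H.smul_int hw (by rw [abs_of_nonneg hl0]; exact h1)
    · rw [h1, one_smul] at heq
      have hf := H.fconc.2 hp.1 hq.1 ha hb hab
      have hh := H.hconc.2 hp.1 hq.1 ha hb hab
      rw [← heq] at hf hh
      simp only [smul_eq_mul] at hf hh
      have np := H.nonneg p hp.1
      have nq := H.nonneg q hq.1
      have hsum : a * (f p + h p) + b * (f q + h q) ≤ 0 := by nlinarith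
      rcases eq_or_lt_of_le ha with ha0 | ha0
      · have hb1' : b = 1 := by linarith
        rw [← ha0, hb1', zero_mul, zero_add, one_mul] at hsum
        have : f q + h q = 0 := le_antisymm hsum nq
        exact lt_irrefl _ (hQ q hq this)
      · have h3 : 0 ≤ b * (f q + h q) := mul_nonneg hb nq
        have h4 : a * (f p + h p) ≤ 0 := by linarith
        have h5 : f p + h p ≤ 0 := by
          by_contra hcon
          push Not at hcon
          have := mul_pos ha0 hcon
          linarith
        have : f p + h p = 0 := le_antisymm h5 np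
        exact lt_irrefl _ (hP p hp this)
  -- landing on the axes
  have hland : ∀ x ∈ B, 0 ≤ l x → ∀ s : ℝ, (s = 1 ∨ s = -1) → ∀ y ∈ B, l y = 1 →
      0 < s * (k x - l x * k y) →
      ∃ t : ℝ, 0 < t ∧ ∃ c : ℝ, |c| < 1 ∧ x + t • (-(s • v) - ε • u) = c • y := by
    intro x hx hl0 s hs y hy hly hpos
    have hsa : |s| = 1 := by rcases hs with rfl | rfl <;> simp
    have hss : s * s = 1 := by rcases hs with rfl | rfl <;> norm_num
    have hky := hK y hy
    have hkx := hK x hx
    have hlx := hl x hx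
    have hεk : |s * (ε * k y)| ≤ 1 / 4 := by
      rw [abs_mul, hsa, one_mul, abs_mul, abs_of_pos hε0]
      exact (mul_le_mul_of_nonneg_left hky hε0.le).trans hεK
    have hden : 0 < 1 - s * (ε * k y) := by
      have := (abs_le.mp hεk).2
      linarith
    have hden' : 3 / 4 ≤ 1 - s * (ε * k y) := by
      have := (abs_le.mp hεk).2
      linarith
    set t := s * (k x - l x * k y) / (1 - s * (ε * k y)) with ht
    have ht0 : 0 < t := div_pos hpos hden
    have hnum : s * (k x - l x * k y) ≤ 2 * K := by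
      have h1 : |s * (k x - l x * k y)| ≤ 2 * K := by
        rw [abs_mul, hsa, one_mul]
        calc |k x - l x * k y| ≤ |k x| + |l x * k y| := abs_sub _ _
          _ ≤ K + 1 * K := by
              apply add_le_add hkx
              rw [abs_mul, abs_of_nonneg hl0]
              exact mul_le_mul hlx hky (abs_nonneg _) (by norm_num)
          _ = 2 * K := by ring
      exact (abs_le.mp h1).2
    have htle : t ≤ 2 * K / (3 / 4) := by
      rw [ht]
      apply div_le_div₀ (by positivity) hnum (by norm_num) hden'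
    have htε : t * ε < 1 := by
      have h1 : t * ε ≤ 2 * K / (3 / 4) * ε := mul_le_mul_of_nonneg_right htle hε0.le
      have h2 : 2 * K / (3 / 4) * ε = 8 / 3 * (ε * K) := by ring
      rw [h2] at h1
      linarith
    refine ⟨t, ht0, l x - t * ε, ?_, ?_⟩
    · rw [abs_lt]
      constructor
      · linarith
      · have := mul_pos ht0 hε0
        linarith
    · have hy' : y = u + k y • v := by
        conv_lhs => rw [← dec y, hly, one_smul]
      have hkey : k x - t * s = (l x - t * ε) * k y := by
        have h1 : t * (1 - s * (ε * k y)) = s * (k x - l x * k y) := by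
          rw [ht, div_mul_cancel₀ _ hden.ne']
        have h2 : s * (t * (1 - s * (ε * k y))) = k x - l x * k y := by
          rw [h1, ← mul_assoc, hss, one_mul]
        have h3 : s * (t * (1 - s * (ε * k y))) = s * t - (s * s) * t * (ε * k y) := by ring
        rw [h3, hss] at h2
        linarith
      conv_lhs => rw [← dec x]
      conv_rhs => rw [hy']
      calc l x • u + k x • v + t • (-(s • v) - ε • u)
          = (l x - t * ε) • u + (k x - t * s) • v := by
            rw [smul_sub, smul_neg, smul_smul, smul_smul, sub_smul, sub_smul]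
            abel
        _ = (l x - t * ε) • (u + k y • v) := by
            rw [hkey, smul_add, smul_smul]
  -- full illumination
  have hfull : ∀ x ∈ B, f x + h x = 0 → 0 ≤ l x →
      ∃ s : ℝ, (s = 1 ∨ s = -1) ∧ Full B f h x (-(s • v) - ε • u) 0 := by
    intro x hx hr hl0
    have hb := H.rim_bd hx hr
    have h1 := hP x hb hr
    have h2 := hQ x hb hr
    have main : ∀ s : ℝ, (s = 1 ∨ s = -1) → 0 < s * (k x - l x * k p) →
        0 < s * (k x - l x * k q) → Full B f h x (-(s • v) - ε • u) 0 := by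
      intro s hs hsp hsq
      obtain ⟨t, ht, c, hc, heq⟩ := hland x hx hl0 s hs p hp.1 hlp hsp
      obtain ⟨t', ht', c', hc', heq'⟩ := hland x hx hl0 s hs q hq.1 hlq hsq
      refine ⟨⟨t, ht, ?_⟩, ⟨t, ht, ?_, ?_⟩, ⟨t', ht', ?_, ?_⟩⟩
      · rw [heq]; exact H.smul_int hp.1 hc
      · rw [heq]; exact H.smul_mem hp.1 hc.le
      · rw [heq]
        have := haxf c hc.le
        linarith
      · rw [heq']; exact H.smul_mem hq.1 hc'.le
      · rw [heq']
        have := haxh c' hc'.le
        linarith
    by_cases habove : l x * k p < k x ∧ l x * k q < k x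
    · refine ⟨1, Or.inl rfl, main 1 (Or.inl rfl) ?_ ?_⟩
      · linarith [habove.1]
      · linarith [habove.2]
    by_cases hbelow : k x < l x * k p ∧ k x < l x * k q
    · refine ⟨-1, Or.inr rfl, main (-1) (Or.inr rfl) ?_ ?_⟩
      · linarith [hbelow.1]
      · linarith [hbelow.2]
    exfalso
    have hmem : k x ∈ segment ℝ (l x * k p) (l x * k q) := by
      rw [segment_eq_uIcc, mem_uIcc]
      rw [not_and_or, not_lt, not_lt] at habove hbelow
      rcases habove with ha | ha <;> rcases hbelow with hb | hb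
      · have : k x = l x * k p := le_antisymm ha hb
        rw [this]
        rcases le_total (l x * k p) (l x * k q) with h | h
        · left; exact ⟨le_rfl, h⟩
        · right; exact ⟨h, le_rfl⟩
      · right; exact ⟨hb, ha⟩
      · left; exact ⟨hb, ha⟩
      · have : k x = l x * k q := le_antisymm ha hb
        rw [this]
        rcases le_total (l x * k p) (l x * k q) with h | h
        · left; exact ⟨h, le_rfl⟩
        · right; exact ⟨le_rfl, h⟩
    obtain ⟨a, b, ha, hb', hab, he⟩ := hmem
    apply hbet x hx hr hl0 a b ha hb' hab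
    conv_lhs => rw [← dec x, ← he]
    conv_rhs => rw [hp', hq']
    simp only [smul_eq_mul, smul_add, smul_smul, add_smul]
    have : l x • u = (l x * a) • u + (l x * b) • u := by
      rw [← add_smul, ← mul_add, hab, mul_one]
    rw [this]
    have e1 : a * (l x * k p) = l x * (a * k p) := by ring
    have e2 : b * (l x * k q) = l x * (b * k q) := by ring
    rw [e1, e2]
    abel
  refine thmF H hD [(v + ε • u, 0), (-(v + ε • u), 0), (v - ε • u, 0), (-(v - ε • u), 0)]
    (by simp) ?_
  have hsel : ∀ s : ℝ, (s = 1 ∨ s = -1) →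
      ((-(s • v) - ε • u, (0 : ℝ)) ∈ [(v + ε • u, (0 : ℝ)), (-(v + ε • u), 0), (v - ε • u, 0),
        (-(v - ε • u), 0)]) ∧
      ((-(-(s • v) - ε • u), (0 : ℝ)) ∈ [(v + ε • u, (0 : ℝ)), (-(v + ε • u), 0), (v - ε • u, 0),
        (-(v - ε • u), 0)]) := by
    intro s hs
    rcases hs with rfl | rfl
    · have e1 : -((1 : ℝ) • v) - ε • u = -(v + ε • u) := by rw [one_smul]; abel
      rw [e1]
      constructor
      · simp
      · rw [neg_neg]; simp
    · have e1 : -((-1 : ℝ) • v) - ε • u = v - ε • u := by rw [neg_smul, one_smul, neg_neg]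
      rw [e1]
      constructor
      · simp
      · simp
  intro x hx hr
  by_cases hl0 : 0 ≤ l x
  · obtain ⟨s, hs, hF⟩ := hfull x hx hr hl0
    exact ⟨_, (hsel s hs).1, hF⟩
  · push Not at hl0
    have hx' := H.sym x hx
    have hr' : f (-x) + h (-x) = 0 := by rw [H.feven x hx, H.heven x hx]; exact hr
    obtain ⟨s, hs, hF⟩ := hfull (-x) hx' hr' (by rw [map_neg]; linarith)
    have := Full.neg H hx' hF
    rw [neg_neg] at this
    exact ⟨_, (hsel s hs).2, this⟩

end Pool.Agent.Lib.MP_5e7226_co.HT
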