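import Pool.Agent.Lib.MP_5e7226_co.HT.PT2c
import Pool.Agent.Lib.MP_5e7226_co.HT.PT3
import Pool.Agent.Lib.MP_5e7226_co.HT.PT5
/-! T9b: `case2_par`. -/

set_option autoImplicit false

open Set Filter Topology

namespace Pool.Agent.Lib.MP_5e7226_co.HT

variable {B : Set E} {f h : E → ℝ}

/-- `-p` is extreme, so `|X| < 1 + Y` on the open second quadrant. -/
lemma aux_lt (H : HF B f h) (hq : ((0, 1) : E) ∈ bd B)
    {l k : E →ₗ[ℝ] ℝ} {u v : E} (hc : Corner B (1, 0) l k u v)
    (hl : ∀ x ∈ B, x.1 + x.2 ≤ 1) {x : E} (hx : x ∈ B) (hY : 0 < x.2) : -x.1 < 1 + x.2 := by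
  have h1 : -x.1 ≤ 1 + x.2 := by
    have := hl _ (H.sym x hx)
    simp only [Prod.fst_neg, Prod.snd_neg] at this
    linarith
  refine lt_of_le_of_ne h1 fun he => ?_
  have hq' : ((0, -1) : E) ∈ B := by
    have := H.sym _ hq.1
    simpa using this
  have hpos : 0 < 1 + x.2 := by linarith
  have hE := Corner.extreme (Corner.neg H hc) hx hq' (t := x.2 / (1 + x.2)) (by positivity)
    (by rw [div_lt_one hpos]; linarith) ?_
  · have := hE.2
    simp at this
  · ext
    · simp only [Prod.fst_neg, Prod.fst_add, Prod.smul_fst, smul_eq_mul, mul_zero, add_zero]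
      have : x.1 = -(1 + x.2) := by linarith
      rw [this]
      field_simp
      ring
    · simp only [Prod.snd_neg, Prod.snd_add, Prod.smul_snd, smul_eq_mul]
      field_simp
      ring

/-- Rim points other than `±p` are in the open second or fourth quadrant. -/
lemma aux_quad (H : HF B f h) (hp : ((1, 0) : E) ∈ bd B) (hq : ((0, 1) : E) ∈ bd B)
    (hQ : ∀ x ∈ bd B, f x + h x = 0 → h x < h (0, 1))
    (hl : ∀ x ∈ B, x.1 + x.2 ≤ 1) {x : E} (hx : x ∈ B) (hr : f x + h x = 0)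
    (h1 : x ≠ (1, 0)) (hX : 0 ≤ x.1) (hY : 0 ≤ x.2) : False := by
  have hb : x ∈ bd B := HF.rim_bd H hx hr
  have hfq : 0 < f (0, 1) + h (0, 1) := by
    have h0 := H.nonneg _ hq.1
    rcases h0.lt_or_eq with h2 | h2
    · exact h2
    · exact absurd (hQ _ hq h2.symm) (lt_irrefl _)
  have hsum : x.1 + x.2 = 1 := by
    rcases (hl x hx).lt_or_eq with h2 | h2
    · exfalso
      rcases (add_nonneg hX hY).lt_or_eq with h3 | h3
      · -- `x = s • y` with `y` on the segment from `p` to `q`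
        have hy : ((x.1 / (x.1 + x.2), x.2 / (x.1 + x.2)) : E) ∈ B := by
          have := H.conv hp.1 hq.1 (div_nonneg hX h3.le) (div_nonneg hY h3.le)
            (by rw [← add_div]; exact div_self h3.ne')
          simpa using this
        have := HF.smul_int H hy (c := x.1 + x.2) (by rw [abs_of_pos h3]; exact h2)
        have he : (x.1 + x.2) • ((x.1 / (x.1 + x.2), x.2 / (x.1 + x.2)) : E) = x := by
          ext
          · simp only [Prod.smul_fst, smul_eq_mul]; field_simp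
          · simp only [Prod.smul_snd, smul_eq_mul]; field_simp
        rw [he] at this
        exact hb.2 this
      · have hx0 : x = 0 := by
          ext
          · simp only [Prod.fst_zero]; linarith
          · simp only [Prod.snd_zero]; linarith
        rw [hx0] at hb
        exact hb.2 H.int0
    · exact h2
  -- `x = X p + Y q`
  have hxe : x = x.1 • ((1, 0) : E) + x.2 • ((0, 1) : E) := by
    ext <;> simp
  have hY0 : 0 < x.2 := by
    rcases hY.lt_or_eq with h2 | h2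
    · exact h2
    · exfalso
      apply h1
      ext
      · simp only; linarith
      · simp only; exact h2.symm
  have hf := H.fconc.2 hp.1 hq.1 hX hY hsum
  have hh := H.hconc.2 hp.1 hq.1 hX hY hsum
  rw [← hxe] at hf hh
  simp only [smul_eq_mul] at hf hh
  have h3 := H.nonneg _ hp.1
  nlinarith [mul_nonneg hX h3, mul_pos hY0 hfq]

/-- The reduction to a pair of directions for `±p`. -/
lemma aux_main (H : HF B f h) (hp : ((1, 0) : E) ∈ bd B) (hq : ((0, 1) : E) ∈ bd B)
    (hfm : ∀ x ∈ bd B, f x ≤ f (1, 0))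
    (hr : f (1, 0) + h (1, 0) = 0)
    (hQ : ∀ x ∈ bd B, f x + h x = 0 → h x < h (0, 1))
    {l k : E →ₗ[ℝ] ℝ} {u v : E} (hc : Corner B (1, 0) l k u v)
    (hl : ∀ x ∈ B, x.1 + x.2 ≤ 1) (P : List (E × ℝ)) (hPl : P.length ≤ 2)
    (hPn : ∀ d ∈ P, (-d.1, d.2) ∈ P)
    (hPp : ∃ r : ℝ, 0 < r ∧ ∀ y ∈ B, ‖y - (-1, 0)‖ < r → ∃ d ∈ P, Full B f h y d.1 d.2)
    (hPM : ∀ x ∈ B, f x + h x = 0 → f x = f (1, 0) → f (1, 0) < f 0 ∨
      ∃ d ∈ P, Full B f h x d.1 d.2) : Good B f h := by
  obtain ⟨r, hr0, hrP⟩ := hPp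
  obtain ⟨R, hR, hRB⟩ := HF.exists_bound H
  -- the compact set
  set K : Set E := B ∩ ({x | x.1 ≤ 0} ∩ {x | 0 ≤ x.2} ∩ {x | r ≤ ‖x - (-1, 0)‖}) with hK
  have hKc : IsCompact K := by
    refine H.cpt.inter_right ?_
    refine IsClosed.inter (IsClosed.inter ?_ ?_) ?_
    · exact isClosed_le continuous_fst continuous_const
    · exact isClosed_le continuous_const continuous_snd
    · exact isClosed_le continuous_const (by fun_prop)
  have hKpos : ∀ x ∈ K, 0 < 1 + x.2 + x.1 := by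
    rintro x ⟨hx, ⟨hX, hY⟩, hrx⟩
    simp only [mem_ofPred_eq] at hX hY hrx
    rcases hY.lt_or_eq with h2 | h2
    · linarith [aux_lt H hq hc hl hx h2]
    · have h3 : -x.1 ≤ 1 := by
        have := hl _ (H.sym x hx)
        simp only [Prod.fst_neg, Prod.snd_neg] at this
        linarith
      rcases h3.lt_or_eq with h4 | h4
      · linarith
      · exfalso
        have : x = (-1, 0) := by
          ext
          · simp only; linarith
          · simp only; exact h2.symm
        rw [this] at hrx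
        simp at hrx
        linarith
  obtain ⟨m, hm, hmK⟩ : ∃ m : ℝ, 0 < m ∧ ∀ x ∈ K, m ≤ 1 + x.2 + x.1 := by
    rcases K.eq_empty_or_nonempty with h0 | h0
    · exact ⟨1, one_pos, fun x hx => by rw [h0] at hx; exact absurd hx (notMem_empty x)⟩
    · obtain ⟨x0, hx0, hmin⟩ := hKc.exists_isMinOn h0
        (f := fun x : E => 1 + x.2 + x.1) (by fun_prop)
      exact ⟨1 + x0.2 + x0.1, hKpos x0 hx0, fun x hx => hmin hx⟩
  obtain ⟨δ, hδ, hδR⟩ : ∃ δ : ℝ, 0 < δ ∧ δ * R < m := by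
    refine ⟨m / (2 * R), by positivity, ?_⟩
    rw [div_mul_eq_mul_div, div_lt_iff₀ (by positivity)]
    nlinarith [mul_pos hm hR]
  set D4 : List (E × ℝ) := ((1, -(1 + δ)), 0) :: ((-1, 1 + δ), 0) :: P with hD4
  have hq0 : h (0, 1) ≤ h 0 := HF.le_zero H.flip hq.1
  have hp0 : f (1, 0) ≤ f 0 := HF.le_zero H hp.1
  have hfull : ∀ x ∈ B, f x + h x = 0 → x.1 < 0 → 0 < x.2 → ¬ ‖x - (-1, 0)‖ < r →
      (f x < f (1, 0) ∨ (f x = f (1, 0) ∧ f (1, 0) < f 0)) → Full B f h x (1, -(1 + δ)) 0 := by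
    intro x hx hrx hX hY hN hcase
    have hxb : x ∈ bd B := HF.rim_bd H hx hrx
    have hxK : x ∈ K := ⟨hx, ⟨hX.le, hY.le⟩, not_lt.1 hN⟩
    have hm' := hmK x hxK
    have hsum := hl x hx
    have hXR : -x.1 ≤ R := by
      have := (hRB x hx).1
      rw [abs_of_neg hX] at this
      exact this
    have hkey : (1 + δ) * (-x.1) < 1 + x.2 := by nlinarith
    have hδ1 : 0 < 1 + δ := by linarith
    -- first landing point
    set c1 : ℝ := x.1 + x.2 / (1 + δ) with hc1
    have hc1a : c1 < 1 := by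
      have : x.2 / (1 + δ) < x.2 := by
        rw [div_lt_iff₀ hδ1]; nlinarith
      linarith
    have hc1b : -1 < c1 := by
      have : -x.1 - 1 < x.2 / (1 + δ) := by
        rw [lt_div_iff₀ hδ1]; nlinarith
      linarith
    have hc1' : |c1| < 1 := abs_lt.2 ⟨hc1b, hc1a⟩
    set c2 : ℝ := x.2 + (1 + δ) * x.1 with hc2
    have hc2' : |c2| < 1 := abs_lt.2 ⟨by linarith, by nlinarith⟩
    have e1 : x + (x.2 / (1 + δ)) • ((1, -(1 + δ)) : E) = c1 • ((1, 0) : E) := by
      ext
      · simp [hc1]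
      · simp only [Prod.snd_add, Prod.smul_snd, smul_eq_mul, mul_zero]
        field_simp
        ring
    have e2 : x + (-x.1) • ((1, -(1 + δ)) : E) = c2 • ((0, 1) : E) := by
      ext
      · simp
      · simp only [Prod.snd_add, Prod.smul_snd, smul_eq_mul, mul_one, hc2]
        ring
    refine ⟨⟨-x.1, by linarith, ?_⟩, ⟨x.2 / (1 + δ), by positivity, ?_, ?_⟩,
      ⟨-x.1, by linarith, ?_, ?_⟩⟩
    · rw [e2]; exact HF.smul_int H hq.1 hc2'
    · rw [e1]; exact HF.smul_mem H hp.1 hc1'.le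
    · rw [e1, mul_zero, add_zero]
      have hray := HF.ray H hp.1 hc1'.le
      refine lt_of_lt_of_le ?_ hray
      rcases hcase with h3 | ⟨h3, h4⟩
      · nlinarith [abs_nonneg c1]
      · nlinarith [abs_nonneg c1]
    · rw [e2]; exact HF.smul_mem H hq.1 hc2'.le
    · rw [e2, neg_zero, mul_zero, add_zero]
      have hray := HF.ray H.flip hq.1 hc2'.le
      refine lt_of_lt_of_le ?_ hray
      have h3 := hQ x hxb hrx
      nlinarith [abs_nonneg c2]
  -- second quadrant
  have hII : ∀ x ∈ B, f x + h x = 0 → x.1 < 0 → 0 < x.2 → ∃ d ∈ D4, Full B f h x d.1 d.2 := by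
    intro x hx hrx hX hY
    by_cases hN : ‖x - (-1, 0)‖ < r
    · obtain ⟨d, hd, hF⟩ := hrP x hx hN
      exact ⟨d, by simp [hD4, hd], hF⟩
    have hxb : x ∈ bd B := HF.rim_bd H hx hrx
    rcases (hfm x hxb).lt_or_eq with hlt | heq
    · exact ⟨((1, -(1 + δ)), 0), by simp [hD4], hfull x hx hrx hX hY hN (Or.inl hlt)⟩
    · rcases hPM x hx hrx heq with h2 | ⟨d, hd, hF⟩
      · exact ⟨((1, -(1 + δ)), 0), by simp [hD4], hfull x hx hrx hX hY hN (Or.inr ⟨heq, h2⟩)⟩
      · exact ⟨d, by simp [hD4, hd], hF⟩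
  have hpneg : ((-1, 0) : E) ∈ B := by
    have := H.sym _ hp.1
    simpa using this
  have hD4n : ∀ d ∈ D4, (-d.1, d.2) ∈ D4 := by
    intro d hd
    simp only [hD4, List.mem_cons] at hd ⊢
    rcases hd with rfl | rfl | hd
    · right; left; simp
    · left; simp
    · right; right; exact hPn d hd
  have hneg : ∀ x ∈ B, (∃ d ∈ D4, Full B f h (-x) d.1 d.2) → ∃ d ∈ D4, Full B f h x d.1 d.2 := by
    rintro x hx ⟨d, hd, hF⟩
    refine ⟨(-d.1, d.2), hD4n d hd, ?_⟩
    have := Full.neg H (H.sym x hx) hF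
    rwa [neg_neg] at this
  have hrneg : ∀ x ∈ B, f x + h x = 0 → f (-x) + h (-x) = 0 := by
    intro x hx hrx
    rw [H.feven x hx, H.heven x hx]; exact hrx
  refine thmF H ⟨(1, 0), hp.1, hr⟩ D4 (by simp [hD4]; omega) fun x hx hrx => ?_
  by_cases hx1 : x = (1, 0)
  · refine hneg x hx ?_
    have hnx : -x = (-1, 0) := by rw [hx1]; simp
    obtain ⟨d, hd, hF⟩ := hrP (-x) (H.sym x hx) (by rw [hnx, sub_self, norm_zero]; exact hr0)
    exact ⟨d, by simp [hD4, hd], hF⟩
  by_cases hx2 : x = (-1, 0)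
  · obtain ⟨d, hd, hF⟩ := hrP x hx (by rw [hx2, sub_self, norm_zero]; exact hr0)
    exact ⟨d, by simp [hD4, hd], hF⟩
  have hx2' : -x ≠ (1, 0) := fun hh => hx2 (by rw [← neg_neg x, hh]; simp)
  rcases lt_or_ge x.1 0 with hX | hX
  · rcases lt_or_ge 0 x.2 with hY | hY
    · exact hII x hx hrx hX hY
    · exact absurd (aux_quad H hp hq hQ hl (H.sym x hx) (hrneg x hx hrx) hx2'
        (by simp only [Prod.fst_neg]; linarith) (by simp only [Prod.snd_neg]; linarith)) not_false
  · rcases lt_or_ge x.2 0 with hY | hY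
    · rcases hX.lt_or_eq with hX' | hX'
      · exact hneg x hx (hII (-x) (H.sym x hx) (hrneg x hx hrx)
          (by simp only [Prod.fst_neg]; linarith) (by simp only [Prod.snd_neg]; linarith))
      · exact absurd (aux_quad H hp hq hQ hl (H.sym x hx) (hrneg x hx hrx) hx2'
          (by simp only [Prod.fst_neg]; linarith) (by simp only [Prod.snd_neg]; linarith)) not_false
    · exact absurd (aux_quad H hp hq hQ hl hx hrx hx1 hX hY) not_false

/-- (2), parallel, in the frame `p = (1,0)`, `q = (0,1)` with `|X + Y| ≤ 1` -/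
theorem case2_par (H : HF B f h) (hp : ((1, 0) : E) ∈ bd B) (hq : ((0, 1) : E) ∈ bd B)
    (hfm : ∀ x ∈ bd B, f x ≤ f (1, 0)) (hhm : ∀ x ∈ bd B, h x ≤ h (0, 1))
    (hMN : 0 < f (1, 0) + h (0, 1)) (hr : f (1, 0) + h (1, 0) = 0)
    (hQ : ∀ x ∈ bd B, f x + h x = 0 → h x < h (0, 1))
    {l k : E →ₗ[ℝ] ℝ} {u v : E} (hc : Corner B (1, 0) l k u v)
    (hl : ∀ x ∈ B, x.1 + x.2 ≤ 1) : Good B f h := by
  by_cases hconst : ∀ x ∈ B, f x = f 0
  · exact s0' H hconst
  push Not at hconst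
  obtain ⟨x0, hx0, hx0'⟩ := hconst
  have hx0lt : f x0 < f 0 := lt_of_le_of_ne (HF.le_zero H hx0) hx0'
  have hpneg : ((-1, 0) : E) ∈ B := by
    have := H.sym _ hp.1
    simpa using this
  have hfpneg : f (-1, 0) = f (1, 0) := by
    have := H.feven _ hp.1
    simpa using this
  have hhpneg : h (-1, 0) = h (1, 0) := by
    have := H.heven _ hp.1
    simpa using this
  have hq0 : h (0, 1) ≤ h 0 := HF.le_zero H.flip hq.1
  rcases (HF.le_zero H hp.1).lt_or_eq with ha | ha
  · -- `a > 0`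
    refine aux_main H hp hq hfm hr hQ hc hl [((1, 0), 0), ((-1, 0), 0)] (by simp) ?_ ?_
      (fun x _ _ _ => Or.inl ha)
    · intro d hd
      simp only [List.mem_cons, List.not_mem_nil, or_false] at hd ⊢
      rcases hd with rfl | rfl
      · right; simp
      · left; simp
    · have hF : Full B f h (-1, 0) (1, 0) 0 := by
        have e1 : ((-1, 0) : E) + (1 : ℝ) • ((1, 0) : E) = 0 := by ext <;> simp
        refine ⟨⟨1, one_pos, by rw [e1]; exact H.int0⟩,
          ⟨1, one_pos, by rw [e1]; exact interior_subset H.int0, ?_⟩,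
          ⟨1, one_pos, by rw [e1]; exact interior_subset H.int0, ?_⟩⟩
        · rw [e1, hfpneg]; linarith
        · rw [e1, hhpneg]; linarith
      obtain ⟨r, hr0, hrr⟩ := loc1 H hpneg hF
      refine ⟨r, hr0, fun y hy hyr => ⟨((1, 0), 0), by simp, ?_⟩⟩
      exact hrr y hy hyr 0 (by simpa using hr0)
  · -- `a = 0`
    obtain ⟨u', W, hW, hUG⟩ := tangent H hp ha ⟨x0, hx0, hx0lt⟩
    have hUG' : ∀ x ∈ B, f x + h x = 0 → f x = f (1, 0) →
        ∃ d ∈ [(u', -W), (-u', -W)], Full B f h x d.1 d.2 := by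
      intro x hx hrx hfx
      obtain ⟨v', hv', hIN, hUP, hUPh⟩ := hUG x hx hfx.ge (Or.inr (Or.inl ha.symm))
      refine ⟨(v', -W), ?_, hIN, hUP, ?_⟩
      · rcases hv' with rfl | rfl <;> simp
      · simpa using hUPh hrx
    refine aux_main H hp hq hfm hr hQ hc hl [(u', -W), (-u', -W)] (by simp) ?_ ?_
      (fun x hx hrx hfx => Or.inr (hUG' x hx hrx hfx))
    · intro d hd
      simp only [List.mem_cons, List.not_mem_nil, or_false] at hd ⊢
      rcases hd with rfl | rfl
      · right; simp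
      · left; simp
    · obtain ⟨d, hd, hF⟩ := hUG' (-1, 0) hpneg (by rw [hfpneg, hhpneg]; exact hr) hfpneg
      obtain ⟨r, hr0, hrr⟩ := loc1 H hpneg hF
      refine ⟨r, hr0, fun y hy hyr => ⟨d, hd, ?_⟩⟩
      exact hrr y hy hyr d.2 (by simpa using hr0)

end Pool.Agent.Lib.MP_5e7226_co.HT
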