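import Pool.Agent.Lib.MP_5e7226_co.HT.PT4
import Pool.Agent.Lib.MP_5e7226_co.HT.PT2c
/-! Half-turn project, T9c: `case2_top`. -/

set_option autoImplicit false

open Set Filter Topology

namespace Pool.Agent.Lib.MP_5e7226_co.HT

variable {B : Set E} {f h : E → ℝ}

/-- The core: four directions illuminate all rim fibres, if `x.2 ≤ 1` on one of the two
neighbouring quadrants. -/
theorem case2_top_aux (S : Set1 B f h) (hr : f (1, 0) + h (1, 0) = 0) (ha : f (1, 0) < f 0)
    (hfq : f (0, 1) = f (1, 0))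
    (hQ : ∀ x ∈ bd B, f x + h x = 0 → h x < h (0, 1)) (s : ℝ) (hs : s = 1 ∨ s = -1)
    (hY : ∀ x ∈ B, s * x.1 ≤ 0 → 0 ≤ x.2 → x.2 ≤ 1) : Good B f h := by
  have H : HF B f h := S.toHF
  have hss : s * s = 1 := by rcases hs with rfl | rfl <;> norm_num
  have hp : ((1, 0) : E) ∈ B := S.pbd.1
  have hq : ((0, 1) : E) ∈ B := S.qbd.1
  have e1 : ∀ c : ℝ, ((c, 0) : E) = c • ((1, 0) : E) := by
    intro c
    ext <;> simp
  have e2 : ∀ c : ℝ, ((0, c) : E) = c • ((0, 1) : E) := by
    intro c
    ext <;> simp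
  have i1 : ∀ c : ℝ, |c| < 1 → ((c, 0) : E) ∈ interior B := by
    intro c hc
    rw [e1]
    exact H.smul_int hp hc
  have i2 : ∀ c : ℝ, |c| < 1 → ((0, c) : E) ∈ interior B := by
    intro c hc
    rw [e2]
    exact H.smul_int hq hc
  have f1 : ∀ c : ℝ, |c| < 1 → f (1, 0) < f (c, 0) := by
    intro c hc
    have := H.ray hp hc.le
    rw [← e1] at this
    nlinarith [abs_nonneg c]
  have f2 : ∀ c : ℝ, |c| < 1 → f (1, 0) < f (0, c) := by
    intro c hc
    have := H.ray hq hc.le
    rw [← e2, hfq] at this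
    nlinarith [abs_nonneg c]
  have h2 : ∀ c : ℝ, |c| < 1 → h (0, 1) ≤ h (0, c) := by
    intro c hc
    have h3 := H.flip.ray hq hc.le
    rw [← e2] at h3
    have h4 := H.flip.le_zero hq
    nlinarith [abs_nonneg c]
  have mk : ∀ (x v : E) (t1 t2 : ℝ), 0 < t1 → 0 < t2 → x + t1 • v ∈ interior B →
      x + t2 • v ∈ B → f x < f (x + t1 • v) → h x < h (x + t2 • v) → Full B f h x v 0 := by
    intro x v t1 t2 ht1 ht2 hi hb hf hh
    refine ⟨⟨t1, ht1, hi⟩, ⟨t1, ht1, interior_subset hi, ?_⟩, ⟨t2, ht2, hb, ?_⟩⟩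
    · simpa using hf
    · simpa using hh
  set D4 : List (E × ℝ) := [((s, -1 / 2), 0), ((-s, 1 / 2), 0), ((s, 1), 0), ((-s, -1), 0)]
    with hD4
  have hD4neg : ∀ d ∈ D4, (-d.1, d.2) ∈ D4 := by
    intro d hd
    simp only [hD4, List.mem_cons, List.not_mem_nil, or_false] at hd ⊢
    rcases hd with rfl | rfl | rfl | rfl
    · right; left
      ext <;> simp <;> norm_num
    · left
      ext <;> simp <;> norm_num
    · right; right; right
      ext <;> simp
    · right; right; left
      ext <;> simp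
  -- the half plane `Y > 0`
  have key : ∀ x ∈ B, f x + h x = 0 → 0 < x.2 → ∃ d ∈ D4, Full B f h x d.1 d.2 := by
    intro x hx hrx hY0
    have hxb : x ∈ bd B := H.rim_bd hx hrx
    have hfx : f x ≤ f (1, 0) := S.fmax x hxb
    have hhx : h x < h (0, 1) := hQ x hxb hrx
    have hX0 : x.1 ≠ 0 := by
      intro h0
      have hx' : x = x.2 • ((0, 1) : E) := by
        ext <;> simp [h0]
      have h5 : ((x.2)⁻¹) • x = ((0, 1) : E) := by
        rw [hx', smul_smul]
        simp [hY0.ne']
      have h6 : |(x.2)⁻¹| ≤ 1 := H.abs_le_of_mem hxb (by rw [h5]; exact hq)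
      have h7 : |x.2| ≤ 1 := H.abs_le_of_mem S.qbd (by rw [← hx']; exact hx)
      have h8 : x.2 = 1 := by
        rw [abs_inv] at h6
        have h9 : 0 < |x.2| := abs_pos.mpr hY0.ne'
        have h10 : 1 ≤ |x.2| := by
          rw [inv_le_one₀ h9] at h6
          exact h6
        have h11 : |x.2| = x.2 := abs_of_pos hY0
        linarith
      have h9 : x = (0, 1) := by
        ext <;> simp [h0, h8]
      rw [h9] at hhx
      exact lt_irrefl _ hhx
    have hnd := S.nd x hx hX0 hY0.ne'
    rw [abs_of_pos hY0] at hnd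
    have hsX : s * x.1 ≠ 0 := by
      rcases hs with rfl | rfl <;> simpa using hX0
    have habs : |x.1| = |s * x.1| := by
      rcases hs with rfl | rfl <;> simp
    rcases lt_or_gt_of_ne hsX with hneg | hpos
    · -- `(s, -1/2)`
      refine ⟨((s, -1 / 2), 0), by simp [hD4], ?_⟩
      have hY1 : x.2 ≤ 1 := hY x hx hneg.le hY0.le
      have hXabs : |x.1| = -(s * x.1) := by rw [habs, abs_of_neg hneg]
      have hland : x + (-(s * x.1)) • ((s, -1 / 2) : E) = (0, x.2 + s * x.1 / 2) := by
        ext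
        · simp
          linear_combination -x.1 * hss
        · simp
          ring
      have hc : |x.2 + s * x.1 / 2| < 1 := by
        rw [abs_lt]
        constructor
        · rw [hXabs] at hnd
          linarith [hnd.1]
        · linarith
      refine mk x (s, -1 / 2) (-(s * x.1)) (-(s * x.1)) (by linarith) (by linarith) ?_ ?_ ?_ ?_
      · rw [hland]; exact i2 _ hc
      · rw [hland]; exact interior_subset (i2 _ hc)
      · rw [hland]; exact lt_of_le_of_lt hfx (f2 _ hc)
      · rw [hland]; exact lt_of_lt_of_le hhx (h2 _ hc)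
    · -- `(-s, -1)`
      refine ⟨((-s, -1), 0), by simp [hD4], ?_⟩
      have hXabs : |x.1| = s * x.1 := by rw [habs, abs_of_pos hpos]
      rw [hXabs] at hnd
      have hland1 : x + x.2 • ((-s, -1) : E) = (x.1 - s * x.2, 0) := by
        ext
        · simp
          ring
        · simp
      have hland2 : x + (s * x.1) • ((-s, -1) : E) = (0, x.2 - s * x.1) := by
        ext
        · simp
          linear_combination -x.1 * hss
        · simp
          ring
      have hc1 : |x.1 - s * x.2| < 1 := by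
        have h5 : |x.1 - s * x.2| = |s * x.1 - x.2| := by
          rcases hs with rfl | rfl
          · simp
          · rw [← abs_neg]
            congr 1
            ring
        rw [h5, abs_lt]
        constructor <;> linarith [hnd.1, hnd.2]
      have hc2 : |x.2 - s * x.1| < 1 := by
        rw [abs_lt]
        constructor <;> linarith [hnd.1, hnd.2]
      refine mk x (-s, -1) x.2 (s * x.1) hY0 hpos ?_ ?_ ?_ ?_
      · rw [hland1]; exact i1 _ hc1
      · rw [hland2]; exact interior_subset (i2 _ hc2)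
      · rw [hland1]; exact lt_of_le_of_lt hfx (f1 _ hc1)
      · rw [hland2]; exact lt_of_lt_of_le hhx (h2 _ hc2)
  -- the point `p`
  have keyp : ∃ d ∈ D4, Full B f h (1, 0) d.1 d.2 := by
    have hhp : h (1, 0) < h (0, 1) := hQ _ S.pbd hr
    rcases hs with rfl | rfl
    · refine ⟨((-1, 1 / 2), 0), by simp [hD4], ?_⟩
      have hland : ((1, 0) : E) + (1 : ℝ) • ((-1, 1 / 2) : E) = (0, 1 / 2) := by
        ext <;> simp
      have hc : |(1 / 2 : ℝ)| < 1 := by rw [abs_lt]; constructor <;> norm_num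
      refine mk _ (-1, 1 / 2) 1 1 one_pos one_pos ?_ ?_ ?_ ?_
      · rw [hland]; exact i2 _ hc
      · rw [hland]; exact interior_subset (i2 _ hc)
      · rw [hland]; exact f2 _ hc
      · rw [hland]; exact lt_of_lt_of_le hhp (h2 _ hc)
    · refine ⟨((-1, -1 / 2), 0), by simp [hD4], ?_⟩
      have hland : ((1, 0) : E) + (1 : ℝ) • ((-1, -1 / 2) : E) = (0, -1 / 2) := by
        ext <;> simp
      have hc : |(-1 / 2 : ℝ)| < 1 := by rw [abs_lt]; constructor <;> norm_num
      refine mk _ (-1, -1 / 2) 1 1 one_pos one_pos ?_ ?_ ?_ ?_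
      · rw [hland]; exact i2 _ hc
      · rw [hland]; exact interior_subset (i2 _ hc)
      · rw [hland]; exact f2 _ hc
      · rw [hland]; exact lt_of_lt_of_le hhp (h2 _ hc)
  refine thmF H ⟨(1, 0), hp, hr⟩ D4 (by simp [hD4]) ?_
  intro x hx hrx
  have hneg : ∀ y ∈ B, (∃ d ∈ D4, Full B f h y d.1 d.2) → ∃ d ∈ D4, Full B f h (-y) d.1 d.2 := by
    rintro y hy ⟨d, hd, hF⟩
    exact ⟨(-d.1, d.2), hD4neg d hd, Full.neg H hy hF⟩
  rcases lt_trichotomy x.2 0 with hlt | h0 | hgt
  · have h5 : -x ∈ B := H.sym x hx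
    have h6 : f (-x) + h (-x) = 0 := by rw [H.feven x hx, H.heven x hx, hrx]
    have h7 := hneg (-x) h5 (key (-x) h5 h6 (by simpa using hlt))
    rwa [neg_neg] at h7
  · have hxb : x ∈ bd B := H.rim_bd hx hrx
    have hx' : x = x.1 • ((1, 0) : E) := by
      ext <;> simp [h0]
    have h7 : |x.1| ≤ 1 := H.abs_le_of_mem S.pbd (by rw [← hx']; exact hx)
    have h8 : ¬ |x.1| < 1 := by
      intro hlt
      exact hxb.2 (by rw [hx']; exact H.smul_int hp hlt)
    have h9 : |x.1| = 1 := le_antisymm h7 (not_lt.mp h8)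
    rcases (abs_eq (zero_le_one)).mp h9 with h10 | h10
    · have h11 : x = (1, 0) := by
        ext <;> simp [h0, h10]
      rw [h11]
      exact keyp
    · have h11 : x = -(1, 0) := by
        ext <;> simp [h0, h10]
      rw [h11]
      exact hneg _ hp keyp
  · exact key x hx hrx hgt

theorem case2_top (S : Set1 B f h) (hr : f (1, 0) + h (1, 0) = 0) (ha : f (1, 0) < f 0)
    (hfq : f (0, 1) = f (1, 0))
    (hQ : ∀ x ∈ bd B, f x + h x = 0 → h x < h (0, 1)) : Good B f h := by
  obtain ⟨l, hl1, hl⟩ := S.toHF.exists_support S.qbd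
  have hlx : ∀ x : E, l x = x.1 * l (1, 0) + x.2 := by
    intro x
    have h5 : x = x.1 • ((1, 0) : E) + x.2 • ((0, 1) : E) := by
      ext <;> simp
    conv_lhs => rw [h5]
    rw [map_add, map_smul, map_smul, hl1]
    simp
  rcases le_total (l (1, 0)) 0 with hσ | hσ
  · refine case2_top_aux S hr ha hfq hQ 1 (Or.inl rfl) ?_
    intro x hx hx1 _
    have h6 := hl x hx
    rw [hlx] at h6
    have h7 : 0 ≤ x.1 * l (1, 0) := mul_nonneg_of_nonpos_of_nonpos (by linarith) hσ
    linarith
  · refine case2_top_aux S hr ha hfq hQ (-1) (Or.inr rfl) ?_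
    intro x hx hx1 _
    have h6 := hl x hx
    rw [hlx] at h6
    have h7 : 0 ≤ x.1 * l (1, 0) := mul_nonneg (by linarith) hσ
    linarith

end Pool.Agent.Lib.MP_5e7226_co.HT
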