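import Pool.Agent.Lib.MP_5e7226_co.HT.PT3
import Pool.Agent.Lib.MP_5e7226_co.HT.PT5
import Pool.Agent.Lib.MP_5e7226_co.HT.PT6
import Pool.Agent.Lib.MP_5e7226_co.HT.PT7
import Pool.Agent.Lib.MP_5e7226_co.HT.PT8a
import Pool.Agent.Lib.MP_5e7226_co.HT.PT8b
import Pool.Agent.Lib.MP_5e7226_co.HT.PT9a
import Pool.Agent.Lib.MP_5e7226_co.HT.PT9b
import Pool.Agent.Lib.MP_5e7226_co.HT.PT9c
/-! Half-turn case: assembly of the cases. -/

set_option autoImplicit false

open Set Filter Topology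

namespace Pool.Agent.Lib.MP_5e7226_co.HT

variable {B : Set E} {f h : E → ℝ}

/-- if `p` is extreme and `q ∈ B` -/
theorem lt_of_extreme (H : HF B f h) (hp : ((1, 0) : E) ∈ bd B) (hq : ((0, 1) : E) ∈ B)
    (hext : ∀ a ∈ B, ∀ b ∈ B, ∀ t : ℝ, 0 < t → t < 1 → ((1, 0) : E) = (1 - t) • a + t • b →
      a = (1, 0)) {x : E} (hx : x ∈ B) (h2 : x.2 ≠ 0) : |x.1| < 1 + |x.2| := by
  by_contra hcon
  push Not at hcon
  -- reduce to 0 < x.1
  have key : ∀ x ∈ B, x.2 ≠ 0 → 1 + |x.2| ≤ x.1 → False := by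
    intro x hx h2 hle
    have h2' : 0 < |x.2| := abs_pos.mpr h2
    set e : ℝ := x.2 / |x.2| with he
    have habs : |e| = 1 := by rw [he, abs_div, abs_abs, div_self h2'.ne']
    have hqe : (0, -e) ∈ B := by
      have := H.smul_mem hq (c := -e) (by rw [abs_neg, habs])
      simpa using this
    set t : ℝ := |x.2| / (1 + |x.2|) with ht
    have ht0 : 0 < t := by positivity
    have ht1 : t < 1 := by rw [ht, div_lt_one (by positivity)]; linarith
    have h1t : 1 - t = 1 / (1 + |x.2|) := by rw [ht]; field_simp; ring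
    have hz : (1 - t) • x + t • ((0, -e) : E) = (x.1 / (1 + |x.2|), 0) := by
      ext
      · simp [h1t]; field_simp
      · simp [ht, he]
        field_simp
        ring
    have hzB : ((x.1 / (1 + |x.2|), 0) : E) ∈ B := by
      rw [← hz]
      exact H.conv hx hqe (by linarith) ht0.le (by ring)
    have h3 : |x.1 / (1 + |x.2|)| ≤ 1 := by
      apply H.abs_le_of_mem hp
      simpa using hzB
    have h4 : 1 ≤ x.1 / (1 + |x.2|) := by
      rw [le_div_iff₀ (by positivity)]; linarith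
    have h5 : x.1 / (1 + |x.2|) = 1 := le_antisymm (le_trans (le_abs_self _) h3) h4
    rw [h5] at hz
    have := hext x hx _ hqe t ht0 ht1 hz.symm
    apply h2
    rw [this]
  rcases le_or_gt 0 x.1 with h0 | h0
  · rw [abs_of_nonneg h0] at hcon
    exact key x hx h2 hcon
  · rw [abs_of_neg h0] at hcon
    refine key (-x) (H.sym x hx) (by simpa using h2) ?_
    simpa using hcon

/-- a linear equivalence of the plane -/
theorem exists_equiv {p q : E} (hpq : ∀ c d : ℝ, c • p + d • q = 0 → c = 0 ∧ d = 0) :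
    ∃ T : E ≃ₗ[ℝ] E, T p = (1, 0) ∧ T q = (0, 1) := by
  let S : E →ₗ[ℝ] E :=
    { toFun := fun x => x.1 • p + x.2 • q
      map_add' := by
        intro x y
        simp only [Prod.fst_add, Prod.snd_add, add_smul]
        abel
      map_smul' := by
        intro c x
        simp only [Prod.smul_fst, Prod.smul_snd, smul_eq_mul, RingHom.id_apply, smul_add, mul_smul] }
  have hinj : Function.Injective S := by
    rw [← LinearMap.ker_eq_bot, LinearMap.ker_eq_bot']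
    intro x hx
    have := hpq x.1 x.2 hx
    exact Prod.ext this.1 this.2
  let S' : E ≃ₗ[ℝ] E := LinearEquiv.ofInjectiveEndo S hinj
  refine ⟨S'.symm, ?_, ?_⟩
  · rw [LinearEquiv.symm_apply_eq]
    show p = S (1, 0)
    simp [S]
  · rw [LinearEquiv.symm_apply_eq]
    show q = S (0, 1)
    simp [S]

theorem indep (H : HF B f h) {p q : E} (hp : p ∈ bd B) (hq : q ∈ bd B) (h1 : q ≠ p) (h2 : q ≠ -p) :
    ∀ c d : ℝ, c • p + d • q = 0 → c = 0 ∧ d = 0 := by
  intro c d hcd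
  have hd : d = 0 := by
    by_contra hd
    have hq' : q = (-(c / d)) • p := by
      have : d • q = -(c • p) := by
        rw [eq_neg_iff_add_eq_zero, add_comm]; exact hcd
      calc q = d⁻¹ • (d • q) := by rw [smul_smul, inv_mul_cancel₀ hd, one_smul]
        _ = (-(c / d)) • p := by
          rw [this, smul_neg, smul_smul, ← neg_smul]
          congr 1
          field_simp
    have h3 : |(-(c / d))| ≤ 1 := H.abs_le_of_mem hp (by rw [← hq']; exact hq.1)
    have h4 : ¬ |(-(c / d))| < 1 := by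
      intro hlt
      have := H.smul_int hp.1 hlt
      rw [← hq'] at this
      exact hq.2 this
    have h5 : |(-(c / d))| = 1 := le_antisymm h3 (not_lt.mp h4)
    rcases abs_eq (zero_le_one) |>.mp h5 with h6 | h6
    · rw [h6, one_smul] at hq'; exact h1 hq'
    · rw [h6, neg_smul, one_smul] at hq'; exact h2 hq'
  refine ⟨?_, hd⟩
  rw [hd, zero_smul, add_zero, smul_eq_zero] at hcd
  rcases hcd with h3 | h3
  · exact h3
  · exact absurd h3 (fun h0 => hp.2 (h0 ▸ H.int0))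

/-- common supporting line of `p` and `±q` -/
def Par (B : Set E) (p q : E) : Prop :=
  ∃ l : E →ₗ[ℝ] ℝ, (∀ x ∈ B, l x ≤ 1) ∧ l p = 1 ∧ (l q = 1 ∨ l q = -1)

theorem Par.trans (T : E ≃ₗ[ℝ] E) {p q : E} (hh : Par (T '' B) (T p) (T q)) : Par B p q := by
  obtain ⟨l, h1, h2, h3⟩ := hh
  exact ⟨l ∘ₗ (T : E →ₗ[ℝ] E), fun x hx => h1 _ ⟨x, hx, rfl⟩, h2, h3⟩

theorem lin_coord (l : E →ₗ[ℝ] ℝ) (x : E) : l x = x.1 * l (1, 0) + x.2 * l (0, 1) := by
  have : x = x.1 • ((1, 0) : E) + x.2 • ((0, 1) : E) := by ext <;> simp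
  conv_lhs => rw [this]
  rw [map_add, map_smul, map_smul, smul_eq_mul, smul_eq_mul]

theorem supp_lt (H : HF B f h) (hq : ((0, 1) : E) ∈ bd B)
    {l : E →ₗ[ℝ] ℝ} (hl : ∀ x ∈ B, l x ≤ 1) (h1 : l (1, 0) = 1)
    (hn : ¬ (l (0, 1) = 1 ∨ l (0, 1) = -1)) {x : E} (hx : x ∈ B) (h2 : x.2 ≠ 0) :
    |x.1| < 1 + |x.2| := by
  have hb : |l (0, 1)| < 1 := by
    have h3 := hl _ hq.1
    have h4 := hl _ (H.sym _ hq.1)
    rw [map_neg] at h4
    rw [abs_lt]
    refine ⟨lt_of_le_of_ne (by linarith) fun h => hn (Or.inr h.symm),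
      lt_of_le_of_ne h3 fun h => hn (Or.inl h)⟩
  have h2' : 0 < |x.2| := abs_pos.mpr h2
  have h5 := hl x hx
  have h6 := hl _ (H.sym x hx)
  rw [map_neg] at h6
  rw [lin_coord, h1] at h5 h6
  have h7 : |x.2 * l (0, 1)| < |x.2| := by
    rw [abs_mul]
    nlinarith
  rw [abs_lt] at h7
  rw [abs_lt]
  constructor <;> linarith

/-- the two coordinates swapped -/
def sw : E ≃ₗ[ℝ] E := LinearEquiv.prodComm ℝ ℝ ℝ

@[simp] theorem sw_apply (x : E) : sw x = (x.2, x.1) := rfl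

@[simp] theorem sw_symm_apply (x : E) : sw.symm x = (x.2, x.1) := rfl

theorem nd_of_corner (H : HF B f h) (hp : ((1, 0) : E) ∈ bd B) (hq : ((0, 1) : E) ∈ bd B)
    {l k : E →ₗ[ℝ] ℝ} {u v : E} (hc : Corner B (1, 0) l k u v)
    {l' k' : E →ₗ[ℝ] ℝ} {u' v' : E} (hc' : Corner B (0, 1) l' k' u' v') :
    ∀ x ∈ B, x.1 ≠ 0 → x.2 ≠ 0 → |x.1| < 1 + |x.2| ∧ |x.2| < 1 + |x.1| := by
  intro x hx h1 h2
  refine ⟨lt_of_extreme H hp hq.1 (fun a ha b hb t ht0 ht1 he => (hc.extreme ha hb ht0 ht1 he).1)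
    hx h2, ?_⟩
  have H' := H.trans sw
  have hp' : ((1, 0) : E) ∈ bd (sw '' B) := by
    rw [bd_image]; exact ⟨(0, 1), hq, rfl⟩
  have hq' : ((0, 1) : E) ∈ sw '' B := ⟨(1, 0), hp.1, rfl⟩
  have := lt_of_extreme H' hp' hq' (fun a ha b hb t ht0 ht1 he =>
    ((hc'.trans sw).extreme ha hb ht0 ht1 he).1) (x := sw x) ⟨x, hx, rfl⟩ h1
  exact this

theorem nd_of_nonpar (H : HF B f h) (hp : ((1, 0) : E) ∈ bd B) (hq : ((0, 1) : E) ∈ bd B)
    (hn : ¬ Par B (1, 0) (0, 1)) :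
    ∀ x ∈ B, x.1 ≠ 0 → x.2 ≠ 0 → |x.1| < 1 + |x.2| ∧ |x.2| < 1 + |x.1| := by
  intro x hx h1 h2
  constructor
  · obtain ⟨l, hl1, hl⟩ := H.exists_support hp
    exact supp_lt H hq hl hl1 (fun hh => hn ⟨l, hl, hl1, hh⟩) hx h2
  · obtain ⟨l, hl1, hl⟩ := H.exists_support hq
    have H' := H.trans sw
    have hp' : ((1, 0) : E) ∈ bd (sw '' B) := by
      rw [bd_image]; exact ⟨(0, 1), hq, rfl⟩
    have hq' : ((0, 1) : E) ∈ bd (sw '' B) := by
      rw [bd_image]; exact ⟨(1, 0), hp, rfl⟩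
    refine supp_lt H' hq' (l := l ∘ₗ (sw : E →ₗ[ℝ] E)) ?_ hl1 ?_ (x := sw x) ⟨x, hx, rfl⟩ h1
    · rintro _ ⟨y, hy, rfl⟩
      exact hl y hy
    · intro hh
      change l (1, 0) = 1 ∨ l (1, 0) = -1 at hh
      rcases hh with h3 | h3
      · exact hn ⟨l, hl, h3, Or.inl hl1⟩
      · refine hn ⟨-l, fun x hx => ?_, by simp [h3], Or.inr (by simp [hl1])⟩
        have := hl _ (H.sym x hx)
        rw [map_neg] at this
        exact this

theorem seg_of_nonpar (H : HF B f h) (hp : ((1, 0) : E) ∈ bd B) (hq : ((0, 1) : E) ∈ bd B)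
    (hn : ¬ Par B (1, 0) (0, 1)) (t : ℝ) (h0 : 0 < t) (h1 : t < 1) :
    ((t, 1 - t) : E) ∈ interior B := by
  have hmem : ((t, 1 - t) : E) ∈ B := by
    have := H.conv hp.1 hq.1 h0.le (show 0 ≤ 1 - t by linarith) (by ring)
    simpa using this
  by_contra hcon
  obtain ⟨l, hl1, hl⟩ := H.exists_support (y := (t, 1 - t)) ⟨hmem, hcon⟩
  rw [lin_coord] at hl1
  simp only at hl1
  have h2 := hl _ hp.1
  have h3 := hl _ hq.1
  apply hn
  refine ⟨l, hl, ?_, Or.inl ?_⟩ <;> nlinarith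

theorem set1_swap (S : Set1 B f h) : Set1 (sw '' B) (h ∘ sw.symm) (f ∘ sw.symm) where
  toHF := S.toHF.flip.trans sw
  pbd := by rw [bd_image]; exact ⟨(0, 1), S.qbd, rfl⟩
  qbd := by rw [bd_image]; exact ⟨(1, 0), S.pbd, rfl⟩
  fmax := by
    rw [bd_image]
    rintro _ ⟨x, hx, rfl⟩
    simpa using S.hmax x hx
  hmax := by
    rw [bd_image]
    rintro _ ⟨x, hx, rfl⟩
    simpa using S.fmax x hx
  MN := by
    have := S.MN
    simp
    linarith
  nd := by
    rintro _ ⟨x, hx, rfl⟩ h1 h2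
    have := S.nd x hx h2 h1
    exact ⟨this.2, this.1⟩

theorem side (S : Set1 B f h) (hr : f (1, 0) + h (1, 0) = 0) (hΔ : f (0, 1) < f (1, 0)) :
    Good B f h ∨ UG B f h (1, 0) ∨
      (f (1, 0) < f 0 ∧ ∃ x ∈ B, f (1, 0) ≤ f x ∧ 1 < |x.1| + |x.2|) := by
  rcases lt_or_eq_of_le (S.toHF.le_zero S.pbd.1) with ha | ha
  · by_cases hU : ∃ x ∈ B, f (1, 0) ≤ f x ∧ 1 < |x.1| + |x.2|
    · exact Or.inr (Or.inr ⟨ha, hU⟩)
    · push Not at hU
      rcases KL S hr ha hU hΔ with h1 | h1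
      · exact Or.inr (Or.inl h1)
      · exact Or.inl (s3 S hr ha hU hΔ h1)
  · by_cases hc : ∀ x ∈ B, f x = f 0
    · exact Or.inl (s0' S.toHF hc)
    · push Not at hc
      obtain ⟨x, hx, hne⟩ := hc
      exact Or.inr (Or.inl (tangent S.toHF S.pbd ha
        ⟨x, hx, lt_of_le_of_ne (S.toHF.le_zero hx) hne⟩))

/-- (4) -/
theorem case4 (S : Set1 B f h) (hrp : f (1, 0) + h (1, 0) = 0) (hrq : f (0, 1) + h (0, 1) = 0) :
    Good B f h := by
  have hMN := S.MN
  have S' := set1_swap S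
  have back : Good (sw '' B) (h ∘ sw.symm) (f ∘ sw.symm) → Good B f h :=
    fun hg => (Good.trans sw hg).flip
  have hrp' : (h ∘ sw.symm) (1, 0) + (f ∘ sw.symm) (1, 0) = 0 := by simp; linarith
  have hrq' : (h ∘ sw.symm) (0, 1) + (f ∘ sw.symm) (0, 1) = 0 := by simp; linarith
  rcases side S hrp (by linarith) with h1 | h1 | ⟨ha, hα⟩
  · exact h1
  · rcases side S' hrp' (by simp; linarith) with h2 | h2 | ⟨hb, x, ⟨y, hy, rfl⟩, hx1, hx2⟩
    · exact back h2
    · refine s5 S hrp hrq h1 ?_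
      exact (UG.trans sw (p := (0, 1))).mp h2
    · refine s6 S hrp hrq h1 hb ⟨y, hy, by simpa using hx1, ?_⟩
      simp only [sw_apply] at hx2
      linarith
  · rcases side S' hrp' (by simp; linarith) with h2 | h2 | ⟨hb, x, ⟨y, hy, rfl⟩, hx1, hx2⟩
    · exact back h2
    · refine back (s6 S' hrp' hrq' h2 ha ?_)
      obtain ⟨x, hx, hx1, hx2⟩ := hα
      refine ⟨sw x, ⟨x, hx, rfl⟩, by simpa using hx1, ?_⟩
      simp only [sw_apply]
      linarith
    · exact s4 S hrp hrq ha hb hα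

/-- (2), not parallel -/
theorem case2 (S : Set1 B f h) (hr : f (1, 0) + h (1, 0) = 0)
    (hQ : ∀ x ∈ bd B, f x + h x = 0 → h x < h (0, 1))
    {l k : E →ₗ[ℝ] ℝ} {u v : E} (hc : Corner B (1, 0) l k u v)
    (hseg : ∀ t : ℝ, 0 < t → t < 1 → ((t, 1 - t) : E) ∈ interior B) : Good B f h := by
  rcases lt_or_eq_of_le (S.toHF.le_zero S.pbd.1) with ha | ha
  · by_cases hU : ∃ x ∈ B, f (1, 0) ≤ f x ∧ 1 < |x.1| + |x.2|
    · obtain ⟨h1, h2⟩ := alpha S hr ha hU
      refine thmF S.toHF ⟨(1, 0), S.pbd.1, hr⟩ MIDS (by simp [MIDS]) ?_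
      intro x hx hrx
      have hxb := S.toHF.rim_bd hx hrx
      by_cases e1 : x = (1, 0)
      · rw [e1]; exact h1
      by_cases e2 : x = (-1, 0)
      · rw [e2]; exact h2
      have hhx := hQ x hxb hrx
      have e3 : x ≠ (0, 1) := by rintro rfl; exact lt_irrefl _ hhx
      have e4 : x ≠ (0, -1) := by
        rintro rfl
        have := S.toHF.heven (0, 1) S.qbd.1
        simp at this
        linarith
      exact mids_full S hxb e1 e2 e3 e4 (Or.inr ha) (Or.inl hhx)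
    · push Not at hU
      rcases lt_or_eq_of_le (S.fmax _ S.qbd) with hq | hq
      · rcases KL S hr ha hU hq with h1 | h1
        · exact s2 S hr hc hQ hseg h1 (Or.inl hq)
        · exact s3 S hr ha hU hq h1
      · exact case2_top S hr ha hq hQ
  · by_cases hcst : ∀ x ∈ B, f x = f 0
    · exact s0' S.toHF hcst
    · push Not at hcst
      obtain ⟨x, hx, hne⟩ := hcst
      exact s2 S hr hc hQ hseg (tangent S.toHF S.pbd ha
        ⟨x, hx, lt_of_le_of_ne (S.toHF.le_zero hx) hne⟩) (Or.inr ha.symm)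

theorem mkSet1 (H : HF B f h) {p q : E} (hp : p ∈ bd B) (hq : q ∈ bd B)
    (hfm : ∀ x ∈ bd B, f x ≤ f p) (hhm : ∀ x ∈ bd B, h x ≤ h q) (hMN : 0 < f p + h q)
    (T : E ≃ₗ[ℝ] E) (hTp : T p = (1, 0)) (hTq : T q = (0, 1))
    (hnd : ∀ x ∈ T '' B, x.1 ≠ 0 → x.2 ≠ 0 → |x.1| < 1 + |x.2| ∧ |x.2| < 1 + |x.1|) :
    Set1 (T '' B) (f ∘ T.symm) (h ∘ T.symm) where
  toHF := H.trans T
  pbd := by rw [bd_image]; exact ⟨p, hp, hTp⟩
  qbd := by rw [bd_image]; exact ⟨q, hq, hTq⟩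
  fmax := by
    rw [bd_image]
    rintro _ ⟨x, hx, rfl⟩
    rw [← hTp]
    simpa using hfm x hx
  hmax := by
    rw [bd_image]
    rintro _ ⟨x, hx, rfl⟩
    rw [← hTq]
    simpa using hhm x hx
  MN := by
    rw [← hTp, ← hTq]
    simpa using hMN
  nd := hnd

/-- (2) in general -/
theorem case2_all (H : HF B f h) {p q : E} (hp : p ∈ bd B) (hq : q ∈ bd B)
    (hfm : ∀ x ∈ bd B, f x ≤ f p) (hhm : ∀ x ∈ bd B, h x ≤ h q) (hMN : 0 < f p + h q)
    (hr : f p + h p = 0) {l k : E →ₗ[ℝ] ℝ} {u v : E} (hc : Corner B p l k u v)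
    (hQ : ∀ x ∈ bd B, f x + h x = 0 → h x < h q) : Good B f h := by
  have h1 : q ≠ p := by
    rintro rfl
    exact lt_irrefl _ (hQ q hq hr)
  have h2 : q ≠ -p := by
    rintro rfl
    have := hQ p hp hr
    rw [H.heven p hp.1] at this
    exact lt_irrefl _ this
  by_cases hpar : Par B p q
  · -- normalise the sign of q
    obtain ⟨L, hL, hLp, hLq⟩ := hpar
    obtain ⟨q', hq', hhq', hLq', hn1, hn2⟩ : ∃ q' ∈ bd B, h q' = h q ∧ L q' = 1 ∧ q' ≠ p ∧ q' ≠ -p := by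
      rcases hLq with h3 | h3
      · exact ⟨q, hq, rfl, h3, h1, h2⟩
      · refine ⟨-q, H.neg_bd hq, H.heven q hq.1, by rw [map_neg, h3, neg_neg], ?_, ?_⟩
        · intro h4; apply h2; rw [← h4, neg_neg]
        · intro h4; apply h1; exact neg_injective h4
    obtain ⟨T, hTp, hTq⟩ := exists_equiv (indep H hp hq' hn1 hn2)
    apply Good.trans T
    have e1 : (f ∘ T.symm) (1, 0) = f p := by rw [← hTp]; simp
    have e2 : (h ∘ T.symm) (1, 0) = h p := by rw [← hTp]; simp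
    have e3 : (h ∘ T.symm) (0, 1) = h q := by rw [← hTq]; simp [hhq']
    refine case2_par (H.trans T) (by rw [bd_image]; exact ⟨p, hp, hTp⟩)
      (by rw [bd_image]; exact ⟨q', hq', hTq⟩) ?_ ?_ (by rw [e1, e3]; exact hMN)
      (by rw [e1, e2]; exact hr) ?_ (hTp ▸ hc.trans T) ?_
    · rw [bd_image, e1]
      rintro _ ⟨x, hx, rfl⟩
      simpa using hfm x hx
    · rw [bd_image, e3]
      rintro _ ⟨x, hx, rfl⟩
      simpa using hhm x hx
    · rw [bd_image, e3]
      rintro _ ⟨x, hx, rfl⟩ hrx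
      simp only [Function.comp_apply, LinearEquiv.symm_apply_apply] at hrx ⊢
      exact hQ x hx hrx
    · rintro _ ⟨x, hx, rfl⟩
      have h5 := lin_coord (L ∘ₗ (T.symm : E →ₗ[ℝ] E)) (T x)
      have h6 : (L ∘ₗ (T.symm : E →ₗ[ℝ] E)) (1, 0) = 1 := by rw [← hTp]; simp [hLp]
      have h7 : (L ∘ₗ (T.symm : E →ₗ[ℝ] E)) (0, 1) = 1 := by rw [← hTq]; simp [hLq']
      rw [h6, h7] at h5
      have h8 := hL x hx
      simp at h5
      linarith
  · obtain ⟨T, hTp, hTq⟩ := exists_equiv (indep H hp hq h1 h2)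
    apply Good.trans T
    have e1 : (f ∘ T.symm) (1, 0) = f p := by rw [← hTp]; simp
    have e2 : (h ∘ T.symm) (1, 0) = h p := by rw [← hTp]; simp
    have e3 : (h ∘ T.symm) (0, 1) = h q := by rw [← hTq]; simp
    have hp' : ((1, 0) : E) ∈ bd (T '' B) := by rw [bd_image]; exact ⟨p, hp, hTp⟩
    have hq' : ((0, 1) : E) ∈ bd (T '' B) := by rw [bd_image]; exact ⟨q, hq, hTq⟩
    have hpar' : ¬ Par (T '' B) (1, 0) (0, 1) := by
      intro hh
      apply hpar
      apply Par.trans T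
      rw [hTp, hTq]
      exact hh
    have S := mkSet1 H hp hq hfm hhm hMN T hTp hTq (nd_of_nonpar (H.trans T) hp' hq' hpar')
    refine case2 S (by rw [e1, e2]; exact hr) ?_ (hTp ▸ hc.trans T)
      (seg_of_nonpar (H.trans T) hp' hq' hpar')
    rw [bd_image, e3]
    rintro _ ⟨x, hx, rfl⟩ hrx
    simp only [Function.comp_apply, LinearEquiv.symm_apply_apply] at hrx ⊢
    exact hQ x hx hrx

/-- (1) in general -/
theorem case1_all (H : HF B f h) {p q : E} (hp : p ∈ bd B) (hq : q ∈ bd B)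
    (hfm : ∀ x ∈ bd B, f x ≤ f p) (hhm : ∀ x ∈ bd B, h x ≤ h q) (hMN : 0 < f p + h q)
    (hP : ∀ x ∈ bd B, f x + h x = 0 → f x < f p)
    (hQ : ∀ x ∈ bd B, f x + h x = 0 → h x < h q) : Good B f h := by
  by_cases hpar : Par B p q
  · obtain ⟨L, hL, hLp, hLq⟩ := hpar
    rcases hLq with h3 | h3
    · exact case1_par H hp hq hfm hhm hP hQ hL hLp h3
    · have e : h (-q) = h q := H.heven q hq.1
      exact case1_par H hp (H.neg_bd hq) hfm (by rw [e]; exact hhm) hP (by rw [e]; exact hQ) hL hLp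
        (by rw [map_neg, h3, neg_neg])
  · have h1 : q ≠ p := by
      rintro rfl
      obtain ⟨l, hl1, hl⟩ := H.exists_support hp
      exact hpar ⟨l, hl, hl1, Or.inl hl1⟩
    have h2 : q ≠ -p := by
      rintro rfl
      obtain ⟨l, hl1, hl⟩ := H.exists_support hp
      exact hpar ⟨l, hl, hl1, Or.inr (by rw [map_neg, hl1])⟩
    obtain ⟨T, hTp, hTq⟩ := exists_equiv (indep H hp hq h1 h2)
    apply Good.trans T
    have e1 : (f ∘ T.symm) (1, 0) = f p := by rw [← hTp]; simp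
    have e3 : (h ∘ T.symm) (0, 1) = h q := by rw [← hTq]; simp
    have hp' : ((1, 0) : E) ∈ bd (T '' B) := by rw [bd_image]; exact ⟨p, hp, hTp⟩
    have hq' : ((0, 1) : E) ∈ bd (T '' B) := by rw [bd_image]; exact ⟨q, hq, hTq⟩
    have hpar' : ¬ Par (T '' B) (1, 0) (0, 1) := by
      intro hh
      apply hpar
      apply Par.trans T
      rw [hTp, hTq]
      exact hh
    have S := mkSet1 H hp hq hfm hhm hMN T hTp hTq (nd_of_nonpar (H.trans T) hp' hq' hpar')
    refine case1 S ?_ ?_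
    · rw [bd_image, e1]
      rintro _ ⟨x, hx, rfl⟩ hrx
      simp only [Function.comp_apply, LinearEquiv.symm_apply_apply] at hrx ⊢
      exact hP x hx hrx
    · rw [bd_image, e3]
      rintro _ ⟨x, hx, rfl⟩ hrx
      simp only [Function.comp_apply, LinearEquiv.symm_apply_apply] at hrx ⊢
      exact hQ x hx hrx

/-- (4) in general -/
theorem case4_all (H : HF B f h) {p q : E} (hp : p ∈ bd B) (hq : q ∈ bd B)
    (hfm : ∀ x ∈ bd B, f x ≤ f p) (hhm : ∀ x ∈ bd B, h x ≤ h q) (hMN : 0 < f p + h q)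
    (hrp : f p + h p = 0) (hrq : f q + h q = 0)
    {l k : E →ₗ[ℝ] ℝ} {u v : E} (hc : Corner B p l k u v)
    {l' k' : E →ₗ[ℝ] ℝ} {u' v' : E} (hc' : Corner B q l' k' u' v') : Good B f h := by
  have h1 : q ≠ p := by
    rintro rfl
    linarith
  have h2 : q ≠ -p := by
    rintro rfl
    rw [H.feven p hp.1, H.heven p hp.1] at hrq
    rw [H.heven p hp.1] at hMN
    linarith
  obtain ⟨T, hTp, hTq⟩ := exists_equiv (indep H hp hq h1 h2)
  apply Good.trans T
  have e1 : (f ∘ T.symm) (1, 0) = f p := by rw [← hTp]; simp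
  have e2 : (h ∘ T.symm) (1, 0) = h p := by rw [← hTp]; simp
  have e3 : (h ∘ T.symm) (0, 1) = h q := by rw [← hTq]; simp
  have e4 : (f ∘ T.symm) (0, 1) = f q := by rw [← hTq]; simp
  have hp' : ((1, 0) : E) ∈ bd (T '' B) := by rw [bd_image]; exact ⟨p, hp, hTp⟩
  have hq' : ((0, 1) : E) ∈ bd (T '' B) := by rw [bd_image]; exact ⟨q, hq, hTq⟩
  have S := mkSet1 H hp hq hfm hhm hMN T hTp hTq
    (nd_of_corner (H.trans T) hp' hq' (hTp ▸ hc.trans T) (hTq ▸ hc'.trans T))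
  exact case4 S (by rw [e1, e2]; exact hrp) (by rw [e3, e4]; exact hrq)

theorem main (H : HF B f h) : Good B f h := by
  by_cases hD : ∀ x ∈ B, f x + h x ≠ 0
  · exact s0 H hD
  obtain ⟨p0, hp0, hpm⟩ := H.exists_max
  obtain ⟨q0, hq0, hqm⟩ := H.flip.exists_max
  have hMN0 : 0 ≤ f p0 + h q0 := by
    have := H.nonneg p0 hp0.1
    have := hqm p0 hp0
    linarith
  rcases hMN0.eq_or_lt with hMN | hMN
  · -- M + N = 0
    refine case_flat H (M := f p0) ?_
    intro x hx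
    have h1 := hpm x hx
    have h2 := hqm x hx
    have h3 := H.nonneg x hx.1
    constructor <;> linarith
  by_cases hP : ∃ x ∈ bd B, f x + h x = 0 ∧ f x = f p0
  · obtain ⟨x, hx, hrx, hfx⟩ := hP
    obtain ⟨p, l, k, u, v, hc, hrp, hfp, -⟩ := ext_corner H hx.1 hrx
    have hfp' : f p = f p0 := by rw [hfp (by rw [hfx]; exact hpm), hfx]
    by_cases hQ : ∃ x ∈ bd B, f x + h x = 0 ∧ h x = h q0
    · obtain ⟨y, hy, hry, hhy⟩ := hQ
      obtain ⟨q, l', k', u', v', hc', hrq, -, hhq⟩ := ext_corner H hy.1 hry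
      have hhq' : h q = h q0 := by rw [hhq (by rw [hhy]; exact hqm), hhy]
      exact case4_all H (hc.bd H) (hc'.bd H) (by rw [hfp']; exact hpm) (by rw [hhq']; exact hqm)
        (by rw [hfp', hhq']; exact hMN) hrp hrq hc hc'
    · push Not at hQ
      exact case2_all H (hc.bd H) hq0 (by rw [hfp']; exact hpm) hqm (by rw [hfp']; exact hMN) hrp hc
        (fun x hx hrx => lt_of_le_of_ne (hqm x hx) (hQ x hx hrx))
  · push Not at hP
    have hP' : ∀ x ∈ bd B, f x + h x = 0 → f x < f p0 :=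
      fun x hx hrx => lt_of_le_of_ne (hpm x hx) (hP x hx hrx)
    by_cases hQ : ∃ x ∈ bd B, f x + h x = 0 ∧ h x = h q0
    · obtain ⟨y, hy, hry, hhy⟩ := hQ
      obtain ⟨q, l', k', u', v', hc', hrq, -, hhq⟩ := ext_corner H hy.1 hry
      have hhq' : h q = h q0 := by rw [hhq (by rw [hhy]; exact hqm), hhy]
      refine Good.flip (case2_all H.flip (hc'.bd H) hp0 (by rw [hhq']; exact hqm) hpm
        (by rw [hhq']; linarith) (by linarith) hc' ?_)
      intro x hx hrx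
      exact hP' x hx (by linarith)
    · push Not at hQ
      exact case1_all H hp0 hq0 hpm hqm hMN hP'
        (fun x hx hrx => lt_of_le_of_ne (hqm x hx) (hQ x hx hrx))

end Pool.Agent.Lib.MP_5e7226_co.HT
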