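import Pool.Agent.Lib.MP_5e7226_co.HT.Base
set_option autoImplicit false

open Set Filter Topology

namespace Pool.Agent.Lib.MP_5e7226_co.HT

open Pool.Agent.Lib.MP_5e7226_co.HT

variable {B : Set E} {f h : E → ℝ}

/-- `UP` holds for all small times -/
theorem UP.small (H : HF B f h) {x v : E} {w : ℝ} (hx : x ∈ B) (hh : UP B f x v w) :
    ∃ r : ℝ, 0 < r ∧ ∀ t : ℝ, 0 < t → t ≤ r → x + t • v ∈ B ∧ f x + t * w < f (x + t • v) := by
  obtain ⟨t0, ht0, hm, hlt⟩ := hh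
  refine ⟨t0, ht0, fun t ht htt => ?_⟩
  have hl0 : 0 < t / t0 := div_pos ht ht0
  have hl1 : t / t0 ≤ 1 := (div_le_one ht0).2 htt
  have e : x + t • v = (1 - t / t0) • x + (t / t0) • (x + t0 • v) := by
    rw [smul_add, smul_smul, div_mul_cancel₀ _ ht0.ne', sub_smul, one_smul]
    abel
  have hmem : x + t • v ∈ B := by
    rw [e]
    exact H.conv hx hm (by linarith) hl0.le (by ring)
  refine ⟨hmem, ?_⟩
  have hc := H.fconc.2 hx hm (show 0 ≤ 1 - t / t0 by linarith) hl0.le (by ring)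
  rw [← e] at hc
  simp only [smul_eq_mul] at hc
  have h1 : t / t0 * (f x + t0 * w) < t / t0 * f (x + t0 • v) := mul_lt_mul_of_pos_left hlt hl0
  have h2 : t / t0 * (t0 * w) = t * w := by
    rw [← mul_assoc, div_mul_cancel₀ _ ht0.ne']
  nlinarith

theorem IN.small (H : HF B f h) {x v : E} (hx : x ∈ B) (hh : IN B x v) :
    ∃ r : ℝ, 0 < r ∧ ∀ t : ℝ, 0 < t → t ≤ r → x + t • v ∈ interior B := by
  obtain ⟨t0, ht0, hm⟩ := hh
  refine ⟨t0, ht0, fun t ht htt => ?_⟩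
  have hl0 : 0 < t / t0 := div_pos ht ht0
  have hl1 : t / t0 ≤ 1 := (div_le_one ht0).2 htt
  have e : x + t • v = (1 - t / t0) • x + (t / t0) • (x + t0 • v) := by
    rw [smul_add, smul_smul, div_mul_cancel₀ _ ht0.ne', sub_smul, one_smul]
    abel
  rw [e]
  exact H.seg_int hm hx hl0 hl1

theorem UP.smul (H : HF B f h) {x v : E} {w c : ℝ} (hc : 0 < c) (hh : UP B f x v w) :
    UP B f x (c • v) (c * w) := by
  obtain ⟨t0, ht0, hm, hlt⟩ := hh
  refine ⟨t0 / c, div_pos ht0 hc, ?_, ?_⟩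
  · rw [smul_smul, div_mul_cancel₀ _ hc.ne']; exact hm
  · rw [smul_smul, div_mul_cancel₀ _ hc.ne', ← mul_assoc, div_mul_cancel₀ _ hc.ne']; exact hlt

theorem cont_int (H : HF B f h) {x : E} (hx : x ∈ interior B) : ContinuousAt f x := by
  have h1 : ContinuousOn f (interior B) := H.fconc.continuousOn_interior
  exact h1.continuousAt (isOpen_interior.mem_nhds hx)

/-- openness for one function -/
theorem up_open (H : HF B f h) {x v : E} {w t : ℝ} (hx : x ∈ B) (ht : 0 < t)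
    (hint : x + t • v ∈ interior B) (hlt : f x + t * w < f (x + t • v)) :
    ∃ r : ℝ, 0 < r ∧ ∀ y ∈ B, ‖y - x‖ < r → ∀ w' : ℝ, |w' - w| < r →
      y + t • v ∈ interior B ∧ f y + t * w' < f (y + t • v) := by
  obtain ⟨δ, hδ, hδ'⟩ : ∃ δ : ℝ, 0 < δ ∧ f x + t * w + 3 * δ ≤ f (x + t • v) :=
    ⟨(f (x + t • v) - (f x + t * w)) / 3, by linarith, by linarith⟩
  have h1 : ∀ᶠ y in 𝓝[B] x, f y < f x + δ := H.fusc x hx (f x + δ) (by linarith)
  have hcont : ContinuousAt (fun y : E => y + t • v) x := by fun_prop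
  have h2 : ∀ᶠ y in 𝓝 x, y + t • v ∈ interior B :=
    hcont.eventually (isOpen_interior.mem_nhds hint)
  have h3 : ∀ᶠ y in 𝓝 x, f (x + t • v) - δ < f (y + t • v) := by
    have := (cont_int H hint).comp_of_eq hcont rfl
    exact this.eventually (lt_mem_nhds (by simp only [Function.comp]; linarith))
  rw [eventually_nhdsWithin_iff] at h1
  have h4 := h1.and (h2.and h3)
  rw [Metric.eventually_nhds_iff] at h4
  obtain ⟨r, hr, hr'⟩ := h4
  refine ⟨min r (δ / t), lt_min hr (div_pos hδ ht), fun y hy hyx w' hw' => ?_⟩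
  obtain ⟨a, b, c⟩ := hr' (y := y) (by rw [dist_eq_norm]; exact hyx.trans_le (min_le_left _ _))
  refine ⟨b, ?_⟩
  have hw2 : |w' - w| < δ / t := hw'.trans_le (min_le_right _ _)
  have hw3 : t * |w' - w| < δ := by
    rw [lt_div_iff₀ ht] at hw2
    linarith
  have hw4 : t * (w' - w) ≤ t * |w' - w| := mul_le_mul_of_nonneg_left (le_abs_self _) ht.le
  have := a hy
  nlinarith

/-- full illumination of a fibre is an open condition -/
theorem loc1 (H : HF B f h) {x v : E} {w : ℝ} (hx : x ∈ B) (hh : Full B f h x v w) :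
    ∃ r : ℝ, 0 < r ∧ ∀ y ∈ B, ‖y - x‖ < r → ∀ w' : ℝ, |w' - w| < r → Full B f h y v w' := by
  obtain ⟨hin, hf, hg⟩ := hh
  obtain ⟨r1, hr1, h1⟩ := IN.small H hx hin
  obtain ⟨r2, hr2, h2⟩ := UP.small H hx hf
  obtain ⟨r3, hr3, h3⟩ := UP.small H.flip hx hg
  obtain ⟨t, ht, ht1, ht2, ht3⟩ : ∃ t : ℝ, 0 < t ∧ t ≤ r1 ∧ t ≤ r2 ∧ t ≤ r3 :=
    ⟨min r1 (min r2 r3), by positivity, min_le_left _ _, (min_le_right _ _).trans (min_le_left _ _),
      (min_le_right _ _).trans (min_le_right _ _)⟩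
  obtain ⟨r4, hr4, h4⟩ := up_open H hx ht (h1 t ht ht1) (h2 t ht ht2).2
  obtain ⟨r5, hr5, h5⟩ := up_open H.flip hx ht (h1 t ht ht1) (h3 t ht ht3).2
  refine ⟨min r4 r5, lt_min hr4 hr5, fun y hy hyx w' hw' => ?_⟩
  obtain ⟨a, b⟩ := h4 y hy (hyx.trans_le (min_le_left _ _)) w' (hw'.trans_le (min_le_left _ _))
  obtain ⟨_, c⟩ := h5 y hy (hyx.trans_le (min_le_right _ _)) (-w') (by
    rw [show -w' - -w = -(w' - w) by ring, abs_neg]
    exact hw'.trans_le (min_le_right _ _))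
  exact ⟨⟨t, ht, a⟩, ⟨t, ht, interior_subset a, b⟩, ⟨t, ht, interior_subset a, c⟩⟩

/-- compactness: local uniformity in `ε` suffices -/
theorem good_of_loc (H : HF B f h) (D : ℝ → List (E × ℝ)) (hD : ∀ ε, (D ε).length ≤ 8)
    (hl : ∀ x ∈ B, ∃ r : ℝ, 0 < r ∧ ∀ y ∈ B, ‖y - x‖ < r → ∀ ε : ℝ, 0 < ε → ε < r →
      Cov B f h (D ε) y) : Good B f h := by
  choose! r hr hr' using hl
  obtain ⟨F, hF, hcov⟩ := H.cpt.elim_nhds_subcover (fun x => Metric.ball x (r x))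
    (fun x hx => Metric.ball_mem_nhds x (hr x hx))
  obtain ⟨ε, hε, hε'⟩ : ∃ ε : ℝ, 0 < ε ∧ ∀ x ∈ F, ε < r x := by
    clear hcov
    induction F using Finset.induction_on with
    | empty => exact ⟨1, one_pos, by simp⟩
    | insert a F ha ih =>
      obtain ⟨ε, hε, hε'⟩ := ih (fun x hx => hF x (Finset.mem_insert_of_mem hx))
      have hra := hr a (hF a (Finset.mem_insert_self _ _))
      refine ⟨min ε (r a / 2), lt_min hε (by linarith), fun x hx => ?_⟩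
      rcases Finset.mem_insert.1 hx with rfl | hx
      · exact (min_le_right _ _).trans_lt (by linarith)
      · exact (min_le_left _ _).trans_lt (hε' x hx)
  refine ⟨D ε, hD ε, fun y hy => ?_⟩
  obtain ⟨x, hx, hyx⟩ := Set.mem_iUnion₂.1 (hcov hy)
  rw [Metric.mem_ball, dist_eq_norm] at hyx
  exact hr' x (hF x hx) y hy hyx ε hε (hε' x hx)

theorem Cov.mono {D D' : List (E × ℝ)} {x : E} (hh : Cov B f h D x) (hD : ∀ d ∈ D, d ∈ D') :
    Cov B f h D' x := by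
  rcases hh with ⟨d, hd, h1⟩ | ⟨h0, ⟨d, hd, h1⟩, ⟨d', hd', h2⟩⟩
  · exact Or.inl ⟨d, hD d hd, h1⟩
  · exact Or.inr ⟨h0, ⟨d, hD d hd, h1⟩, ⟨d', hD d' hd', h2⟩⟩

/-- symmetric sets of directions need to be checked only up to sign -/
theorem Cov.neg (H : HF B f h) {D : List (E × ℝ)} {x : E} (hx : x ∈ B)
    (hD : ∀ d ∈ D, (-d.1, d.2) ∈ D) (hh : Cov B f h D x) : Cov B f h D (-x) := by
  rcases hh with ⟨d, hd, h1⟩ | ⟨h0, ⟨d, hd, h1, h2⟩, ⟨d', hd', h3, h4⟩⟩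
  · exact Or.inl ⟨_, hD d hd, Full.neg H hx h1⟩
  · refine Or.inr ⟨?_, ⟨_, hD d hd, IN.neg H h1, UP.neg H hx h2⟩, ⟨_, hD d' hd', IN.neg H h3, UP.neg H.flip hx h4⟩⟩
    rw [H.feven x hx, H.heven x hx]
    exact h0

theorem Good.flip (hh : Good B h f) : Good B f h := by
  obtain ⟨D, hD, hc⟩ := hh
  refine ⟨D.map (fun d => (d.1, -d.2)), by rw [List.length_map]; exact hD, fun x hx => ?_⟩
  rcases hc x hx with ⟨d, hd, h1, h2, h3⟩ | ⟨h0, ⟨d, hd, h1, h2⟩, ⟨d', hd', h3, h4⟩⟩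
  · exact Or.inl ⟨(d.1, -d.2), List.mem_map.2 ⟨d, hd, rfl⟩, h1, h3, by simpa using h2⟩
  · refine Or.inr ⟨by linarith, ⟨(d'.1, -d'.2), List.mem_map.2 ⟨d', hd', rfl⟩, h3, h4⟩,
      ⟨(d.1, -d.2), List.mem_map.2 ⟨d, hd, rfl⟩, h1, by simpa using h2⟩⟩

end Pool.Agent.Lib.MP_5e7226_co.HT
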