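import Pool.Agent.Lib.MP_5e7226_co.HT.Base
/-! T2a: corners of a planar convex body. -/

set_option autoImplicit false

open Set Filter Topology

namespace Pool.Agent.Lib.MP_5e7226_co.HT

variable {B : Set E} {f h : E → ℝ}

/-- A linear functional which is not zero has a complementary functional with a dual basis. -/
theorem dual_basis {l : E →ₗ[ℝ] ℝ} {y : E} (hy : l y = 1) :
    ∃ (k : E →ₗ[ℝ] ℝ) (u v : E), l u = 1 ∧ l v = 0 ∧ k u = 0 ∧ k v = 1 ∧
      ∀ x : E, l x • u + k x • v = x := by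
  obtain ⟨α, hα⟩ : ∃ α, α = l (1, 0) := ⟨_, rfl⟩
  obtain ⟨β, hβ⟩ : ∃ β, β = l (0, 1) := ⟨_, rfl⟩
  have hl : ∀ x : E, l x = α * x.1 + β * x.2 := by
    intro x
    have h1 : x = x.1 • ((1, 0) : E) + x.2 • ((0, 1) : E) := by
      ext <;> simp
    conv_lhs => rw [h1]
    rw [map_add, map_smul, map_smul, ← hα, ← hβ, smul_eq_mul, smul_eq_mul]
    ring
  have hN : 0 < α ^ 2 + β ^ 2 := by
    by_contra hcon
    have h1 : α = 0 := by nlinarith [sq_nonneg α, sq_nonneg β]
    have h2 : β = 0 := by nlinarith [sq_nonneg α, sq_nonneg β]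
    rw [hl y, h1, h2] at hy
    simp at hy
  have hN' : α ^ 2 + β ^ 2 ≠ 0 := hN.ne'
  let k : E →ₗ[ℝ] ℝ := (-β) • LinearMap.fst ℝ ℝ ℝ + α • LinearMap.snd ℝ ℝ ℝ
  have hk : ∀ x : E, k x = -β * x.1 + α * x.2 := by
    intro x
    simp [k]
  refine ⟨k, (α / (α ^ 2 + β ^ 2), β / (α ^ 2 + β ^ 2)),
    (-β / (α ^ 2 + β ^ 2), α / (α ^ 2 + β ^ 2)), ?_, ?_, ?_, ?_, ?_⟩
  · rw [hl]; field_simp
  · rw [hl]; field_simp; ring
  · rw [hk]; field_simp; ring
  · rw [hk]; field_simp; ring
  · intro x
    rw [hl, hk]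
    ext
    · simp only [Prod.smul_mk, smul_eq_mul, Prod.mk_add_mk]
      field_simp
      ring
    · simp only [Prod.smul_mk, smul_eq_mul, Prod.mk_add_mk]
      field_simp
      ring

theorem lin_cont (l : E →ₗ[ℝ] ℝ) : Continuous l := l.continuous_of_finiteDimensional

/-- Existence of a corner in the face of a given supporting functional. -/
theorem corner_of_face (H : HF B f h) {l k : E →ₗ[ℝ] ℝ} {u v y : E} (hy : y ∈ B)
    (hl : ∀ x ∈ B, l x ≤ 1) (hly : l y = 1) (hlu : l u = 1) (hlv : l v = 0) (hku : k u = 0)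
    (hkv : k v = 1) (hdec : ∀ x : E, l x • u + k x • v = x) :
    ∃ z, Corner B z l k u v ∧ ∀ x ∈ B, l x = 1 → k x ≤ k z := by
  have hcl : IsClosed {x : E | l x = 1} := isClosed_eq (lin_cont l) continuous_const
  have hK : IsCompact (B ∩ {x : E | l x = 1}) := H.cpt.inter_right hcl
  obtain ⟨z, hz, hmax⟩ := hK.exists_isMaxOn ⟨y, hy, hly⟩ (lin_cont k).continuousOn
  have hle : ∀ x ∈ B, l x = 1 → k x ≤ k z := fun x hx hx1 => hmax ⟨hx, hx1⟩
  refine ⟨z, ⟨hz.1, hl, hz.2, ?_, hlu, hlv, hku, hkv, hdec⟩, hle⟩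
  intro x hx hx1 hne
  refine lt_of_le_of_ne (hle x hx hx1) ?_
  intro heq
  apply hne
  rw [← hdec x, ← hdec z, hx1, heq, show l z = 1 from hz.2]

theorem exists_corner (H : HF B f h) : ∃ y l k u v, Corner B y l k u v := by
  obtain ⟨y, hy, -⟩ := H.exists_max
  obtain ⟨l, hly, hl⟩ := H.exists_support hy
  obtain ⟨k, u, v, hlu, hlv, hku, hkv, hdec⟩ := dual_basis hly
  obtain ⟨z, hz, -⟩ := corner_of_face H hy.1 hl hly hlu hlv hku hkv hdec
  exact ⟨z, l, k, u, v, hz⟩

/-- a corner is a boundary point, and an extreme point -/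
theorem Corner.bd (H : HF B f h) {y u v : E} {l k : E →ₗ[ℝ] ℝ} (hc : Corner B y l k u v) :
    y ∈ bd B := by
  refine ⟨hc.mem, fun hint => ?_⟩
  have h1 : Tendsto (fun t : ℝ => y + t • u) (𝓝 0) (𝓝 y) := by
    have : Continuous (fun t : ℝ => y + t • u) := by fun_prop
    have h2 := this.tendsto 0
    simpa using h2
  have h2 : ∀ᶠ t : ℝ in 𝓝 0, y + t • u ∈ B := by
    filter_upwards [h1.eventually (isOpen_interior.mem_nhds hint)] with t ht
    exact interior_subset ht
  have h3 : ∀ᶠ t : ℝ in 𝓝[>] (0 : ℝ), y + t • u ∈ B := h2.filter_mono nhdsWithin_le_nhds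
  obtain ⟨t, ht, ht0⟩ := (h3.and self_mem_nhdsWithin).exists
  have h4 := hc.le _ ht
  rw [map_add, map_smul, hc.ly, hc.lu, smul_eq_mul] at h4
  have h5 : (0 : ℝ) < t := ht0
  linarith

theorem Corner.extreme {y u v : E} {l k : E →ₗ[ℝ] ℝ} (hc : Corner B y l k u v)
    {a b : E} (ha : a ∈ B) (hb : b ∈ B) {t : ℝ} (ht0 : 0 < t) (ht1 : t < 1)
    (hy : y = (1 - t) • a + t • b) : a = y ∧ b = y := by
  have hly : (1 - t) * l a + t * l b = 1 := by
    have := hc.ly
    rw [hy, map_add, map_smul, map_smul, smul_eq_mul, smul_eq_mul] at this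
    exact this
  have hky : (1 - t) * k a + t * k b = k y := by
    rw [hy, map_add, map_smul, map_smul, smul_eq_mul, smul_eq_mul]
  have hla := hc.le a ha
  have hlb := hc.le b hb
  have hla1 : l a = 1 := by
    by_contra hne
    have : l a < 1 := lt_of_le_of_ne hla hne
    nlinarith
  have hlb1 : l b = 1 := by
    by_contra hne
    have : l b < 1 := lt_of_le_of_ne hlb hne
    nlinarith
  have hka : k a ≤ k y := by
    by_cases hay : a = y
    · rw [hay]
    · exact (hc.lt a ha hla1 hay).le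
  have hkb : k b ≤ k y := by
    by_cases hby : b = y
    · rw [hby]
    · exact (hc.lt b hb hlb1 hby).le
  constructor
  · by_contra hne
    have := hc.lt a ha hla1 hne
    nlinarith
  · by_contra hne
    have := hc.lt b hb hlb1 hne
    nlinarith

theorem Corner.neg (H : HF B f h) {y u v : E} {l k : E →ₗ[ℝ] ℝ} (hc : Corner B y l k u v) :
    Corner B (-y) (-l) (-k) (-u) (-v) := by
  refine ⟨H.sym y hc.mem, ?_, ?_, ?_, ?_, ?_, ?_, ?_, ?_⟩
  · intro x hx
    have := hc.le (-x) (H.sym x hx)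
    rw [map_neg] at this
    simpa using this
  · simpa using hc.ly
  · intro x hx hx1 hne
    have h1 : l (-x) = 1 := by
      rw [map_neg]; simpa using hx1
    have h2 := hc.lt (-x) (H.sym x hx) h1 (fun hh => hne (by rw [← hh, neg_neg]))
    rw [map_neg] at h2
    simpa using h2
  · simpa using hc.lu
  · simpa using hc.lv
  · simpa using hc.ku
  · simpa using hc.kv
  · intro x
    have := hc.dec x
    simpa using this

/-- Every rim point has the same height as, or can be replaced by, a rim corner. -/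
theorem ext_corner (H : HF B f h) {x : E} (hx : x ∈ B) (hr : f x + h x = 0) :
    ∃ y l k u v, Corner B y l k u v ∧ f y + h y = 0 ∧
      ((∀ z ∈ bd B, f z ≤ f x) → f y = f x) ∧ ((∀ z ∈ bd B, h z ≤ h x) → h y = h x) := by
  obtain ⟨l, hlx, hl⟩ := H.exists_support (H.rim_bd hx hr)
  obtain ⟨k, u, v, hlu, hlv, hku, hkv, hdec⟩ := dual_basis hlx
  obtain ⟨y, hy, hyk⟩ := corner_of_face H hx hl hlx hlu hlv hku hkv hdec
  obtain ⟨z, hz, hzk⟩ := corner_of_face (k := -k) (v := -v) H hx hl hlx hlu (by simp [hlv])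
    (by simp [hku]) (by simp [hkv]) (by intro w; simpa using hdec w)
  by_cases h1 : x = y
  · exact ⟨y, l, k, u, v, hy, by rw [← h1]; exact hr, fun _ => by rw [h1], fun _ => by rw [h1]⟩
  by_cases h2 : x = z
  · exact ⟨z, l, -k, u, -v, hz, by rw [← h2]; exact hr, fun _ => by rw [h2], fun _ => by rw [h2]⟩
  have hk1 : k x < k y := hy.lt x hx hlx h1
  have hk2 : k z < k x := by
    have := hz.lt x hx hlx h2
    simpa using this
  obtain ⟨t, ht⟩ : ∃ t, t = (k x - k z) / (k y - k z) := ⟨_, rfl⟩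
  have hd : 0 < k y - k z := by linarith
  have ht0 : 0 < t := by rw [ht]; exact div_pos (by linarith) hd
  have ht1 : t < 1 := by rw [ht, div_lt_one hd]; linarith
  have hkx : k x = (1 - t) * k z + t * k y := by
    rw [ht]; field_simp; ring
  have hxc : x = (1 - t) • z + t • y := by
    have e1 : l ((1 - t) • z + t • y) = l x := by
      rw [map_add, map_smul, map_smul, smul_eq_mul, smul_eq_mul, hy.ly, hz.ly, hlx]; ring
    have e2 : k ((1 - t) • z + t • y) = k x := by
      rw [map_add, map_smul, map_smul, smul_eq_mul, smul_eq_mul, hkx]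
    rw [← hdec x, ← hdec ((1 - t) • z + t • y), e1, e2]
  have hfx : (1 - t) * f z + t * f y ≤ f x := by
    have := H.fconc.2 hz.mem hy.mem (by linarith : (0 : ℝ) ≤ 1 - t) ht0.le (by ring)
    rw [← hxc] at this
    simpa using this
  have hhx : (1 - t) * h z + t * h y ≤ h x := by
    have := H.hconc.2 hz.mem hy.mem (by linarith : (0 : ℝ) ≤ 1 - t) ht0.le (by ring)
    rw [← hxc] at this
    simpa using this
  have hny := H.nonneg y hy.mem
  have hnz := H.nonneg z hz.mem
  have h1t : 0 < 1 - t := by linarith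
  have hry : f y + h y = 0 := by
    by_contra hne
    have hpos : 0 < f y + h y := lt_of_le_of_ne hny (Ne.symm hne)
    have := mul_pos ht0 hpos
    have := mul_nonneg h1t.le hnz
    nlinarith
  have hrz : f z + h z = 0 := by
    by_contra hne
    have hpos : 0 < f z + h z := lt_of_le_of_ne hnz (Ne.symm hne)
    have := mul_pos h1t hpos
    have := mul_nonneg ht0.le hny
    nlinarith
  have hybd := Corner.bd H hy
  have hzbd := Corner.bd H hz
  refine ⟨y, l, k, u, v, hy, hry, fun hm => ?_, fun hm => ?_⟩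
  · have a1 := hm y hybd
    have a2 := hm z hzbd
    -- `f x = (1-t) f z + t f y`
    have a3 : f x ≤ (1 - t) * f z + t * f y := by
      have e1 : h z = - f z := by linarith
      have e2 : h y = - f y := by linarith
      rw [e1, e2] at hhx
      linarith
    nlinarith
  · have a1 := hm y hybd
    have a2 := hm z hzbd
    have a3 : h x ≤ (1 - t) * h z + t * h y := by
      have e1 : f z = - h z := by linarith
      have e2 : f y = - h y := by linarith
      rw [e1, e2] at hfx
      linarith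
    nlinarith

end Pool.Agent.Lib.MP_5e7226_co.HT
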