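import Pool.Agent.Lib.MP_5e7226_co.HT.PT1b
import Pool.Agent.Lib.MP_5e7226_co.HT.PT2a
set_option autoImplicit false

open Set Filter Topology

namespace Pool.Agent.Lib.MP_5e7226_co.HT

open Pool.Agent.Lib.MP_5e7226_co.HT

variable {B : Set E} {f h : E → ℝ}

theorem ext_lk {y u v : E} {l k : E →ₗ[ℝ] ℝ} (hc : Corner B y l k u v) {a b : E}
    (h1 : l a = l b) (h2 : k a = k b) : a = b := by
  rw [← hc.dec a, ← hc.dec b, h1, h2]

/-- the map `(z, ε) ↦ z + τ (v - ε u)` is continuous -/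
theorem near (x u v : E) (τ : ℝ) {U : Set E} (hU : U ∈ 𝓝 (x + τ • v)) :
    ∃ r : ℝ, 0 < r ∧ ∀ z : E, ‖z - x‖ < r → ∀ ε : ℝ, 0 < ε → ε < r → z + τ • (v - ε • u) ∈ U := by
  have hcont : ContinuousAt (fun q : E × ℝ => q.1 + τ • (v - q.2 • u)) (x, 0) := by fun_prop
  have h1 : U ∈ 𝓝 ((fun q : E × ℝ => q.1 + τ • (v - q.2 • u)) (x, 0)) := by simpa using hU
  have h2 := hcont h1
  rw [mem_map, Metric.mem_nhds_iff] at h2
  obtain ⟨r, hr, hr'⟩ := h2
  refine ⟨r, hr, fun z hz ε hε hεr => ?_⟩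
  have h3 : (z, ε) ∈ Metric.ball ((x, 0) : E × ℝ) r := by
    rw [Metric.mem_ball, Prod.dist_eq, max_lt_iff]
    refine ⟨by rw [dist_eq_norm]; exact hz, ?_⟩
    rw [Real.dist_eq, sub_zero, abs_of_pos hε]
    exact hεr
  exact hr' h3

theorem between (H : HF B f h) {y u v : E} {l k : E →ₗ[ℝ] ℝ} (hc : Corner B y l k u v)
    {x : E} (hx : x ∈ B) (hl : l x = 1) (hk : k x < k y) {w : E} (a : 0 < l w)
    (b : l w * k x < k w) (c : k w < l w * k y) (hlw : l w < 1) : w ∈ interior B := by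
  have hkxy : 0 < k y - k x := by linarith
  set μ : ℝ := (k w / l w - k x) / (k y - k x) with hμ
  have hkw1 : k x < k w / l w := by rw [lt_div_iff₀ a]; linarith
  have hkw2 : k w / l w < k y := by rw [div_lt_iff₀ a]; linarith
  have hμ0 : 0 ≤ μ := div_nonneg (by linarith) hkxy.le
  have hμ1 : μ ≤ 1 := by rw [hμ, div_le_one hkxy]; linarith
  have hw' : (l w)⁻¹ • w = (1 - μ) • x + μ • y := by
    apply ext_lk hc
    · rw [map_smul, map_add, map_smul, map_smul, hl, hc.ly]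
      simp only [smul_eq_mul]
      rw [inv_mul_cancel₀ a.ne']; ring
    · rw [map_smul, map_add, map_smul, map_smul]
      simp only [smul_eq_mul]
      have : μ * (k y - k x) = k w / l w - k x := by rw [hμ, div_mul_cancel₀ _ hkxy.ne']
      have e : (l w)⁻¹ * k w = k w / l w := by rw [div_eq_mul_inv]; ring
      rw [e]
      linarith
  have hmem : (l w)⁻¹ • w ∈ B := by
    rw [hw']
    exact H.conv hx hc.mem (by linarith) hμ0 (by ring)
  have := H.smul_int hmem (c := l w) (by rw [abs_of_pos a]; exact hlw)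
  rwa [smul_smul, mul_inv_cancel₀ a.ne', one_smul] at this

theorem corner_one (H : HF B f h) {y u v : E} {l k : E →ₗ[ℝ] ℝ} (hc : Corner B y l k u v)
    {x : E} (hx : x ∈ B) (h1 : x ≠ y) (hl : l x = 1) :
    ∃ r : ℝ, 0 < r ∧ ∃ τ : ℝ, τ ≠ 0 ∧ ∀ z ∈ B, ‖z - x‖ < r → ∀ ε : ℝ, 0 < ε → ε < r →
      z + τ • (v - ε • u) ∈ interior B := by
  have hk := hc.lt x hx hl h1
  obtain ⟨τ, hτ, hτ'⟩ : ∃ τ : ℝ, 0 < τ ∧ 2 * τ = k y - k x := ⟨(k y - k x) / 2, by linarith, by ring⟩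
  -- the neighbourhood of the midpoint
  have hlc : Continuous l := l.continuous_of_finiteDimensional
  have hkc : Continuous k := k.continuous_of_finiteDimensional
  have hlm : l (x + τ • v) = 1 := by rw [map_add, map_smul, hc.lv, hl]; simp
  have hkm : k (x + τ • v) = k x + τ := by rw [map_add, map_smul, hc.kv]; simp
  have hU : {w : E | 0 < l w ∧ l w * k x < k w ∧ k w < l w * k y} ∈ 𝓝 (x + τ • v) := by
    have e1 : ∀ᶠ w in 𝓝 (x + τ • v), 0 < l w := by
      apply hlc.continuousAt.eventually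
      exact lt_mem_nhds (by rw [hlm]; exact one_pos)
    have e2 : ∀ᶠ w in 𝓝 (x + τ • v), 0 < k w - l w * k x := by
      have : ContinuousAt (fun w => k w - l w * k x) (x + τ • v) := by fun_prop
      apply this.eventually
      exact lt_mem_nhds (by show 0 < k (x + τ • v) - l (x + τ • v) * k x; rw [hlm, hkm]; linarith)
    have e3 : ∀ᶠ w in 𝓝 (x + τ • v), 0 < l w * k y - k w := by
      have : ContinuousAt (fun w => l w * k y - k w) (x + τ • v) := by fun_prop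
      apply this.eventually
      exact lt_mem_nhds (by show 0 < l (x + τ • v) * k y - k (x + τ • v); rw [hlm, hkm]; linarith)
    filter_upwards [e1, e2, e3] with w a b c
    exact ⟨a, by linarith, by linarith⟩
  obtain ⟨r, hr, hr'⟩ := near x u v τ hU
  refine ⟨r, hr, τ, hτ.ne', fun z hz hzx ε hε hεr => ?_⟩
  obtain ⟨a, b, c⟩ := hr' z hzx ε hε hεr
  have hlw : l (z + τ • (v - ε • u)) < 1 := by
    rw [map_add, map_smul, map_sub, map_smul, hc.lv, hc.lu]
    simp only [smul_eq_mul]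
    have := hc.le z hz
    nlinarith [mul_pos hτ hε]
  exact between H hc hx hl hk a b c hlw

theorem corner_pos (H : HF B f h) {y u v : E} {l k : E →ₗ[ℝ] ℝ} (hc : Corner B y l k u v)
    {x : E} (hl : |l x| < 1) :
    ∃ r : ℝ, 0 < r ∧ ∃ τ : ℝ, τ ≠ 0 ∧ ∀ z ∈ B, ‖z - x‖ < r → ∀ ε : ℝ, 0 < ε → ε < r →
      z + τ • (v - ε • u) ∈ interior B := by
  have key : ∃ τ : ℝ, τ ≠ 0 ∧ x + τ • v ∈ interior B := by
    have h0 : (l x) • y ∈ interior B := H.smul_int hc.mem hl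
    have e : x + (l x * k y - k x) • v = (l x) • y := by
      apply ext_lk hc
      · rw [map_add, map_smul, map_smul, hc.lv, hc.ly]; simp
      · rw [map_add, map_smul, map_smul, hc.kv]; simp
    by_cases hτ : l x * k y - k x = 0
    · rw [hτ, zero_smul, add_zero] at e
      rw [← e] at h0
      have hcont : ContinuousAt (fun t : ℝ => x + t • v) 0 := by fun_prop
      have h2 : ∀ᶠ t in 𝓝 (0 : ℝ), x + t • v ∈ interior B :=
        hcont.eventually (by simpa using isOpen_interior.mem_nhds h0)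
      rw [Metric.eventually_nhds_iff] at h2
      obtain ⟨r, hr, hr'⟩ := h2
      refine ⟨r / 2, by positivity, hr' ?_⟩
      rw [Real.dist_eq, sub_zero, abs_of_pos (by positivity)]
      linarith
    · exact ⟨_, hτ, by rw [e]; exact h0⟩
  obtain ⟨τ, hτ, hm⟩ := key
  obtain ⟨r, hr, hr'⟩ := near x u v τ (isOpen_interior.mem_nhds hm)
  exact ⟨r, hr, τ, hτ, fun z _ hzx ε hε hεr => hr' z hzx ε hε hεr⟩

/-- T2b -/
theorem corner_lemma (H : HF B f h) {y u v : E} {l k : E →ₗ[ℝ] ℝ} (hc : Corner B y l k u v)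
    {x : E} (hx : x ∈ B) (h1 : x ≠ y) (h2 : x ≠ -y) :
    ∃ r : ℝ, 0 < r ∧ ∃ τ : ℝ, τ ≠ 0 ∧ ∀ z ∈ B, ‖z - x‖ < r → ∀ ε : ℝ, 0 < ε → ε < r →
      z + τ • (v - ε • u) ∈ interior B := by
  have hle := hc.le x hx
  have hge := hc.le (-x) (H.sym x hx)
  rw [map_neg] at hge
  rcases lt_or_eq_of_le hle with h3 | h3
  · rcases lt_or_eq_of_le hge with h4 | h4
    · exact corner_pos H hc (abs_lt.2 ⟨by linarith, h3⟩)
    · obtain ⟨r, hr, τ, hτ, hh⟩ := corner_one H hc (H.sym x hx)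
        (fun h5 => h2 (by rw [← h5, neg_neg])) (by rw [map_neg]; exact h4)
      refine ⟨r, hr, -τ, neg_ne_zero.2 hτ, fun z hz hzx ε hε hεr => ?_⟩
      have := hh (-z) (H.sym z hz) (by rw [show -z - -x = -(z - x) by abel, norm_neg]; exact hzx) ε hε hεr
      have h6 := H.neg_int this
      rwa [show -(-z + τ • (v - ε • u)) = z + (-τ) • (v - ε • u) by rw [neg_add, neg_neg, neg_smul]] at h6
  · exact corner_one H hc hx h1 h3

/-- T2b: away from `±y` the directions `±(v - ε u)` with slopes `∓1/ε` illuminate all nonrim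
fibres, locally uniformly -/
theorem corner_steep (H : HF B f h) {y u v : E} {l k : E →ₗ[ℝ] ℝ} (hc : Corner B y l k u v)
    {x : E} (hx : x ∈ B) (h1 : x ≠ y) (h2 : x ≠ -y) :
    ∃ r : ℝ, 0 < r ∧ ∃ s : ℝ, (s = 1 ∨ s = -1) ∧ ∀ z ∈ B, ‖z - x‖ < r → ∀ ε : ℝ, 0 < ε → ε < r →
      IN B z (s • (v - ε • u)) ∧ UP B f z (s • (v - ε • u)) (-(1 / ε)) ∧
      UP B h z (s • (v - ε • u)) (-(1 / ε)) := by
  obtain ⟨r, hr, τ, hτ, hh⟩ := corner_lemma H hc hx h1 h2
  obtain ⟨s, hs, t, ht, hst⟩ : ∃ s : ℝ, (s = 1 ∨ s = -1) ∧ ∃ t : ℝ, 0 < t ∧ t * s = τ := by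
    rcases lt_or_gt_of_ne hτ with h3 | h3
    · exact ⟨-1, Or.inr rfl, -τ, by linarith, by ring⟩
    · exact ⟨1, Or.inl rfl, τ, h3, by ring⟩
  have hpos := H.pos0
  refine ⟨min r (t / (f 0 + h 0)), lt_min hr (div_pos ht hpos), s, hs, fun z hz hzx ε hε hεr => ?_⟩
  have hint := hh z hz (hzx.trans_le (min_le_left _ _)) ε hε (hεr.trans_le (min_le_left _ _))
  have e : z + t • (s • (v - ε • u)) = z + τ • (v - ε • u) := by rw [smul_smul, hst]
  have hε2 : ε * (f 0 + h 0) < t := by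
    have := hεr.trans_le (min_le_right _ _)
    rwa [lt_div_iff₀ hpos] at this
  have hε3 : f 0 + h 0 < t * (1 / ε) := by
    rw [mul_one_div, lt_div_iff₀ hε]; linarith
  have hmem : z + t • (s • (v - ε • u)) ∈ B := by rw [e]; exact interior_subset hint
  have a1 := H.le_zero hz
  have a2 := H.flip.le_zero hz
  have a3 := H.le_zero hmem
  have a4 := H.flip.le_zero hmem
  have a5 := H.nonneg _ hmem
  refine ⟨⟨t, ht, by rw [e]; exact hint⟩, ⟨t, ht, hmem, ?_⟩, ⟨t, ht, hmem, ?_⟩⟩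
  · have : t * -(1 / ε) = -(t * (1 / ε)) := by ring
    rw [this]; linarith
  · have : t * -(1 / ε) = -(t * (1 / ε)) := by ring
    rw [this]; linarith

end Pool.Agent.Lib.MP_5e7226_co.HT
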